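import Pool.Agent.IsoC.Defs

/-!
# Classes modulo `N`-th powers

`gen_def`: a definable generator; `cl_prq`: the classes are first order; `cl_ex`: existence and uniqueness of the class;
`cc_rep`: a function constant on the classes is determined by its values at the representatives.
-/

set_option autoImplicit false

noncomputable section

namespace Pool.Agent.IsoC

open Finset Polynomial Pool.Agent.PRc Pool.Agent.Grz Pool.Agent.CvS

private theorem gen_exists_Gen (N : ℕ) (hN : 0 < N) (p : ℕ) [hp : Fact p.Prime] :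
    ∃ a : ℕ, a < p ∧ Gen N (a : ZMod p) := by
  obtain ⟨u, hu⟩ := IsCyclic.exists_generator (α := (ZMod p)ˣ)
  refine ⟨(u : ZMod p).val, ZMod.val_lt _, ?_⟩
  rw [ZMod.natCast_zmod_val]
  intro s hs
  obtain ⟨z, hz⟩ := hu (Units.mk0 s hs)
  have hN' : (N : ℤ) ≠ 0 := by exact_mod_cast hN.ne'
  have hr : 0 ≤ z % N := Int.emod_nonneg _ hN'
  have hr' : z % N < N := Int.emod_lt_of_pos _ (by exact_mod_cast hN)
  obtain ⟨k, hk⟩ := Int.eq_ofNat_of_zero_le hr
  have hkN : k < N := by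
    have : (k : ℤ) < N := by rw [← hk]; exact hr'
    exact_mod_cast this
  refine ⟨⟨k, hkN⟩, ((u ^ (z / N) : (ZMod p)ˣ) : ZMod p), ?_⟩
  have h1 : u ^ z = u ^ k * (u ^ (z / N)) ^ N := by
    rw [← zpow_natCast, ← zpow_natCast, ← zpow_mul, ← zpow_add, ← hk]
    congr 1
    have := Int.emod_add_mul_ediv z N
    linarith [mul_comm (N : ℤ) (z / N)]
  have h2 : s = ((u ^ z : (ZMod p)ˣ) : ZMod p) := by
    have : u ^ z = Units.mk0 s hs := hz
    rw [this]
    rfl
  rw [h2, h1]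
  push_cast
  rfl

/-- the relation `Gen` -/
private theorem gen_prq_Gen (N : ℕ) :
    PRQ (fun k _ (x : Fin 1 → k) => Gen N (x 0)) := by
  have h1 : ∀ j : Fin N, PRQ (fun k _ (x : ((Fin 1 ⊕ Fin 1) ⊕ Fin 1) → k) =>
      x (Sum.inl (Sum.inr 0)) = x (Sum.inl (Sum.inl 0)) ^ (j : ℕ) * x (Sum.inr 0) ^ N) := by
    intro j
    exact PRQ.eq (PRF.var _) (((PRF.var _).pow _).mul ((PRF.var _).pow _))
  have h2 : PRQ (fun k _ (x : (Fin 1 ⊕ Fin 1) → k) => ∃ j : Fin N, ∃ z : Fin 1 → k,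
      x (Sum.inr 0) = x (Sum.inl 0) ^ (j : ℕ) * z 0 ^ N) :=
    PRQ.exF fun j => (h1 j).ex
  have h3 : PRQ (fun k _ (x : (Fin 1 ⊕ Fin 1) → k) => x (Sum.inr 0) ≠ 0) :=
    (PRQ.eq (PRF.var _) PRF.zero).not
  refine ((h3.imp h2).all).congr fun k _ x => ?_
  unfold Gen
  constructor
  · intro h s hs
    obtain ⟨j, z, hz⟩ := h (fun _ => s) hs
    exact ⟨j, z 0, hz⟩
  · intro h z hz
    obtain ⟨j, y, hy⟩ := h (z 0) hz
    exact ⟨j, fun _ => y, hy⟩

open scoped Classical in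
theorem gen_def (N : ℕ) (hN : 0 < N) : ∃ g : ℕ → ℕ, DFun 1 (fun w => g (w 0)) ∧
    ∀ (p : ℕ) [Fact p.Prime], Gen N (g p : ZMod p) := by
  let Q : ℕ → ℕ → Prop := fun p a => ∃ h : p.Prime, haveI := Fact.mk h; Gen N (a : ZMod p)
  have hQ : ∀ (n : ℕ) {p a : (Fin n → ℕ) → ℕ}, DFun n p → DFun n a →
      Delta0 n (fun v => Q (p v) (a v)) := fun n p a hp ha =>
    prq_delta (gen_prq_Gen N) (a := fun _ => a) hp (fun _ => ha)
  let g : ℕ → ℕ := fun p => if h : ∃ a, a < p ∧ Q p a then Nat.find h else 0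
  have hle : ∀ p, g p ≤ p := by
    intro p
    by_cases h : ∃ a, a < p ∧ Q p a
    · simp only [g, dif_pos h]
      exact (Nat.find_spec h).1.le
    · simp only [g, dif_neg h]
      exact Nat.zero_le _
  refine ⟨g, ?_, ?_⟩
  · refine DFun.ofGraph (DFun.proj 0) (fun v => hle (v 0)) ?_
    -- graph: either g is the least with Q, or no such exists and value is 0
    have p0 : DFun 2 (fun w : Fin 2 → ℕ => w 1) := DFun.proj 1
    have a0 : DFun 2 (fun w : Fin 2 → ℕ => w 0) := DFun.proj 0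
    have hA : Delta0 2 (fun w => w 0 < w 1 ∧ Q (w 1) (w 0)) :=
      (Delta0.ltFun a0 p0).and (hQ 2 p0 a0)
    have hB : Delta0 2 (fun w => ∀ x, x ≤ w 0 → (x < w 0 → ¬ (x < w 1 ∧ Q (w 1) x))) := by
      refine Delta0.ballFun a0 (P := fun x w => x < w 0 → ¬ (x < w 1 ∧ Q (w 1) x)) ?_
      have x0 : DFun 3 (fun w : Fin 3 → ℕ => w 0) := DFun.proj 0
      have x1 : DFun 3 (fun w : Fin 3 → ℕ => w 1) := DFun.proj 1
      have x2 : DFun 3 (fun w : Fin 3 → ℕ => w 2) := DFun.proj 2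
      refine (((Delta0.ltFun x0 x1).and ((Delta0.ltFun x0 x2).and (hQ 3 x2 x0))).not).of_iff ?_
      intro w
      simp only [Fin.succ_zero_eq_one, Fin.succ_one_eq_two, not_and]
    have hC : Delta0 2 (fun w => ∀ x, x ≤ w 1 → ¬ (x < w 1 ∧ Q (w 1) x)) := by
      refine Delta0.ballFun p0 (P := fun x w => ¬ (x < w 1 ∧ Q (w 1) x)) ?_
      have x0 : DFun 3 (fun w : Fin 3 → ℕ => w 0) := DFun.proj 0
      have x2 : DFun 3 (fun w : Fin 3 → ℕ => w 2) := DFun.proj 2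
      exact ((Delta0.ltFun x0 x2).and (hQ 3 x2 x0)).not
    refine ((hA.and hB).or (hC.and (Delta0.eqFun a0 (DFun.const 0)))).of_iff ?_
    intro w
    refine Iff.symm ?_
    change _ ↔ w 0 = g (w 1)
    by_cases h : ∃ a, a < w 1 ∧ Q (w 1) a
    · simp only [g, dif_pos h]
      constructor
      · rintro (⟨h1, h2⟩ | ⟨h1, -⟩)
        · symm
          rw [Nat.find_eq_iff]
          exact ⟨h1, fun m hm => h2 m hm.le hm⟩
        · obtain ⟨a, ha⟩ := h
          exact absurd ha (h1 a ha.1.le)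
      · intro h1
        left
        rw [h1]
        exact ⟨Nat.find_spec h, fun x _ hx => Nat.find_min h hx⟩
    · simp only [g, dif_neg h]
      constructor
      · rintro (⟨h1, -⟩ | ⟨-, h1⟩)
        · exact absurd ⟨_, h1⟩ h
        · exact h1
      · intro h1
        exact Or.inr ⟨fun x _ hx => h ⟨x, hx⟩, h1⟩
  · intro p hp
    have h : ∃ a, a < p ∧ Q p a := by
      obtain ⟨a, ha, h1⟩ := gen_exists_Gen N hN p
      exact ⟨a, ha, hp.out, h1⟩
    have h1 : g p = Nat.find h := by simp only [g, dif_pos h]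
    obtain ⟨_, h2⟩ := (Nat.find_spec h).2
    rw [h1]
    exact h2

theorem cl_prq (N : ℕ) (i : Fin (N + 1)) : PRQ (Cl N i) := by
  have h1 : ∀ j : Fin N, PRQ (fun k _ (x : Fin 2 → k) => ∃ z : Fin 1 → k,
      x 0 = x 1 ^ (j : ℕ) * z 0 ^ N) := by
    intro j
    have : PRQ (fun k _ (x : (Fin 2 ⊕ Fin 1) → k) =>
        x (Sum.inl 0) = x (Sum.inl 1) ^ (j : ℕ) * x (Sum.inr 0) ^ N) :=
      PRQ.eq (PRF.var _) (((PRF.var _).pow _).mul ((PRF.var _).pow _))
    exact this.ex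
  have h2 : ∀ j : Fin N, PRQ (fun k _ (x : Fin 2 → k) => ∃ y : k,
      x 0 = x 1 ^ (j : ℕ) * y ^ N) := fun j =>
    (h1 j).congr fun k _ x => ⟨fun ⟨z, hz⟩ => ⟨z 0, hz⟩, fun ⟨y, hy⟩ => ⟨fun _ => y, hy⟩⟩
  have h0 : PRQ (fun k _ (x : Fin 2 → k) => x 0 = 0) := PRQ.eq (PRF.var _) PRF.zero
  refine Fin.cases ?_ (fun j => ?_) i
  · exact h0.congr fun k _ x => Iff.rfl
  · have h3 : PRQ (fun k _ (x : Fin 2 → k) => ∀ j' : Fin N, j' < j → ¬ ∃ y : k,
        x 0 = x 1 ^ (j' : ℕ) * y ^ N) := by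
      refine PRQ.allF fun j' => ?_
      by_cases hj : j' < j
      · exact ((h2 j').not).congr fun k _ x => by simp [hj]
      · exact PRQ.true.congr fun k _ x => by simp [hj]
    exact ((h0.not).and ((h2 j).and h3)).congr fun k _ x => Iff.rfl

theorem cl_ex {N : ℕ} (hN : 0 < N) {K : Type} [Field K] {g : K} (hg : Gen N g) (s : K) :
    ∃! i, Cl N i K ![s, g] := by
  classical
  by_cases hs : s = 0
  · refine ⟨0, ?_, ?_⟩
    · simp [Cl, hs]
    · intro i hi
      revert hi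
      refine Fin.cases (fun _ => rfl) (fun j hj => ?_) i
      exact absurd hs hj.1
  · have hex : ∃ k : ℕ, ∃ h : k < N, ∃ y : K, s = g ^ k * y ^ N := by
      obtain ⟨k, y, h⟩ := hg s hs
      exact ⟨k, k.2, y, h⟩
    obtain ⟨hk, hy⟩ := Nat.find_spec hex
    refine ⟨Fin.succ ⟨Nat.find hex, hk⟩, ?_, ?_⟩
    · refine ⟨hs, hy, ?_⟩
      intro j' hj' h
      exact Nat.find_min hex (m := (j' : ℕ)) hj' ⟨j'.2, h⟩
    · intro i hi
      revert hi
      refine Fin.cases (fun h => absurd h hs) (fun j hj => ?_) i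
      congr 1
      apply Fin.ext
      change (j : ℕ) = Nat.find hex
      symm
      rw [Nat.find_eq_iff]
      refine ⟨⟨j.2, hj.2.1⟩, ?_⟩
      rintro m hm ⟨hmN, h⟩
      exact hj.2.2 ⟨m, hmN⟩ hm h

theorem cc_rep {N : ℕ} (hN : 0 < N) {K : Type} [Field K] {g s : K} {u : K → ℕ} (hu : CC N u)
    {i : Fin (N + 1)} (h : Cl N i K ![s, g]) : u s = u (rp i g) := by
  revert h
  refine Fin.cases (fun h => ?_) (fun j h => ?_) i
  · have h' : s = 0 := h
    rw [h']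
    rfl
  · obtain ⟨hs, ⟨y, hy⟩, -⟩ := h
    have hs' : s ≠ 0 := hs
    have hy' : s = g ^ (j : ℕ) * y ^ N := hy
    have hy0 : y ≠ 0 := by
      rintro rfl
      rw [zero_pow hN.ne', mul_zero] at hy'
      exact hs' hy'
    rw [hy']
    exact hu _ _ hy0

open scoped Classical in
theorem cc_sum {N : ℕ} (hN : 0 < N) {K : Type} [Field K] {g : K} (hg : Gen N g) {u : K → ℕ}
    (hu : CC N u) (s : K) : u s = ∑ i, if Cl N i K ![s, g] then u (rp i g) else 0 := by
  obtain ⟨i, hi, h⟩ := cl_ex hN hg s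
  rw [Finset.sum_eq_single i, if_pos hi, cc_rep hN hu hi]
  · intro j _ hj
    rw [if_neg fun h1 => hj (h j h1)]
  · intro h1
    exact absurd (Finset.mem_univ i) h1

end Pool.Agent.IsoC
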