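import Pool.Agent.IsoC.Sm
import Pool.Agent.IsoC.Gen

/-!
# Binary forms

`ind_form`: quasi-homogeneous polynomials in two unknowns (the numbers of solutions of `F(x, y) = u` are constant on the
classes modulo `e`-th powers; `u` a representative: points of a plane curve, `CvQ.chq_all CvQ.one 2`, or all points of
the plane).
-/

set_option autoImplicit false

noncomputable section

namespace Pool.Agent.IsoC

open Finset Polynomial Pool.Agent.PRc Pool.Agent.Grz Pool.Agent.CvS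

/-- parameters: the coefficients and the value -/
abbrev Pm (e : ℕ) : Type := (Fin (e + 1) × Fin (e + 1)) ⊕ Unit

/-- the curve -/
def XC (w₁ w₂ e : ℕ) : FR (Fin 2 ⊕ Pm e) := fun _ _ z =>
  (∑ i : Fin (e + 1), ∑ j : Fin (e + 1), if w₁ * i + w₂ * j = e then
    z (Sum.inr (Sum.inl (i, j))) * z (Sum.inl 0) ^ (i : ℕ) * z (Sum.inl 1) ^ (j : ℕ) else 0) =
    z (Sum.inr (Sum.inr ()))

/-- the degenerate case -/
def BC (w₁ w₂ e : ℕ) : FR (Pm e) := fun _ _ x =>
  (∀ ij : Fin (e + 1) × Fin (e + 1), w₁ * ij.1 + w₂ * ij.2 = e → x (Sum.inl ij) = 0) ∧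
    x (Sum.inr ()) = 0

theorem xc_prd (w₁ w₂ e : ℕ) : PRD (XC w₁ w₂ e) := by
  refine PRD.eq (F := fun k _ (z : Fin 2 ⊕ Pm e → k) =>
    ∑ i : Fin (e + 1), ∑ j : Fin (e + 1), if w₁ * i + w₂ * j = e then
    z (Sum.inr (Sum.inl (i, j))) * z (Sum.inl 0) ^ (i : ℕ) * z (Sum.inl 1) ^ (j : ℕ) else 0)
    (G := fun k _ (z : Fin 2 ⊕ Pm e → k) => z (Sum.inr (Sum.inr ()))) ?_ (PRF.var _)
  refine PRF.sum _ (F := fun (i : Fin (e + 1)) k _ (z : Fin 2 ⊕ Pm e → k) =>
    ∑ j : Fin (e + 1), if w₁ * i + w₂ * j = e then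
    z (Sum.inr (Sum.inl (i, j))) * z (Sum.inl 0) ^ (i : ℕ) * z (Sum.inl 1) ^ (j : ℕ) else 0)
    fun i _ => ?_
  refine PRF.sum _ (F := fun (j : Fin (e + 1)) k _ (z : Fin 2 ⊕ Pm e → k) =>
    if w₁ * i + w₂ * j = e then
    z (Sum.inr (Sum.inl (i, j))) * z (Sum.inl 0) ^ (i : ℕ) * z (Sum.inl 1) ^ (j : ℕ) else 0)
    fun j _ => ?_
  by_cases h : w₁ * (i : ℕ) + w₂ * (j : ℕ) = e
  · refine (((PRF.var (Sum.inr (Sum.inl (i, j)))).mul ((PRF.var (Sum.inl 0)).pow (i : ℕ))).mul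
      ((PRF.var (Sum.inl 1)).pow (j : ℕ))).congr fun k _ z => ?_
    rw [if_pos h]
  · refine PRF.zero.congr fun k _ z => ?_
    rw [if_neg h]

theorem bc_prq (w₁ w₂ e : ℕ) : PRQ (BC w₁ w₂ e) := by
  refine PRQ.and (P := fun k _ (x : Pm e → k) =>
    ∀ ij : Fin (e + 1) × Fin (e + 1), w₁ * ij.1 + w₂ * ij.2 = e → x (Sum.inl ij) = 0)
    (Q := fun k _ (x : Pm e → k) => x (Sum.inr ()) = 0) ?_
    (PRQ.eq (PRF.var (Sum.inr ())) PRF.zero)
  refine PRQ.allF (P := fun (ij : Fin (e + 1) × Fin (e + 1)) k _ (x : Pm e → k) =>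
    w₁ * ij.1 + w₂ * ij.2 = e → x (Sum.inl ij) = 0) fun ij => ?_
  by_cases h : w₁ * (ij.1 : ℕ) + w₂ * (ij.2 : ℕ) = e
  · refine (PRQ.eq (PRF.var (Sum.inl ij)) PRF.zero).congr fun k _ x => ?_
    exact ⟨fun h1 _ => h1, fun h1 => h1 h⟩
  · exact PRQ.true.congr fun k _ x => ⟨fun _ h1 => absurd h1 h, fun _ => trivial⟩

/-- the polynomial of the curve -/
def GC {K : Type} [Field K] (w₁ w₂ e : ℕ) (x : Pm e → K) : K[X][X] :=
  (∑ i : Fin (e + 1), ∑ j : Fin (e + 1), if w₁ * i + w₂ * j = e then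
    C (C (x (Sum.inl (i, j))) * X ^ (i : ℕ)) * X ^ (j : ℕ) else 0) - C (C (x (Sum.inr ())))

theorem gc_eval {K : Type} [Field K] (w₁ w₂ e : ℕ) (x : Pm e → K) (a b : K) :
    (GC w₁ w₂ e x).evalEval a b =
      (∑ i : Fin (e + 1), ∑ j : Fin (e + 1), if w₁ * i + w₂ * j = e then
        x (Sum.inl (i, j)) * a ^ (i : ℕ) * b ^ (j : ℕ) else 0) - x (Sum.inr ()) := by
  unfold GC
  rw [evalEval_sub, evalEval_finsetSum, evalEval_CC]
  congr 1
  refine Finset.sum_congr rfl fun i _ => ?_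
  rw [evalEval_finsetSum]
  refine Finset.sum_congr rfl fun j _ => ?_
  split_ifs with h
  · rw [evalEval_mul, evalEval_C, evalEval_pow, evalEval_X, eval_mul, eval_C, eval_pow, eval_X]
  · exact evalEval_zero a b

theorem gc_coeff {K : Type} [Field K] (w₁ w₂ e : ℕ) (x : Pm e → K)
    (i₀ j₀ : Fin (e + 1)) :
    ((GC w₁ w₂ e x).coeff j₀).coeff i₀ =
      (if w₁ * i₀ + w₂ * j₀ = e then x (Sum.inl (i₀, j₀)) else 0) -
        (if (i₀ : ℕ) = 0 ∧ (j₀ : ℕ) = 0 then x (Sum.inr ()) else 0) := by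
  unfold GC
  rw [coeff_sub, coeff_sub]
  congr 1
  · rw [finsetSum_coeff, finsetSum_coeff, Finset.sum_eq_single i₀]
    · rw [finsetSum_coeff, finsetSum_coeff, Finset.sum_eq_single j₀]
      · split_ifs with h
        · rw [coeff_C_mul, coeff_X_pow, if_pos rfl, mul_one, coeff_C_mul, coeff_X_pow,
            if_pos rfl, mul_one]
        · rw [coeff_zero, coeff_zero]
      · intro j _ hj
        split_ifs with h
        · rw [coeff_C_mul, coeff_X_pow, if_neg fun h1 => hj (Fin.ext h1.symm), mul_zero,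
            coeff_zero]
        · rw [coeff_zero, coeff_zero]
      · intro h
        exact absurd (Finset.mem_univ _) h
    · intro i _ hi
      rw [finsetSum_coeff, finsetSum_coeff]
      refine Finset.sum_eq_zero fun j _ => ?_
      split_ifs with h
      · rw [coeff_C_mul, coeff_X_pow]
        split_ifs with h1
        · rw [mul_one, coeff_C_mul, coeff_X_pow, if_neg fun h2 => hi (Fin.ext h2.symm), mul_zero]
        · rw [mul_zero, coeff_zero]
      · rw [coeff_zero, coeff_zero]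
    · intro h
      exact absurd (Finset.mem_univ _) h
  · rw [coeff_C]
    by_cases h1 : (j₀ : ℕ) = 0
    · rw [if_pos h1, coeff_C]
      by_cases h2 : (i₀ : ℕ) = 0
      · rw [if_pos h2, if_pos ⟨h2, h1⟩]
      · rw [if_neg h2, if_neg fun h => h2 h.1]
    · rw [if_neg h1, if_neg fun h => h1 h.2, coeff_zero]

theorem gc_ne {K : Type} [Field K] (w₁ w₂ e : ℕ) (he : 0 < e) (x : Pm e → K)
    (hx : ¬ BC w₁ w₂ e K x) : GC w₁ w₂ e x ≠ 0 := by
  intro h
  apply hx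
  have h1 : ∀ i₀ j₀ : Fin (e + 1),
      (if w₁ * i₀ + w₂ * j₀ = e then x (Sum.inl (i₀, j₀)) else 0) -
        (if (i₀ : ℕ) = 0 ∧ (j₀ : ℕ) = 0 then x (Sum.inr ()) else 0) = 0 := by
    intro i₀ j₀
    rw [← gc_coeff, h, coeff_zero, coeff_zero]
  refine ⟨fun ij hij => ?_, ?_⟩
  · have h2 := h1 ij.1 ij.2
    rw [if_pos hij, if_neg, sub_zero] at h2
    · exact h2
    · rintro ⟨h3, h4⟩
      rw [h3, h4, mul_zero, mul_zero, add_zero] at hij
      exact he.ne hij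
  · have h2 := h1 0 0
    rw [if_neg, if_pos ⟨rfl, rfl⟩, zero_sub, neg_eq_zero] at h2
    · exact h2
    · intro h3
      rw [Fin.val_zero, mul_zero, mul_zero, add_zero] at h3
      exact he.ne h3

/-- the values at definable arguments -/
theorem val_def {n : ℕ} (w₁ w₂ e : ℕ) (he : 0 < e)
    (c : Fin (e + 1) → Fin (e + 1) → (Fin n → ℕ) → ℕ) (hc : ∀ i j, DFun n (c i j))
    {ρ : ℕ → (Fin n → ℕ) → ℕ} (hρ : DV ρ) :
    ∃ f : ℕ → (Fin n → ℕ) → ℕ, DV f ∧ ∀ (p : ℕ) [Fact p.Prime] (v : Fin n → ℕ),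
      f p v = Nat.card {x : Fin 2 → ZMod p // (∑ i : Fin (e + 1), ∑ j : Fin (e + 1),
        if w₁ * i + w₂ * j = e then (c i j v : ZMod p) * x 0 ^ (i : ℕ) * x 1 ^ (j : ℕ) else 0) =
        (ρ p v : ZMod p)} := by
  classical
  obtain ⟨N, hN, hN'⟩ := CvQ.chq_all CvQ.one 2 (xc_prd w₁ w₂ e)
    (PRQ.true (ι := Fin 2 ⊕ Pm e))
  set q : Pm e → ℕ → (Fin n → ℕ) → ℕ := Sum.elim (fun ij _ v => c ij.1 ij.2 v)
    (fun _ p v => ρ p v) with hqd
  have hq : ∀ i, DV (q i) := by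
    rintro (ij | _)
    · exact DV.par (hc ij.1 ij.2)
    · exact hρ
  refine ⟨_, DV.iteQ (bc_prq w₁ w₂ e) hq ((DV.pr (n := n)).pow 2) (DV.dc hN hq),
    fun p _ v => ?_⟩
  have hp : p.Prime := Fact.out
  by_cases h : BC w₁ w₂ e (ZMod p) (fun i => (q i p v : ZMod p))
  · rw [if_pos ⟨hp, h⟩]
    obtain ⟨h1, h2⟩ := h
    have h3 : ∀ x : Fin 2 → ZMod p, (∑ i : Fin (e + 1), ∑ j : Fin (e + 1),
        if w₁ * i + w₂ * j = e then (c i j v : ZMod p) * x 0 ^ (i : ℕ) * x 1 ^ (j : ℕ) else 0) =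
        (ρ p v : ZMod p) := by
      intro x
      have h4 : (ρ p v : ZMod p) = 0 := h2
      rw [h4]
      refine Finset.sum_eq_zero fun i _ => Finset.sum_eq_zero fun j _ => ?_
      split_ifs with h5
      · have h6 : (c i j v : ZMod p) = 0 := h1 (i, j) h5
        rw [h6, zero_mul, zero_mul]
      · rfl
    rw [Nat.card_congr (Equiv.subtypeUnivEquiv h3), Nat.card_fun, Nat.card_zmod, Nat.card_fin]
  · rw [if_neg]
    · rw [hN' p (fun i => q i p v)]
      · refine Nat.card_congr (Equiv.subtypeEquivRight fun x => ?_)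
        exact ⟨fun h1 => h1.1, fun h1 => ⟨h1, trivial⟩⟩
      · intro i j hij
        have hi : i = 0 := by omega
        have hj : j = 1 := by omega
        subst hi hj
        refine ⟨GC w₁ w₂ e (cst (AlgebraicClosure (ZMod p)) fun i => q i p v),
          gc_ne w₁ w₂ e he _ ?_, fun z hz => ?_⟩
        · intro h1
          apply h
          have h2 : ∀ a : ℕ, (a : AlgebraicClosure (ZMod p)) = 0 → (a : ZMod p) = 0 := by
            intro a ha
            apply (algebraMap (ZMod p) (AlgebraicClosure (ZMod p))).injective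
            rw [map_natCast, map_zero, ha]
          exact ⟨fun ij hij => h2 _ (h1.1 ij hij), h2 _ h1.2⟩
        · rw [gc_eval, sub_eq_zero]
          exact hz
    · rintro ⟨_, h1⟩
      exact h h1

theorem ind_form {n : ℕ} (w₁ w₂ e : ℕ) (h₁ : 0 < w₁) (h₂ : 0 < w₂) (he : 0 < e)
    (c : Fin (e + 1) → Fin (e + 1) → (Fin n → ℕ) → ℕ) (hc : ∀ i j, DFun n (c i j)) :
    Ind (n := n) (κ := Fin 2) (fun v R _ _ x => ∑ i : Fin (e + 1), ∑ j : Fin (e + 1),
      if w₁ * i + w₂ * j = e then (c i j v : R) * x 0 ^ (i : ℕ) * x 1 ^ (j : ℕ) else 0) := by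
  classical
  have hcc : ∀ (p : ℕ) [Fact p.Prime] (v : Fin n → ℕ) (t : ZMod p),
      CC e (Wn (n := n) (κ := Fin 2) (fun v R _ _ x => ∑ i : Fin (e + 1), ∑ j : Fin (e + 1),
        if w₁ * i + w₂ * j = e then (c i j v : R) * x 0 ^ (i : ℕ) * x 1 ^ (j : ℕ) else 0)
        p v t) := by
    intro p _ v t s y hy
    unfold Wn
    symm
    refine Nat.card_congr (Equiv.subtypeEquiv (Equiv.piCongrRight fun i : Fin 2 =>
      Equiv.mulRight₀ (y ^ (![w₁, w₂] i)) (pow_ne_zero _ hy)) fun x => ?_)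
    have h3 : (∑ i : Fin (e + 1), ∑ j : Fin (e + 1),
        if w₁ * i + w₂ * j = e then (c i j v : ZMod p) * (x 0 * y ^ w₁) ^ (i : ℕ) *
          (x 1 * y ^ w₂) ^ (j : ℕ) else 0) = (∑ i : Fin (e + 1), ∑ j : Fin (e + 1),
        if w₁ * i + w₂ * j = e then (c i j v : ZMod p) * x 0 ^ (i : ℕ) *
          x 1 ^ (j : ℕ) else 0) * y ^ e := by
      rw [Finset.sum_mul]
      refine Finset.sum_congr rfl fun i _ => ?_
      rw [Finset.sum_mul]
      refine Finset.sum_congr rfl fun j _ => ?_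
      split_ifs with h4
      · have h5 : y ^ e = (y ^ w₁) ^ (i : ℕ) * (y ^ w₂) ^ (j : ℕ) := by
          rw [← pow_mul, ← pow_mul, ← pow_add, h4]
        rw [h5, mul_pow, mul_pow]
        ring
      · rw [zero_mul]
    change _ ↔ (∑ i : Fin (e + 1), ∑ j : Fin (e + 1),
        if w₁ * i + w₂ * j = e then (c i j v : ZMod p) * (x 0 * y ^ w₁) ^ (i : ℕ) *
          (x 1 * y ^ w₂) ^ (j : ℕ) else 0) = s * y ^ e
    rw [h3]
    exact (mul_left_inj' (pow_ne_zero e hy)).symm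
  refine ⟨e, he, hcc, ?_⟩
  obtain ⟨g, hg, hG⟩ := gen_def e he
  have hgv : DV (n := n) (fun p _ => g p) := DV.one hg
  have hr : ∀ i : Fin (e + 1), ∃ ρ : ℕ → (Fin n → ℕ) → ℕ, DV ρ ∧
      ∀ (p : ℕ) [Fact p.Prime] (v : Fin n → ℕ), (ρ p v : ZMod p) = rp i (g p : ZMod p) := by
    intro i
    refine Fin.cases ?_ (fun j => ?_) i
    · exact ⟨fun _ _ => 0, DV.const 0, fun p _ v => Nat.cast_zero⟩
    · exact ⟨fun p _ => g p ^ (j : ℕ), hgv.pow j, fun p _ v => Nat.cast_pow _ _⟩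
  choose ρ hρ hρ' using hr
  have hf := fun i => val_def w₁ w₂ e he c hc (hρ i)
  choose f hf hf' using hf
  have hR : ∀ i : Fin (e + 1), PRQ (fun k _ (z : Fin 2 ⊕ Unit → k) =>
      Cl e i k ![z (Sum.inl 1), z (Sum.inr ())]) := by
    intro i
    refine ((cl_prq e i).comp (κ := Fin 2 ⊕ Unit)
      (G := ![fun k _ z => z (Sum.inl 1), fun k _ z => z (Sum.inr ())]) ?_).congr
      fun k _ z => iff_of_eq (congrArg _ ?_)
    · intro j
      refine Fin.cases ?_ (fun j => Fin.cases ?_ (fun j => j.elim0) j) j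
      · exact PRF.var (Sum.inl 1)
      · exact PRF.var (Sum.inr ())
    · funext j
      refine Fin.cases ?_ (fun j => Fin.cases ?_ (fun j => j.elim0) j) j <;> rfl
  refine (SM.sum Finset.univ fun i : Fin (e + 1) => SM.ite (hR i)
    (q := fun _ p _ => g p) (fun _ => hgv) (SM.const (κ := Fin 2) (hf i))
    (SM.const (κ := Fin 2) (DV.const (n := n) 0))).congr fun p _ v x => ?_
  rw [cc_sum he (hG p) (hcc p v (x 0)) (x 1)]
  refine Finset.sum_congr rfl fun i _ => ?_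
  change (if Cl e i (ZMod p) ![x 1, (g p : ZMod p)] then f i p v else 0) = _
  by_cases h : Cl e i (ZMod p) ![x 1, (g p : ZMod p)]
  · rw [if_pos h, if_pos h, hf' i p v, hρ' i p v]
    rfl
  · rw [if_neg h, if_neg h]

end Pool.Agent.IsoC
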