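import Pool.Agent.IsoC.Ind
import Pool.Agent.IsoC.Form

/-!
# Quasi-homogeneous polynomials of two families

`ind_bin`: `F(E, E')`, `F` quasi-homogeneous in two unknowns with definable coefficients (`form` is the case of two
unknowns). Proof: `iw_op` (`Clo`) with parameters and without the hypothesis on the dimension: the number of the pairs
`(s, s')` in the classes `j`, `j'` with `F(s, s') = rp i g` is definable: if `F` vanishes modulo `p` and `rp i g = 0` it is the
product of the numbers of elements of the two classes (`one_dv`, `cl_one`), and otherwise `CvQ.chq_all CvQ.one 2` with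
the curve of `Form` and the relation `Cl N j ∧ Cl N j'`. Then `Wn` of `F(E, E')` is the sum of `iw_bin` (as in
`card_pair_I`, with `κ ⊕ κ'`).
-/

set_option autoImplicit false

noncomputable section

namespace Pool.Agent.IsoC

open Finset Polynomial Pool.Agent.PRc Pool.Agent.Grz Pool.Agent.CvS

variable {n : ℕ}

open scoped Classical in
private theorem card2_B {K : Type} [Field K] [Fintype K] (P : K → K → Prop) :
    Nat.card {z : Fin 2 → K // P (z 0) (z 1)} = ∑ s : K, ∑ s' : K, if P s s' then 1 else 0 := by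
  have e : Nat.card {z : Fin 2 → K // P (z 0) (z 1)} = Nat.card {z : K × K // P z.1 z.2} :=
    Nat.card_congr ((finTwoArrowEquiv K).subtypeEquiv fun z => Iff.rfl)
  rw [e, Nat.card_eq_fintype_card, Fintype.card_subtype, Finset.card_filter,
    Fintype.sum_prod_type]

private theorem card2_prod_B {K : Type} [Field K] (P Q : K → Prop) :
    Nat.card {z : Fin 2 → K // P (z 0) ∧ Q (z 1)} =
      Nat.card {s : K // P s} * Nat.card {s : K // Q s} := by
  have e : Nat.card {z : Fin 2 → K // P (z 0) ∧ Q (z 1)} =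
      Nat.card {z : K × K // P z.1 ∧ Q z.2} :=
    Nat.card_congr ((finTwoArrowEquiv K).subtypeEquiv fun z => Iff.rfl)
  rw [e, ← Nat.card_prod]
  exact Nat.card_congr Equiv.subtypeProdEquivProd

open scoped Classical in
private theorem expand_B {K : Type} [Field K] [Fintype K] {N : ℕ} (hN : 0 < N) {g : K}
    (hg : Gen N g) {u u' : K → ℕ} (hu : CC N u) (hu' : CC N u') (Q : K → K → Prop) :
    ∑ s : K, ∑ s' : K, (if Q s s' then u s * u' s' else 0) =
      ∑ j : Fin (N + 1), ∑ j' : Fin (N + 1), u (rp j g) * u' (rp j' g) *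
        Nat.card {z : Fin 2 → K // Q (z 0) (z 1) ∧ (Cl N j K ![z 0, g] ∧ Cl N j' K ![z 1, g])} := by
  have h1 : ∀ s s' : K, (if Q s s' then u s * u' s' else 0) =
      ∑ j : Fin (N + 1), ∑ j' : Fin (N + 1), u (rp j g) * u' (rp j' g) *
        (if Q s s' ∧ (Cl N j K ![s, g] ∧ Cl N j' K ![s', g]) then 1 else 0) := by
    intro s s'
    by_cases h : Q s s'
    · rw [if_pos h, cc_sum hN hg hu s, cc_sum hN hg hu' s', Finset.sum_mul_sum]
      refine Finset.sum_congr rfl fun j _ => Finset.sum_congr rfl fun j' _ => ?_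
      by_cases h2 : Cl N j K ![s, g] <;> by_cases h3 : Cl N j' K ![s', g] <;> simp [h, h2, h3]
    · rw [if_neg h]
      symm
      refine Finset.sum_eq_zero fun j _ => Finset.sum_eq_zero fun j' _ => ?_
      simp [h]
  simp only [h1]
  have h2 : ∀ j j' : Fin (N + 1), Nat.card {z : Fin 2 → K // Q (z 0) (z 1) ∧
      (Cl N j K ![z 0, g] ∧ Cl N j' K ![z 1, g])} = ∑ s : K, ∑ s' : K,
        if Q s s' ∧ (Cl N j K ![s, g] ∧ Cl N j' K ![s', g]) then 1 else 0 := fun j j' => by
    have h3 := card2_B fun s s' => Q s s' ∧ (Cl N j K ![s, g] ∧ Cl N j' K ![s', g])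
    convert h3
  simp only [h2, Finset.mul_sum]
  conv_lhs => enter [2, s]; rw [Finset.sum_comm]
  rw [Finset.sum_comm]
  refine Finset.sum_congr rfl fun j _ => ?_
  conv_lhs => enter [2, s]; rw [Finset.sum_comm]
  rw [Finset.sum_comm]

/-- the numbers of the solutions in two classes are definable -/
theorem bin_def {N : ℕ} (k k' : Fin (N + 1)) (w₁ w₂ e : ℕ) (he : 0 < e)
    (c : Fin (e + 1) → Fin (e + 1) → (Fin n → ℕ) → ℕ) (hc : ∀ i j, DFun n (c i j))
    {ρ g : ℕ → (Fin n → ℕ) → ℕ} (hρ : DV ρ) (hg : DV g) :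
    ∃ f : ℕ → (Fin n → ℕ) → ℕ, DV f ∧ ∀ (p : ℕ) [Fact p.Prime] (v : Fin n → ℕ),
      f p v = Nat.card {z : Fin 2 → ZMod p // (∑ i : Fin (e + 1), ∑ j : Fin (e + 1),
        if w₁ * i + w₂ * j = e then (c i j v : ZMod p) * z 0 ^ (i : ℕ) * z 1 ^ (j : ℕ) else 0) =
        (ρ p v : ZMod p) ∧ (Cl N k (ZMod p) ![z 0, (g p v : ZMod p)] ∧
          Cl N k' (ZMod p) ![z 1, (g p v : ZMod p)])} := by
  classical
  have hX : PRD (fun K _ (z : Fin 2 ⊕ (Pm e ⊕ Unit) → K) =>
      XC w₁ w₂ e K (Sum.elim (fun i => z (Sum.inl i)) fun i => z (Sum.inr (Sum.inl i)))) := by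
    refine ((xc_prd w₁ w₂ e).comp (G := Sum.elim
      (fun i K _ (z : Fin 2 ⊕ (Pm e ⊕ Unit) → K) => z (Sum.inl i))
      (fun i K _ (z : Fin 2 ⊕ (Pm e ⊕ Unit) → K) => z (Sum.inr (Sum.inl i)))) ?_).congr
      fun K _ z => iff_of_eq (congrArg (XC w₁ w₂ e K) ?_)
    · rintro (i | i)
      · exact PRF.var _
      · exact PRF.var _
    · funext i
      rcases i with i | i <;> rfl
  have hR : PRQ (fun K _ (z : Fin 2 ⊕ (Pm e ⊕ Unit) → K) =>
      Cl N k K ![z (Sum.inl 0), z (Sum.inr (Sum.inr ()))] ∧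
        Cl N k' K ![z (Sum.inl 1), z (Sum.inr (Sum.inr ()))]) := by
    refine PRQ.and ?_ ?_
    · refine ((cl_prq N k).comp (G := ![fun K _ (x : Fin 2 ⊕ (Pm e ⊕ Unit) → K) => x (Sum.inl 0),
        fun K _ (x : Fin 2 ⊕ (Pm e ⊕ Unit) → K) => x (Sum.inr (Sum.inr ()))])
        fun k => ?_).congr fun K _ x => ?_
      · fin_cases k
        · exact PRF.var _
        · exact PRF.var _
      · refine iff_of_eq (congrArg (Cl N k K) ?_)
        funext k
        fin_cases k <;> rfl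
    · refine ((cl_prq N k').comp (G := ![fun K _ (x : Fin 2 ⊕ (Pm e ⊕ Unit) → K) => x (Sum.inl 1),
        fun K _ (x : Fin 2 ⊕ (Pm e ⊕ Unit) → K) => x (Sum.inr (Sum.inr ()))])
        fun k => ?_).congr fun K _ x => ?_
      · fin_cases k
        · exact PRF.var _
        · exact PRF.var _
      · refine iff_of_eq (congrArg (Cl N k' K) ?_)
        funext k
        fin_cases k <;> rfl
  obtain ⟨M, hM, hM'⟩ := CvQ.chq_all CvQ.one 2 hX hR
  obtain ⟨f₁, hf₁, hf₁'⟩ := one_dv (n := n) (cl_one k ()) (q := fun _ : Unit => g) fun _ => hg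
  obtain ⟨f₂, hf₂, hf₂'⟩ := one_dv (n := n) (cl_one k' ()) (q := fun _ : Unit => g) fun _ => hg
  set q : Pm e → ℕ → (Fin n → ℕ) → ℕ := Sum.elim (fun ij _ v => c ij.1 ij.2 v)
    (fun _ p v => ρ p v) with hqd
  have hq : ∀ i, DV (q i) := by
    rintro (ij | _)
    · exact DV.par (hc ij.1 ij.2)
    · exact hρ
  have hq' : ∀ i : Pm e ⊕ Unit, DV (Sum.elim q (fun _ => g) i) := by
    rintro (i | i)
    · exact hq i
    · exact hg
  refine ⟨_, DV.iteQ (bc_prq w₁ w₂ e) hq (hf₁.mul hf₂) (DV.dc hM hq'), fun p _ v => ?_⟩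
  have hp : p.Prime := Fact.out
  by_cases h : BC w₁ w₂ e (ZMod p) (fun i => (q i p v : ZMod p))
  · rw [if_pos ⟨hp, h⟩]
    obtain ⟨h1, h2⟩ := h
    have h3 : ∀ x : Fin 2 → ZMod p, (∑ i : Fin (e + 1), ∑ j : Fin (e + 1),
        if w₁ * i + w₂ * j = e then (c i j v : ZMod p) * x 0 ^ (i : ℕ) * x 1 ^ (j : ℕ) else 0) =
        (ρ p v : ZMod p) := by
      intro x
      have h4 : (ρ p v : ZMod p) = 0 := h2
      rw [h4]
      refine Finset.sum_eq_zero fun i _ => Finset.sum_eq_zero fun j _ => ?_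
      split_ifs with h5
      · have h6 : (c i j v : ZMod p) = 0 := h1 (i, j) h5
        rw [h6, zero_mul, zero_mul]
      · rfl
    rw [hf₁' p v, hf₂' p v]
    have h7 := card2_prod_B (K := ZMod p)
      (fun s => Cl N k (ZMod p) ![s, (g p v : ZMod p)])
      (fun s => Cl N k' (ZMod p) ![s, (g p v : ZMod p)])
    refine Eq.trans ?_ (h7.symm.trans (Nat.card_congr (Equiv.subtypeEquivRight fun x => ?_)))
    · rfl
    · exact ⟨fun h8 => ⟨h3 x, h8⟩, fun h8 => h8.2⟩
  · rw [if_neg]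
    · rw [hM' p (fun i => Sum.elim q (fun _ => g) i p v)]
      · refine Nat.card_congr (Equiv.subtypeEquivRight fun x => ?_)
        exact Iff.rfl
      · intro i j hij
        have hi : i = 0 := by omega
        have hj : j = 1 := by omega
        subst hi hj
        refine ⟨GC w₁ w₂ e (cst (AlgebraicClosure (ZMod p)) fun i => q i p v),
          gc_ne w₁ w₂ e he _ ?_, fun z hz => ?_⟩
        · intro h1
          apply h
          have h2 : ∀ a : ℕ, (a : AlgebraicClosure (ZMod p)) = 0 → (a : ZMod p) = 0 := by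
            intro a ha
            apply (algebraMap (ZMod p) (AlgebraicClosure (ZMod p))).injective
            rw [map_natCast, map_zero, ha]
          exact ⟨fun ij hij => h2 _ (h1.1 ij hij), h2 _ h1.2⟩
        · rw [gc_eval, sub_eq_zero]
          exact hz
    · rintro ⟨_, h1⟩
      exact h h1

open scoped Classical in
theorem iw_bin {W W' : WT n} (h : IW W) (h' : IW W') (w₁ w₂ e : ℕ) (h₁ : 0 < w₁) (h₂ : 0 < w₂) (he : 0 < e)
    (c : Fin (e + 1) → Fin (e + 1) → (Fin n → ℕ) → ℕ) (hc : ∀ i j, DFun n (c i j)) :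
    IW (fun p _ v t u => ∑ s : ZMod p, ∑ s' : ZMod p,
      if (∑ i : Fin (e + 1), ∑ j : Fin (e + 1), if w₁ * i + w₂ * j = e then
        (c i j v : ZMod p) * s ^ (i : ℕ) * s' ^ (j : ℕ) else 0) = u then
          W p v t s * W' p v t s' else 0) := by
  obtain ⟨N₁, hN₁, hC₁, hS₁⟩ := h
  obtain ⟨N₂, hN₂, hC₂, hS₂⟩ := h'
  obtain ⟨N, hN, hC, hC'⟩ : ∃ N, 0 < N ∧ (∀ (p : ℕ) [Fact p.Prime] (v : Fin n → ℕ) (t : ZMod p),
      CC N (W p v t)) ∧ ∀ (p : ℕ) [Fact p.Prime] (v : Fin n → ℕ) (t : ZMod p), CC N (W' p v t) :=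
    ⟨N₁ * N₂, Nat.mul_pos hN₁ hN₂, fun p _ v t => cc_mono (hC₁ p v t) (dvd_mul_right _ _),
      fun p _ v t => cc_mono (hC₂ p v t) (dvd_mul_left _ _)⟩
  have hNe : 0 < N * e := Nat.mul_pos hN he
  obtain ⟨g, hg, hG⟩ := gen_def (N * e) hNe
  have hCe : ∀ (p : ℕ) [Fact p.Prime] (v : Fin n → ℕ) (t : ZMod p), CC (N * e) (W p v t) :=
    fun p _ v t => cc_mono (hC p v t) (dvd_mul_right _ _)
  have hCe' : ∀ (p : ℕ) [Fact p.Prime] (v : Fin n → ℕ) (t : ZMod p), CC (N * e) (W' p v t) :=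
    fun p _ v t => cc_mono (hC' p v t) (dvd_mul_right _ _)
  have hCC : ∀ (p : ℕ) [Fact p.Prime] (v : Fin n → ℕ) (t : ZMod p), CC (N * e) (fun u =>
      ∑ s : ZMod p, ∑ s' : ZMod p,
      if (∑ i : Fin (e + 1), ∑ j : Fin (e + 1), if w₁ * i + w₂ * j = e then
        (c i j v : ZMod p) * s ^ (i : ℕ) * s' ^ (j : ℕ) else 0) = u then
          W p v t s * W' p v t s' else 0) := by
    intro p _ v t u y hy
    have ha : y ^ N ≠ 0 := pow_ne_zero N hy
    have hb : ∀ (k : ℕ) (f : ZMod p → ℕ), ∑ s : ZMod p, f s = ∑ s : ZMod p, f (s * (y ^ N) ^ k) := by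
      intro k f
      exact (Equiv.sum_comp (Equiv.mulRight₀ ((y ^ N) ^ k) (pow_ne_zero k ha)) f).symm
    have hW : ∀ (k : ℕ) (s : ZMod p), W p v t (s * (y ^ N) ^ k) = W p v t s := by
      intro k s
      have h1 := hC p v t s (y ^ k) (pow_ne_zero k hy)
      rwa [← pow_mul, mul_comm k N, pow_mul] at h1
    have hW' : ∀ (k : ℕ) (s : ZMod p), W' p v t (s * (y ^ N) ^ k) = W' p v t s := by
      intro k s
      have h1 := hC' p v t s (y ^ k) (pow_ne_zero k hy)
      rwa [← pow_mul, mul_comm k N, pow_mul] at h1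
    beta_reduce
    rw [hb w₁]
    refine Finset.sum_congr rfl fun s _ => ?_
    rw [hb w₂]
    refine Finset.sum_congr rfl fun s' _ => ?_
    rw [hW, hW']
    have h3 : (∑ i : Fin (e + 1), ∑ j : Fin (e + 1),
        if w₁ * i + w₂ * j = e then (c i j v : ZMod p) * (s * (y ^ N) ^ w₁) ^ (i : ℕ) *
          (s' * (y ^ N) ^ w₂) ^ (j : ℕ) else 0) = (∑ i : Fin (e + 1), ∑ j : Fin (e + 1),
        if w₁ * i + w₂ * j = e then (c i j v : ZMod p) * s ^ (i : ℕ) *
          s' ^ (j : ℕ) else 0) * y ^ (N * e) := by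
      rw [Finset.sum_mul]
      refine Finset.sum_congr rfl fun i _ => ?_
      rw [Finset.sum_mul]
      refine Finset.sum_congr rfl fun j _ => ?_
      split_ifs with h4
      · have h5 : y ^ (N * e) = ((y ^ N) ^ w₁) ^ (i : ℕ) * ((y ^ N) ^ w₂) ^ (j : ℕ) := by
          rw [← pow_mul (y ^ N), ← pow_mul (y ^ N), ← pow_add, h4, ← pow_mul]
        rw [h5, mul_pow, mul_pow]
        ring
      · rw [zero_mul]
    rw [h3]
    refine if_congr ?_ rfl rfl
    exact mul_left_inj' (pow_ne_zero _ hy)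
  refine ⟨N * e, hNe, hCC, sm_of_rep hNe hCC hg hG fun i => ?_⟩
  have hB := fun j j' : Fin (N * e + 1) => bin_def (n := n) j j' w₁ w₂ e he c hc
    (rp_dv i (DV.one hg)) (DV.one hg)
  choose B hB hB' using hB
  refine (SM.sum Finset.univ fun j => SM.sum Finset.univ fun j' =>
    ((sm_rep hS₁ j (DV.one hg) (0 : Fin 2)).mul (sm_rep hS₂ j' (DV.one hg) (0 : Fin 2))).mul
      (SM.const (hB j j'))).congr fun p _ v x => ?_
  simp only [hB', rp_cast]
  have h5 := (expand_B hNe (hG p) (hCe p v (x 0)) (hCe' p v (x 0))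
    fun s s' => (∑ i : Fin (e + 1), ∑ j : Fin (e + 1), if w₁ * i + w₂ * j = e then
        (c i j v : ZMod p) * s ^ (i : ℕ) * s' ^ (j : ℕ) else 0) = rp i (g p : ZMod p)).symm
  convert h5

open scoped Classical in
private theorem card_sum_B {K : Type} [Fintype K] {κ κ' : Type} [Finite κ] [Finite κ']
    (f : (κ → K) → K) (f' : (κ' → K) → K) (op : K → K → K) (u : K) :
    Nat.card {x : κ ⊕ κ' → K // op (f fun i => x (Sum.inl i)) (f' fun i => x (Sum.inr i)) = u} =
      ∑ a : K, ∑ b : K, if op a b = u then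
        Nat.card {x : κ → K // f x = a} * Nat.card {x : κ' → K // f' x = b} else 0 := by
  have := Fintype.ofFinite κ
  have := Fintype.ofFinite κ'
  have e : Nat.card {x : κ ⊕ κ' → K // op (f fun i => x (Sum.inl i))
      (f' fun i => x (Sum.inr i)) = u} =
      Nat.card {z : (κ → K) × (κ' → K) // op (f z.1) (f' z.2) = u} :=
    Nat.card_congr ((Equiv.sumArrowEquivProdArrow κ κ' K).subtypeEquiv fun z => Iff.rfl)
  rw [e, Nat.card_eq_fintype_card, Fintype.card_subtype, Finset.card_filter,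
    Fintype.sum_prod_type, sum_fib_I f fun a => ∑ x' : κ' → K, if op a (f' x') = u then 1 else 0]
  refine Finset.sum_congr rfl fun a _ => ?_
  rw [sum_fib_I f' fun b => if op a b = u then 1 else 0, Finset.mul_sum]
  refine Finset.sum_congr rfl fun b _ => ?_
  by_cases h : op a b = u <;> simp [h]

theorem ind_bin (w₁ w₂ e : ℕ) (h₁ : 0 < w₁) (h₂ : 0 < w₂) (he : 0 < e)
    (c : Fin (e + 1) → Fin (e + 1) → (Fin n → ℕ) → ℕ) (hc : ∀ i j, DFun n (c i j))
    {κ κ' : Type} [Finite κ] [Finite κ'] {E : Fam n κ} {E' : Fam n κ'} (h : Ind E) (h' : Ind E') :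
    Ind (n := n) (κ := κ ⊕ κ') (fun v R _ t x => ∑ i : Fin (e + 1), ∑ j : Fin (e + 1),
      if w₁ * i + w₂ * j = e then (c i j v : R) * E v R t (fun y => x (Sum.inl y)) ^ (i : ℕ) *
        E' v R t (fun y => x (Sum.inr y)) ^ (j : ℕ) else 0) := by
  classical
  have hW : IW (n := n) (fun p _ v t u => Wn E p v t u) := h
  have hW' : IW (n := n) (fun p _ v t u => Wn E' p v t u) := h'
  have h3 := iw_bin hW hW' w₁ w₂ e h₁ h₂ he c hc
  refine h3.congr fun p _ v t u => ?_
  have h4 := card_sum_B (E v (ZMod p) t) (E' v (ZMod p) t)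
    (fun s s' => ∑ i : Fin (e + 1), ∑ j : Fin (e + 1), if w₁ * i + w₂ * j = e then
        (c i j v : ZMod p) * s ^ (i : ℕ) * s' ^ (j : ℕ) else 0) u
  refine Eq.trans (Finset.sum_congr rfl fun a _ => Finset.sum_congr rfl fun b _ => ?_) h4.symm
  by_cases h5 : (∑ i : Fin (e + 1), ∑ j : Fin (e + 1), if w₁ * i + w₂ * j = e then
      (c i j v : ZMod p) * a ^ (i : ℕ) * b ^ (j : ℕ) else 0) = u
  · rw [if_pos h5, if_pos h5]
    rfl
  · rw [if_neg h5, if_neg h5]

end Pool.Agent.IsoC
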