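import Pool.Agent.IsoC.Clo

/-!
# Closure of the statement `Ind`

Sums and products in disjoint unknowns, powers, multiplication by polynomials in `t`.
-/

set_option autoImplicit false

noncomputable section

namespace Pool.Agent.IsoC

open Finset Polynomial Pool.Agent.PRc Pool.Agent.Grz Pool.Agent.CvS
open scoped Polynomial.Bivariate

variable {n : ℕ}

open scoped Classical in
theorem sum_fib_I {X K : Type} [Fintype X] [Fintype K] (f : X → K) (F : K → ℕ) :
    ∑ x : X, F (f x) = ∑ s : K, Nat.card {x : X // f x = s} * F s := by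
  have h1 : ∀ x : X, F (f x) = ∑ s : K, if f x = s then F s else 0 := by
    intro x
    rw [Finset.sum_ite_eq Finset.univ (f x) F, if_pos (Finset.mem_univ _)]
  simp only [h1]
  rw [Finset.sum_comm]
  refine Finset.sum_congr rfl fun s _ => ?_
  rw [← Finset.sum_filter, Finset.sum_const, smul_eq_mul, Nat.card_eq_fintype_card,
    Fintype.card_subtype]

open scoped Classical in
theorem card_pair_I {K : Type} [Fintype K] {s s' : ℕ} (f : (Fin s → K) → K)
    (f' : (Fin s' → K) → K) (op : K → K → K) (u : K) :
    Nat.card {x : Fin (s + s') → K // op (f fun i => x (Fin.castAdd s' i))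
      (f' fun i => x (Fin.natAdd s i)) = u} = ∑ a : K, ∑ b : K,
        if op a b = u then Nat.card {x : Fin s → K // f x = a} * Nat.card {x : Fin s' → K // f' x = b}
          else 0 := by
  have e : Nat.card {x : Fin (s + s') → K // op (f fun i => x (Fin.castAdd s' i))
      (f' fun i => x (Fin.natAdd s i)) = u} =
      Nat.card {z : (Fin s → K) × (Fin s' → K) // op (f z.1) (f' z.2) = u} := by
    refine (Nat.card_congr ((Fin.appendEquiv s s').subtypeEquiv fun z => ?_)).symm
    have e1 : (fun i => Fin.appendEquiv s s' z (Fin.castAdd s' i)) = z.1 := by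
      funext i
      simp [Fin.appendEquiv]
    have e2 : (fun i => Fin.appendEquiv s s' z (Fin.natAdd s i)) = z.2 := by
      funext i
      simp [Fin.appendEquiv]
    rw [e1, e2]
  rw [e, Nat.card_eq_fintype_card, Fintype.card_subtype, Finset.card_filter,
    Fintype.sum_prod_type, sum_fib_I f fun a => ∑ x' : Fin s' → K, if op a (f' x') = u then 1 else 0]
  refine Finset.sum_congr rfl fun a _ => ?_
  rw [sum_fib_I f' fun b => if op a b = u then 1 else 0, Finset.mul_sum]
  refine Finset.sum_congr rfl fun b _ => ?_
  by_cases h : op a b = u <;> simp [h]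

open scoped Classical in
theorem card_un_I {K : Type} [Fintype K] {s : ℕ} (f : (Fin s → K) → K) (op : K → K) (u : K) :
    Nat.card {x : Fin s → K // op (f x) = u} = ∑ a : K,
        if op a = u then Nat.card {x : Fin s → K // f x = a} else 0 := by
  rw [Nat.card_eq_fintype_card, Fintype.card_subtype, Finset.card_filter,
    sum_fib_I f fun a => if op a = u then 1 else 0]
  refine Finset.sum_congr rfl fun a _ => ?_
  by_cases h : op a = u <;> simp [h]

/-- the fibres of addition and multiplication are curves -/
private theorem dm_I {K : Type} [Field K] (S : Set (Fin 2 → K)) (G : K[X][Y]) (hG : G ≠ 0)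
    (h : ∀ z ∈ S, G.evalEval (z 0) (z 1) = 0) : Dm1 S := by
  intro i j hij
  have hi : i = 0 := by
    fin_cases i
    · rfl
    · exfalso
      fin_cases j
      · exact absurd hij (by decide)
      · exact absurd hij (by decide)
  have hj : j = 1 := by
    subst hi
    fin_cases j
    · exact absurd hij (by decide)
    · rfl
  subst hi hj
  exact ⟨G, hG, h⟩

/-- coefficients are piecewise rational functions -/
theorem cf_prf (d : ℕ) : PRF (fun (K : Type) [Field K] (x : Fin 1 ⊕ Fin (d + 1) → K) =>
    ∑ i : Fin (d + 1), x (Sum.inr i) * x (Sum.inl 0) ^ (i : ℕ)) :=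
  PRF.sum Finset.univ (F := fun (i : Fin (d + 1)) (K : Type) [Field K]
    (x : Fin 1 ⊕ Fin (d + 1) → K) => x (Sum.inr i) * x (Sum.inl 0) ^ (i : ℕ))
    fun _ _ => (PRF.var _).mul ((PRF.var _).pow _)

theorem ind_var : Ind (n := n) (κ := Unit) (fun _ _ _ _ x => x ()) := by
  classical
  have e : ∀ (p : ℕ) [Fact p.Prime] (v : Fin n → ℕ) (t u : ZMod p),
      Wn (n := n) (κ := Unit) (fun _ _ _ _ x => x ()) p v t u = 1 := by
    intro p _ v t u
    unfold Wn
    rw [Nat.card_eq_one_iff_unique]
    refine ⟨⟨fun a b => ?_⟩, ⟨⟨fun _ => u, rfl⟩⟩⟩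
    ext i
    exact a.2.trans b.2.symm
  refine ⟨1, one_pos, fun p _ v t s y _ => ?_, ?_⟩
  · rw [e, e]
  · exact (SM.const (DV.const 1)).congr fun p _ v x => (e p v _ _).symm

/-- sums over pairs with given sum -/
theorem iw_add {W W' : WT n} (h : IW W) (h' : IW W') :
    IW (fun p _ v t u => ∑ s : ZMod p, ∑ s' : ZMod p,
      if s + s' = u then W p v t s * W' p v t s' else 0) := by
  classical
  have h3 := iw_op h h' (op := fun K _ x => x 0 + x 1) ((PRF.var 0).add (PRF.var 1)) (by
    intro K _ u
    refine dm_I _ (X + C (X - C u)) ?_ ?_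
    · intro h0
      have h4 := congrArg (fun P : K[X][Y] => P.coeff 1) h0
      simp only [coeff_add, coeff_X_one, coeff_C_succ, add_zero, coeff_zero] at h4
      exact one_ne_zero h4
    · intro z hz
      have hz' : z 0 + z 1 = u := hz
      simp only [evalEval_add, evalEval_X, evalEval_C, eval_sub, eval_X, eval_C]
      rw [← hz']
      ring) 1 1 (by
    intro K _ s s' a
    simp only [Matrix.cons_val_zero, Matrix.cons_val_one, pow_one]
    ring)
  refine h3.congr fun p _ v t u => ?_
  rfl

/-- sums over pairs with given product -/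
theorem iw_mul {W W' : WT n} (h : IW W) (h' : IW W') :
    IW (fun p _ v t u => ∑ s : ZMod p, ∑ s' : ZMod p,
      if s * s' = u then W p v t s * W' p v t s' else 0) := by
  classical
  have h3 := iw_op h h' (op := fun K _ x => x 0 * x 1) ((PRF.var 0).mul (PRF.var 1)) (by
    intro K _ u
    refine dm_I _ (X * C X - C (C u)) ?_ ?_
    · intro h0
      have h4 := congrArg (fun P : K[X][Y] => P.coeff 1) h0
      simp only [coeff_sub, coeff_mul_C, coeff_X_one, one_mul, coeff_C_succ, sub_zero,
        coeff_zero] at h4
      exact X_ne_zero h4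
    · intro z hz
      have hz' : z 0 * z 1 = u := hz
      simp only [evalEval_sub, evalEval_mul, evalEval_X, evalEval_C, eval_X, eval_C]
      rw [← hz']
      ring) 1 0 (by
    intro K _ s s' a
    simp only [Matrix.cons_val_zero, Matrix.cons_val_one, pow_one, pow_zero]
    ring)
  refine h3.congr fun p _ v t u => ?_
  rfl

end Pool.Agent.IsoC
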