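import Pool.Agent.IsoC.Sm
import Pool.Agent.IsoC.Gen
import Pool.Agent.IsoC.Ind

/-!
# Quadratic forms

`ind_quad`: quadratic forms in any number of unknowns, coefficients polynomials in the parameter `t`.
-/

set_option autoImplicit false

noncomputable section

namespace Pool.Agent.IsoC

open Finset Polynomial Pool.Agent.PRc Pool.Agent.Grz Pool.Agent.CvS
open scoped Polynomial.Bivariate

variable {n : ℕ}

/-- the form with coefficients `a` becomes `∑ r i * x i ^ 2` after an invertible linear substitution -/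
private def DQ {s : ℕ} (K : Type) [Field K] (a : Fin s → Fin s → K) (r : Fin s → K) : Prop :=
  ∃ M M' : Fin s → Fin s → K, (∀ i j, ∑ k, M i k * M' k j = if i = j then 1 else 0) ∧
    ∀ i j, ∑ k, ∑ l, (a k l + a l k) * M k i * M l j = if i = j then 2 * r i else 0

private theorem dq_prq (s : ℕ) : PRQ (fun K _ (z : (Fin s × Fin s) ⊕ Fin s → K) =>
    DQ K (fun i j => z (Sum.inl (i, j))) (fun i => z (Sum.inr i))) := by
  have h1 : PRQ (fun K _ (z : ((Fin s × Fin s) ⊕ Fin s) ⊕ ((Fin s × Fin s) ⊕ (Fin s × Fin s)) → K) =>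
      (∀ i j : Fin s, (∑ k : Fin s, z (Sum.inr (Sum.inl (i, k))) * z (Sum.inr (Sum.inr (k, j)))) =
        if i = j then 1 else 0) ∧
      ∀ i j : Fin s, (∑ k : Fin s, ∑ l : Fin s, (z (Sum.inl (Sum.inl (k, l))) +
        z (Sum.inl (Sum.inl (l, k)))) * z (Sum.inr (Sum.inl (k, i))) *
          z (Sum.inr (Sum.inl (l, j)))) = if i = j then 2 * z (Sum.inl (Sum.inr i)) else 0) := by
    refine PRQ.and (PRQ.allF fun i => PRQ.allF fun j => ?_)
      (PRQ.allF fun i => PRQ.allF fun j => ?_)
    · refine PRQ.eq (PRF.sum Finset.univ (F := fun (k : Fin s) K _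
        (z : ((Fin s × Fin s) ⊕ Fin s) ⊕ ((Fin s × Fin s) ⊕ (Fin s × Fin s)) → K) =>
          z (Sum.inr (Sum.inl (i, k))) * z (Sum.inr (Sum.inr (k, j)))) fun k _ =>
          (PRF.var _).mul (PRF.var _)) ?_
      by_cases h : i = j
      · refine PRF.one.congr fun K _ z => ?_
        rw [if_pos h]
      · refine PRF.zero.congr fun K _ z => ?_
        rw [if_neg h]
    · refine PRQ.eq (PRF.sum Finset.univ (F := fun (k : Fin s) K _
        (z : ((Fin s × Fin s) ⊕ Fin s) ⊕ ((Fin s × Fin s) ⊕ (Fin s × Fin s)) → K) =>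
          ∑ l : Fin s, (z (Sum.inl (Sum.inl (k, l))) +
            z (Sum.inl (Sum.inl (l, k)))) * z (Sum.inr (Sum.inl (k, i))) *
              z (Sum.inr (Sum.inl (l, j)))) fun k _ =>
        PRF.sum Finset.univ (F := fun (l : Fin s) K _
        (z : ((Fin s × Fin s) ⊕ Fin s) ⊕ ((Fin s × Fin s) ⊕ (Fin s × Fin s)) → K) =>
          (z (Sum.inl (Sum.inl (k, l))) +
            z (Sum.inl (Sum.inl (l, k)))) * z (Sum.inr (Sum.inl (k, i))) *
              z (Sum.inr (Sum.inl (l, j)))) fun l _ =>
          (((PRF.var _).add (PRF.var _)).mul (PRF.var _)).mul (PRF.var _)) ?_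
      by_cases h : i = j
      · refine ((PRF.nat 2).mul (PRF.var (Sum.inl (Sum.inr i)))).congr fun K _ z => ?_
        rw [if_pos h, Nat.cast_ofNat]
      · refine PRF.zero.congr fun K _ z => ?_
        rw [if_neg h]
  refine h1.ex.congr fun K _ z => ?_
  constructor
  · rintro ⟨w, hw⟩
    exact ⟨fun i j => w (Sum.inl (i, j)), fun i j => w (Sum.inr (i, j)), hw⟩
  · rintro ⟨M, M', hM⟩
    exact ⟨Sum.elim (fun ij => M ij.1 ij.2) fun ij => M' ij.1 ij.2, hM⟩

/-- the numbers of solutions are those of the diagonal form -/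
private theorem dq_card {s : ℕ} {K : Type} [Field K] [Fintype K] (h2 : (2 : K) ≠ 0)
    {a : Fin s → Fin s → K} {r : Fin s → K} (h : DQ K a r) (u : K) :
    Nat.card {x : Fin s → K // ∑ i, ∑ j, a i j * x i * x j = u} =
      Nat.card {x : Fin s → K // ∑ i, r i * x i ^ 2 = u} := by
  obtain ⟨M, M', hM, hD⟩ := h
  have hM1 : (Matrix.of M) * (Matrix.of M') = 1 := by
    ext i j
    rw [Matrix.mul_apply, Matrix.one_apply]
    exact hM i j
  have hM2 : (Matrix.of M') * (Matrix.of M) = 1 := mul_eq_one_comm.1 hM1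
  symm
  refine Nat.card_congr (Equiv.subtypeEquiv
    ⟨fun x => (Matrix.of M).mulVec x, fun x => (Matrix.of M').mulVec x, fun x => ?_,
      fun x => ?_⟩ fun x => ?_)
  · beta_reduce
    rw [Matrix.mulVec_mulVec, hM2, Matrix.one_mulVec]
  · beta_reduce
    rw [Matrix.mulVec_mulVec, hM1, Matrix.one_mulVec]
  · show _ ↔ ∑ i, ∑ j, a i j * (Matrix.of M).mulVec x i * (Matrix.of M).mulVec x j = u
    have e0 : ∀ k, (Matrix.of M).mulVec x k = ∑ i, M k i * x i := fun k => rfl
    have e1 : (2 : K) * ∑ k, ∑ l, a k l * (Matrix.of M).mulVec x k * (Matrix.of M).mulVec x l =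
        ∑ k, ∑ l, (a k l + a l k) * (Matrix.of M).mulVec x k * (Matrix.of M).mulVec x l := by
      rw [two_mul]
      conv_lhs =>
        enter [2]
        rw [Finset.sum_comm]
      rw [← Finset.sum_add_distrib]
      refine Finset.sum_congr rfl fun k _ => ?_
      rw [← Finset.sum_add_distrib]
      refine Finset.sum_congr rfl fun l _ => ?_
      ring
    have e2 : ∑ k, ∑ l, (a k l + a l k) * (Matrix.of M).mulVec x k * (Matrix.of M).mulVec x l =
        ∑ i, ∑ j, (∑ k, ∑ l, (a k l + a l k) * M k i * M l j) * (x i * x j) := by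
      have e3 : ∀ k l, (a k l + a l k) * (Matrix.of M).mulVec x k * (Matrix.of M).mulVec x l =
          ∑ i, ∑ j, (a k l + a l k) * M k i * M l j * (x i * x j) := by
        intro k l
        rw [e0, e0, mul_assoc, Finset.sum_mul_sum, Finset.mul_sum]
        refine Finset.sum_congr rfl fun i _ => ?_
        rw [Finset.mul_sum]
        refine Finset.sum_congr rfl fun j _ => ?_
        ring
      simp only [e3, Finset.sum_mul]
      calc ∑ k, ∑ l, ∑ i, ∑ j, (a k l + a l k) * M k i * M l j * (x i * x j)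
          = ∑ k, ∑ i, ∑ l, ∑ j, (a k l + a l k) * M k i * M l j * (x i * x j) :=
            Finset.sum_congr rfl fun k _ => Finset.sum_comm
        _ = ∑ i, ∑ k, ∑ l, ∑ j, (a k l + a l k) * M k i * M l j * (x i * x j) :=
            Finset.sum_comm
        _ = ∑ i, ∑ k, ∑ j, ∑ l, (a k l + a l k) * M k i * M l j * (x i * x j) :=
            Finset.sum_congr rfl fun i _ => Finset.sum_congr rfl fun k _ => Finset.sum_comm
        _ = _ := Finset.sum_congr rfl fun i _ => Finset.sum_comm
    have e4 : ∑ k, ∑ l, a k l * (Matrix.of M).mulVec x k * (Matrix.of M).mulVec x l =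
        ∑ i, r i * x i ^ 2 := by
      apply mul_left_cancel₀ h2
      rw [e1, e2, Finset.mul_sum]
      refine Finset.sum_congr rfl fun i _ => ?_
      rw [Finset.sum_eq_single i]
      · rw [hD i i, if_pos rfl]
        ring
      · intro j _ hj
        rw [hD i j, if_neg hj.symm, zero_mul]
      · intro h1
        exact absurd (Finset.mem_univ _) h1
    rw [e4]

/-- the diagonal coefficients -/
private def rd {K : Type} [CommSemiring K] (g : K) (i : Fin 3) : K :=
  if i = 0 then 0 else if i = 1 then 1 else g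

private theorem rd_ex {K : Type} [Field K] {g : K} (hg : Gen 2 g) (b : K) :
    ∃ (i : Fin 3) (y : K), y ≠ 0 ∧ b * y ^ 2 = rd g i := by
  by_cases hb : b = 0
  · exact ⟨0, 1, one_ne_zero, by simp [rd, hb]⟩
  · obtain ⟨k, y, hy⟩ := hg b hb
    have hy0 : y ≠ 0 := by
      rintro rfl
      apply hb
      rw [hy]
      simp
    fin_cases k
    · refine ⟨1, y⁻¹, inv_ne_zero hy0, ?_⟩
      rw [hy]
      simp [rd, hy0]
    · refine ⟨2, y⁻¹, inv_ne_zero hy0, ?_⟩
      rw [hy]
      simp [rd, hy0]

/-- diagonalisation -/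
private theorem dq_ex {s : ℕ} {K : Type} [Field K] (h2 : (2 : K) ≠ 0) {g : K} (hg : Gen 2 g)
    (a : Fin s → Fin s → K) : ∃ θ : Fin s → Fin 3, DQ K a (fun i => rd g (θ i)) := by
  classical
  have : Invertible (2 : K) := invertibleOfNonzero h2
  set B : LinearMap.BilinForm K (Fin s → K) :=
    Matrix.toBilin' (Matrix.of fun i j => a i j + a j i) with hB
  have hBa : ∀ x y : Fin s → K, B x y = ∑ k, ∑ l, (a k l + a l k) * x k * y l := by
    intro x y
    rw [hB, Matrix.toBilin'_apply]
    refine Finset.sum_congr rfl fun k _ => Finset.sum_congr rfl fun l _ => ?_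
    rw [Matrix.of_apply]
    ring
  have hBs : LinearMap.IsSymm B := by
    refine ⟨fun x y => ?_⟩
    rw [RingHom.id_apply, hBa, hBa, Finset.sum_comm]
    refine Finset.sum_congr rfl fun k _ => Finset.sum_congr rfl fun l _ => ?_
    ring
  obtain ⟨v₀, hv₀⟩ := LinearMap.BilinForm.exists_orthogonal_basis hBs
  set v : Module.Basis (Fin s) K (Fin s → K) :=
    v₀.reindex (finCongr (Module.finrank_fin_fun K)) with hv
  have hvo : ∀ i j, i ≠ j → B (v i) (v j) = 0 := by
    intro i j hij
    rw [hv, Module.Basis.reindex_apply, Module.Basis.reindex_apply]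
    refine LinearMap.isOrthoᵢ_def.1 hv₀ _ _ fun h => hij ?_
    exact (finCongr (Module.finrank_fin_fun K)).symm.injective h
  have hr := fun i => rd_ex hg (B (v i) (v i) / 2)
  choose θ y hy hyθ using hr
  refine ⟨θ, ?_⟩
  set w : Module.Basis (Fin s) K (Fin s → K) := v.isUnitSMul fun i => (hy i).isUnit with hw
  have hwi : ∀ i, w i = y i • v i := fun i => by
    rw [hw, Module.Basis.isUnitSMul_apply]
  set b : Module.Basis (Fin s) K (Fin s → K) := Pi.basisFun K (Fin s) with hb
  have hM : b.toMatrix w * w.toMatrix b = 1 := Module.Basis.toMatrix_mul_toMatrix_flip b w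
  have hMw : ∀ k i, b.toMatrix w k i = w i k := by
    intro k i
    rw [Module.Basis.toMatrix_apply, hb, Pi.basisFun_repr]
  refine ⟨fun k i => b.toMatrix w k i, fun k i => w.toMatrix b k i, fun i j => ?_, fun i j => ?_⟩
  · have h1 := congrFun (congrFun hM i) j
    rw [Matrix.mul_apply, Matrix.one_apply] at h1
    exact h1
  · have h1 : ∑ k, ∑ l, (a k l + a l k) * b.toMatrix w k i * b.toMatrix w l j = B (w i) (w j) := by
      rw [hBa]
      refine Finset.sum_congr rfl fun k _ => Finset.sum_congr rfl fun l _ => ?_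
      rw [hMw, hMw]
    rw [h1, hwi, hwi, map_smul, map_smul, LinearMap.smul_apply, smul_eq_mul, smul_eq_mul]
    by_cases hij : i = j
    · subst hij
      rw [if_pos rfl]
      beta_reduce
      rw [← hyθ i]
      field_simp
    · rw [if_neg hij, hvo i j hij, mul_zero, mul_zero]

open scoped Classical in
private theorem sum_fib_Q {X K : Type} [Fintype X] [Fintype K] (f : X → K) (F : K → ℕ) :
    ∑ x : X, F (f x) = ∑ s : K, Nat.card {x : X // f x = s} * F s := by
  have h1 : ∀ x : X, F (f x) = ∑ s : K, if f x = s then F s else 0 := by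
    intro x
    rw [Finset.sum_ite_eq Finset.univ (f x) F, if_pos (Finset.mem_univ _)]
  simp only [h1]
  rw [Finset.sum_comm]
  refine Finset.sum_congr rfl fun s _ => ?_
  rw [← Finset.sum_filter, Finset.sum_const, smul_eq_mul, Nat.card_eq_fintype_card,
    Fintype.card_subtype]

open scoped Classical in
private theorem card_pair_Q {K : Type} [Fintype K] {s s' : ℕ} (f : (Fin s → K) → K)
    (f' : (Fin s' → K) → K) (op : K → K → K) (u : K) :
    Nat.card {x : Fin (s + s') → K // op (f fun i => x (Fin.castAdd s' i))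
      (f' fun i => x (Fin.natAdd s i)) = u} = ∑ a : K, ∑ b : K,
        if op a b = u then Nat.card {x : Fin s → K // f x = a} * Nat.card {x : Fin s' → K // f' x = b}
          else 0 := by
  have e : Nat.card {x : Fin (s + s') → K // op (f fun i => x (Fin.castAdd s' i))
      (f' fun i => x (Fin.natAdd s i)) = u} =
      Nat.card {z : (Fin s → K) × (Fin s' → K) // op (f z.1) (f' z.2) = u} := by
    refine (Nat.card_congr ((Fin.appendEquiv s s').subtypeEquiv fun z => ?_)).symm
    have e1 : (fun i => Fin.appendEquiv s s' z (Fin.castAdd s' i)) = z.1 := by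
      funext i
      simp [Fin.appendEquiv]
    have e2 : (fun i => Fin.appendEquiv s s' z (Fin.natAdd s i)) = z.2 := by
      funext i
      simp [Fin.appendEquiv]
    rw [e1, e2]
  rw [e, Nat.card_eq_fintype_card, Fintype.card_subtype, Finset.card_filter,
    Fintype.sum_prod_type, sum_fib_Q f fun a => ∑ x' : Fin s' → K, if op a (f' x') = u then 1 else 0]
  refine Finset.sum_congr rfl fun a _ => ?_
  rw [sum_fib_Q f' fun b => if op a b = u then 1 else 0, Finset.mul_sum]
  refine Finset.sum_congr rfl fun b _ => ?_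
  by_cases h : op a b = u <;> simp [h]

open scoped Classical in
private theorem card_un_Q {K : Type} [Fintype K] {s : ℕ} (f : (Fin s → K) → K) (op : K → K) (u : K) :
    Nat.card {x : Fin s → K // op (f x) = u} = ∑ a : K,
        if op a = u then Nat.card {x : Fin s → K // f x = a} else 0 := by
  rw [Nat.card_eq_fintype_card, Fintype.card_subtype, Finset.card_filter,
    sum_fib_Q f fun a => if op a = u then 1 else 0]
  refine Finset.sum_congr rfl fun a _ => ?_
  by_cases h : op a = u <;> simp [h]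

/-- the fibres of addition are curves -/
private theorem dm_Q {K : Type} [Field K] (S : Set (Fin 2 → K)) (G : K[X][Y]) (hG : G ≠ 0)
    (h : ∀ z ∈ S, G.evalEval (z 0) (z 1) = 0) : Dm1 S := by
  intro i j hij
  have hi : i = 0 := by
    fin_cases i
    · rfl
    · exfalso
      fin_cases j
      · exact absurd hij (by decide)
      · exact absurd hij (by decide)
  have hj : j = 1 := by
    subst hi
    fin_cases j
    · exact absurd hij (by decide)
    · rfl
  subst hi hj
  exact ⟨G, hG, h⟩

open scoped Classical in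
/-- one more unknown -/
private theorem card_succ_Q {K : Type} [Field K] [Fintype K] {s : ℕ} (r : Fin (s + 1) → K) (u : K) :
    Nat.card {x : Fin (s + 1) → K // ∑ i, r i * x i ^ 2 = u} = ∑ a : K, ∑ b : K,
      if a + b = u then Nat.card {x : Fin s → K // ∑ i, r i.castSucc * x i ^ 2 = a} *
        Nat.card {x : Fin 1 → K // r (Fin.last s) * x 0 ^ 2 = b} else 0 := by
  rw [← card_pair_Q (fun x : Fin s → K => ∑ i, r i.castSucc * x i ^ 2)
    (fun x : Fin 1 → K => r (Fin.last s) * x 0 ^ 2) (fun a b => a + b) u]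
  refine Nat.card_congr (Equiv.subtypeEquivRight fun x => ?_)
  rw [Fin.sum_univ_castSucc]
  rfl

/-- diagonal forms -/
private theorem iw_diag (s : ℕ) : ∀ {q : Fin s → ℕ → (Fin n → ℕ) → ℕ}, (∀ i, DV (q i)) →
    IW (n := n) (fun p _ v _ u =>
      Nat.card {x : Fin s → ZMod p // ∑ i, (q i p v : ZMod p) * x i ^ 2 = u}) := by
  classical
  induction s with
  | zero =>
    intro q _
    refine ⟨1, one_pos, fun p _ v t u y hy => ?_, ?_⟩
    · refine Nat.card_congr (Equiv.subtypeEquivRight fun x => ?_)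
      simp [hy, eq_comm (a := (0 : ZMod p))]
    · have hR : PRQ (fun K _ (x : Fin 2 ⊕ Empty → K) => x (Sum.inl 1) = 0) :=
        PRQ.eq (PRF.var _) PRF.zero
      refine (SM.ind hR (q := fun i : Empty => i.elim) fun i => i.elim).congr fun p _ v x => ?_
      by_cases h : x 1 = 0
      · rw [if_pos (by simpa using h)]
        symm
        rw [Nat.card_eq_one_iff_unique]
        exact ⟨⟨fun a b => Subtype.ext (Subsingleton.elim _ _)⟩, ⟨⟨fun i => i.elim0, by simp [h]⟩⟩⟩
      · rw [if_neg (by simpa using h)]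
        symm
        rw [Nat.card_eq_zero]
        left
        refine ⟨fun a => h ?_⟩
        have h1 := a.2
        simpa using h1.symm
  | succ s ih =>
    intro q hq
    have h1 := ih fun i => hq i.castSucc
    have h2 : IW (n := n) (fun p _ v t u => Nat.card {x : Fin 1 → ZMod p //
        (q (Fin.last s) p v : ZMod p) * x 0 ^ 2 = u}) := by
      have h3 : IW (n := n) (fun p _ v t u => Nat.card {x : Fin 1 → ZMod p // x 0 ^ 2 = u}) := by
        refine (iw_pow (k := 2) ind_var two_pos).congr fun p _ v t u => ?_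
        have h5 := (card_un_Q (K := ZMod p) (fun x : Fin 1 → ZMod p => x 0) (fun a => a ^ 2) u).symm
        refine Eq.trans (Finset.sum_congr rfl fun a _ => ?_) h5
        have h6 : Wn (n := n) (κ := Unit) (fun _ _ _ _ x => x ()) p v t a =
            Nat.card {x : Fin 1 → ZMod p // x 0 = a} := by
          unfold Wn
          exact Nat.card_congr (Equiv.subtypeEquiv (Equiv.arrowCongr (Equiv.ofUnique Unit (Fin 1))
            (Equiv.refl (ZMod p))) fun x => Iff.rfl)
        rw [h6]
        by_cases h7 : a ^ 2 = u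
        · exact (if_pos h7).trans (if_pos h7).symm
        · exact (if_neg h7).trans (if_neg h7).symm
      refine (iw_scale h3 (l := Unit) (c := fun K _ x => x (Sum.inr ())) (PRF.var _)
        (q := fun _ => q (Fin.last s)) fun _ => hq _).congr fun p _ v t u => ?_
      have h5 := (card_un_Q (K := ZMod p) (fun x : Fin 1 → ZMod p => x 0 ^ 2)
        (fun a => (q (Fin.last s) p v : ZMod p) * a) u).symm
      convert h5
      rfl
    have h3 := iw_op h1 h2 (op := fun K _ x => x 0 + x 1) ((PRF.var 0).add (PRF.var 1)) (by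
      intro K _ u
      refine dm_Q _ (X + C (X - C u)) ?_ ?_
      · intro h0
        have h4 := congrArg (fun P : K[X][Y] => P.coeff 1) h0
        simp only [coeff_add, coeff_X_one, coeff_C_succ, add_zero, coeff_zero] at h4
        exact one_ne_zero h4
      · intro z hz
        have hz' : z 0 + z 1 = u := hz
        simp only [evalEval_add, evalEval_X, evalEval_C, eval_sub, eval_X, eval_C]
        rw [← hz']
        ring) 1 1 (by
      intro K _ s s' a
      simp only [Matrix.cons_val_zero, Matrix.cons_val_one, pow_one]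
      ring)
    refine h3.congr fun p _ v t u => ?_
    have h5 := (card_succ_Q (K := ZMod p) (fun i => (q i p v : ZMod p)) u).symm
    convert h5 <;> rfl

/-- the coefficients of the form -/
private abbrev PQ (s d : ℕ) : Type := (Fin s × Fin s × Fin (d + 1)) ⊕ Unit

/-- the coefficients of the form as functions of `t` -/
private def aQ (s d : ℕ) {K : Type} [Field K] (z : Fin 2 ⊕ PQ s d → K) (i j : Fin s) : K :=
  ∑ l : Fin (d + 1), z (Sum.inr (Sum.inl (i, j, l))) * z (Sum.inl 0) ^ (l : ℕ)

private theorem aQ_prf (s d : ℕ) (i j : Fin s) : PRF (fun K _ (z : Fin 2 ⊕ PQ s d → K) =>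
    aQ s d z i j) :=
  PRF.sum Finset.univ (F := fun (l : Fin (d + 1)) K _ (z : Fin 2 ⊕ PQ s d → K) =>
    z (Sum.inr (Sum.inl (i, j, l))) * z (Sum.inl 0) ^ (l : ℕ)) fun _ _ =>
      (PRF.var _).mul ((PRF.var _).pow _)

private theorem rd_prf (i : Fin 3) {ι : Type} {F : FF ι} (hF : PRF F) :
    PRF (fun K _ x => rd (F K x) i) := by
  unfold rd
  by_cases h0 : i = 0
  · refine PRF.zero.congr fun K _ x => ?_
    rw [if_pos h0]
  · by_cases h1 : i = 1
    · refine PRF.one.congr fun K _ x => ?_
      rw [if_neg h0, if_pos h1]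
    · refine hF.congr fun K _ x => ?_
      rw [if_neg h0, if_neg h1]

private theorem rd_dv (i : Fin 3) {g : ℕ → (Fin n → ℕ) → ℕ} (hg : DV g) :
    DV (fun p v => rd (g p v) i) := by
  unfold rd
  by_cases h0 : i = 0
  · simp only [if_pos h0]
    exact DV.const 0
  · by_cases h1 : i = 1
    · simp only [if_neg h0, if_pos h1]
      exact DV.const 1
    · simp only [if_neg h0, if_neg h1]
      exact hg

private theorem rd_cast (i : Fin 3) (K : Type) [CommSemiring K] (g : ℕ) :
    ((rd g i : ℕ) : K) = rd (g : K) i := by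
  unfold rd
  by_cases h0 : i = 0
  · simp [h0]
  · by_cases h1 : i = 1
    · simp [h1]
    · simp [h0, h1]

/-- the field with two elements -/
private def eQ : Bool ≃ ZMod 2 :=
  ⟨fun b => if b then 1 else 0, fun a => decide (a = 1), by decide, by decide⟩

private theorem eQ_apply (b : Bool) : eQ b = if b then 1 else 0 := rfl

/-- the relation `DQ` for the diagonal form `θ` -/
private def RQ (s d : ℕ) (θ : Fin s → Fin 3) : FR (Fin 2 ⊕ PQ s d) := fun K _ z =>
  DQ K (aQ s d z) (fun i => rd (z (Sum.inr (Sum.inr ()))) (θ i))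

private theorem rq_prq (s d : ℕ) (θ : Fin s → Fin 3) : PRQ (RQ s d θ) := by
  refine ((dq_prq s).comp (κ := Fin 2 ⊕ PQ s d) (G := Sum.elim
    (fun ij K _ z => aQ s d z ij.1 ij.2)
    (fun i K _ z => rd (z (Sum.inr (Sum.inr ()))) (θ i))) ?_).congr fun K _ z => Iff.rfl
  rintro (ij | i)
  · exact aQ_prf s d ij.1 ij.2
  · exact rd_prf _ (PRF.var _)

theorem ind_quad {n : ℕ} (s d : ℕ) (c : Fin s → Fin s → Fin (d + 1) → (Fin n → ℕ) → ℕ)
    (hc : ∀ i j l, DFun n (c i j l)) :
    Ind (n := n) (κ := Fin s) (fun v _ _ t x => ∑ i, ∑ j, cf (c i j) v t * x i * x j) := by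
  classical
  refine ⟨2, two_pos, fun p _ v t u y hy => ?_, ?_⟩
  · unfold Wn
    symm
    refine Nat.card_congr (Equiv.subtypeEquiv (Equiv.piCongrRight fun i : Fin s =>
      Equiv.mulRight₀ y hy) fun x => ?_)
    have h3 : ∑ i, ∑ j, cf (c i j) v t * (x i * y) * (x j * y) =
        (∑ i, ∑ j, cf (c i j) v t * x i * x j) * y ^ 2 := by
      rw [Finset.sum_mul]
      refine Finset.sum_congr rfl fun i _ => ?_
      rw [Finset.sum_mul]
      refine Finset.sum_congr rfl fun j _ => ?_
      ring
    change _ ↔ ∑ i, ∑ j, cf (c i j) v t * (x i * y) * (x j * y) = u * y ^ 2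
    rw [h3]
    exact (mul_left_inj' (pow_ne_zero 2 hy)).symm
  obtain ⟨g, hg, hG⟩ := gen_def 2 two_pos
  have hgv : DV (n := n) (fun p _ => g p) := DV.one hg
  set q : PQ s d → ℕ → (Fin n → ℕ) → ℕ := Sum.elim (fun ijl _ v => c ijl.1 ijl.2.1 ijl.2.2 v)
    (fun _ p _ => g p) with hqd
  have hq : ∀ i, DV (q i) := by
    rintro (ijl | _)
    · exact DV.par (hc _ _ _)
    · exact hgv
  set W : WT n := Wn (n := n) (κ := Fin s) (fun v _ _ t x => ∑ i, ∑ j, cf (c i j) v t * x i * x j)
    with hW
  -- the coefficients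
  have haQ : ∀ (p : ℕ) [Fact p.Prime] (v : Fin n → ℕ) (x : Fin 2 → ZMod p),
      aQ s d (Sum.elim x fun i => (q i p v : ZMod p)) = fun i j => cf (c i j) v (x 0) := by
    intro p _ v x
    rfl
  -- lists of diagonal forms
  have hL : ∀ L : List (Fin s → Fin 3), ∃ w : WF n (Fin 2), SM w ∧ ∀ (p : ℕ) [Fact p.Prime]
      (v : Fin n → ℕ) (x : Fin 2 → ZMod p), (2 : ZMod p) ≠ 0 →
        (∃ θ ∈ L, RQ s d θ (ZMod p) (Sum.elim x fun i => (q i p v : ZMod p))) →
        w p v x = W p v (x 0) (x 1) := by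
    intro L
    induction L with
    | nil =>
      refine ⟨fun _ _ _ _ => 0, SM.const (DV.const 0), fun p _ v x _ h => ?_⟩
      obtain ⟨θ, h1, -⟩ := h
      exact absurd h1 List.not_mem_nil
    | cons θ L ih =>
      obtain ⟨w, hw, hw'⟩ := ih
      obtain ⟨N, hN, hC, hS⟩ := iw_diag (n := n) s (q := fun i p v => rd (g p) (θ i))
        fun i => rd_dv (θ i) hgv
      refine ⟨_, SM.ite (rq_prq s d θ) hq hS hw, fun p _ v x h2 h => ?_⟩
      beta_reduce
      by_cases h1 : RQ s d θ (ZMod p) (Sum.elim x fun i => (q i p v : ZMod p))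
      · rw [if_pos h1]
        have h3 : DQ (ZMod p) (fun i j => cf (c i j) v (x 0))
            (fun i => rd (g p : ZMod p) (θ i)) := h1
        have h4 := dq_card h2 h3 (x 1)
        simp only [rd_cast]
        exact h4.symm
      · rw [if_neg h1]
        refine hw' p v x h2 ?_
        obtain ⟨θ', h5, h6⟩ := h
        rcases List.mem_cons.1 h5 with rfl | h5
        · exact absurd h6 h1
        · exact ⟨θ', h5, h6⟩
  obtain ⟨w, hw, hw'⟩ := hL Finset.univ.toList
  -- characteristic two
  have hE : ∀ ε : Fin s → Bool, PRQ (fun K _ (z : Fin 2 ⊕ PQ s d → K) =>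
      (∑ i, ∑ j, aQ s d z i j * (if ε i then 1 else 0) * (if ε j then 1 else 0)) =
        z (Sum.inl 1)) := by
    intro ε
    have hb : ∀ b : Bool, PRF (ι := Fin 2 ⊕ PQ s d) (fun K _ _ => if b then 1 else 0) := by
      intro b
      cases b
      · exact PRF.zero.congr fun K _ z => by simp
      · exact PRF.one.congr fun K _ z => by simp
    refine PRQ.eq (PRF.sum Finset.univ (F := fun (i : Fin s) K _ (z : Fin 2 ⊕ PQ s d → K) =>
      ∑ j, aQ s d z i j * (if ε i then 1 else 0) * (if ε j then 1 else 0)) fun i _ =>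
        PRF.sum Finset.univ (F := fun (j : Fin s) K _ (z : Fin 2 ⊕ PQ s d → K) =>
          aQ s d z i j * (if ε i then 1 else 0) * (if ε j then 1 else 0)) fun j _ =>
            ((aQ_prf s d i j).mul (hb _)).mul (hb _)) (PRF.var _)
  have h2 : PRQ (fun K _ (_ : Fin 2 ⊕ PQ s d → K) => (2 : K) = 0) :=
    (PRQ.eq (PRF.nat 2) PRF.zero).congr fun K _ z => by rw [Nat.cast_ofNat]
  refine (SM.ite h2 hq (SM.sum Finset.univ fun ε : Fin s → Bool => SM.ind (hE ε) hq) hw).congr
    fun p _ v x => ?_
  by_cases h : (2 : ZMod p) = 0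
  · rw [if_pos h]
    have hp : p = 2 := by
      have h3 : ((2 : ℕ) : ZMod p) = 0 := by exact_mod_cast h
      rw [ZMod.natCast_eq_zero_iff] at h3
      exact (Nat.prime_dvd_prime_iff_eq Fact.out Nat.prime_two).1 h3
    subst hp
    have h7 : W 2 v (x 0) (x 1) = ∑ z : Fin s → ZMod 2,
        if (∑ i, ∑ j, cf (c i j) v (x 0) * z i * z j) = x 1 then 1 else 0 := by
      rw [hW]
      unfold Wn
      rw [Nat.card_eq_fintype_card, Fintype.card_subtype, Finset.card_filter]
    rw [h7]
    refine Fintype.sum_equiv (Equiv.arrowCongr (Equiv.refl (Fin s)) eQ) _ _ fun ε => ?_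
    by_cases h9 : (∑ i, ∑ j, cf (c i j) v (x 0) * (Equiv.arrowCongr (Equiv.refl (Fin s)) eQ ε) i *
        (Equiv.arrowCongr (Equiv.refl (Fin s)) eQ ε) j) = x 1
    · exact (if_pos h9).trans (if_pos h9).symm
    · exact (if_neg h9).trans (if_neg h9).symm
  · rw [if_neg h]
    refine hw' p v x h ?_
    obtain ⟨θ, hθ⟩ := dq_ex h (hG p) (fun i j => cf (c i j) v (x 0))
    exact ⟨θ, Finset.mem_toList.2 (Finset.mem_univ _), hθ⟩

/-- the relation `DQ` for the diagonal form `θ`, all coefficients variables -/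
private def RS (s : ℕ) (θ : Fin s → Fin 3) : FR (((Fin s × Fin s) ⊕ Unit) ⊕ Unit) := fun K _ z =>
  DQ K (fun i j => z (Sum.inl (Sum.inl (i, j)))) (fun i => rd (z (Sum.inr ())) (θ i))

private theorem rs_prq (s : ℕ) (θ : Fin s → Fin 3) : PRQ (RS s θ) := by
  refine ((dq_prq s).comp (κ := ((Fin s × Fin s) ⊕ Unit) ⊕ Unit) (G := Sum.elim
    (fun ij K _ z => z (Sum.inl (Sum.inl ij)))
    (fun i K _ z => rd (z (Sum.inr ())) (θ i))) ?_).congr fun K _ z => Iff.rfl
  rintro (ij | i)
  · exact PRF.var _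
  · exact rd_prf _ (PRF.var _)

/-- the number of solutions of `∑ a i j * y i * y j = u` as a function of all `a i j` and `u` -/
theorem quad_sm (n s : ℕ) : SM (n := n) (κ := (Fin s × Fin s) ⊕ Unit) (fun p _ _ x =>
    Nat.card {y : Fin s → ZMod p //
      ∑ i, ∑ j, x (Sum.inl (i, j)) * y i * y j = x (Sum.inr ())}) := by
  classical
  obtain ⟨g, hg, hG⟩ := gen_def 2 two_pos
  have hgv : DV (n := n) (fun p _ => g p) := DV.one hg
  have hq : ∀ i : Unit, DV (n := n) ((fun _ p _ => g p : Unit → ℕ → (Fin n → ℕ) → ℕ) i) :=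
    fun _ => hgv
  -- lists of diagonal forms
  have hL : ∀ L : List (Fin s → Fin 3), ∃ w : WF n ((Fin s × Fin s) ⊕ Unit), SM w ∧
      ∀ (p : ℕ) [Fact p.Prime] (v : Fin n → ℕ) (x : (Fin s × Fin s) ⊕ Unit → ZMod p),
        (2 : ZMod p) ≠ 0 →
        (∃ θ ∈ L, RS s θ (ZMod p) (Sum.elim x fun _ => (g p : ZMod p))) →
        w p v x = Nat.card {y : Fin s → ZMod p //
          ∑ i, ∑ j, x (Sum.inl (i, j)) * y i * y j = x (Sum.inr ())} := by
    intro L
    induction L with
    | nil =>
      refine ⟨fun _ _ _ _ => 0, SM.const (DV.const 0), fun p _ v x _ h => ?_⟩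
      obtain ⟨θ, h1, -⟩ := h
      exact absurd h1 List.not_mem_nil
    | cons θ L ih =>
      obtain ⟨w, hw, hw'⟩ := ih
      obtain ⟨N, hN, hC, hS⟩ := iw_diag (n := n) s (q := fun i p v => rd (g p) (θ i))
        fun i => rd_dv (θ i) hgv
      have hS' : SM (n := n) (κ := (Fin s × Fin s) ⊕ Unit) (fun p _ _ x =>
          Nat.card {y : Fin s → ZMod p //
            ∑ i, ((rd (g p) (θ i) : ℕ) : ZMod p) * y i ^ 2 = x (Sum.inr ())}) := by
        refine (hS.comp (κ' := (Fin s × Fin s) ⊕ Unit) (l := Empty) (q := fun i => i.elim)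
          (G := ![fun K _ _ => 0, fun K _ x => x (Sum.inl (Sum.inr ()))]) (fun j => ?_)
          fun i => i.elim).congr fun p _ v x => rfl
        fin_cases j
        · exact PRF.zero
        · exact PRF.var _
      refine ⟨_, SM.ite (rs_prq s θ) hq hS' hw, fun p _ v x h2 h => ?_⟩
      by_cases h1 : RS s θ (ZMod p) (Sum.elim x fun _ => (g p : ZMod p))
      · rw [if_pos h1]
        have h3 : DQ (ZMod p) (fun i j => x (Sum.inl (i, j)))
            (fun i => rd (g p : ZMod p) (θ i)) := h1
        have h4 := dq_card h2 h3 (x (Sum.inr ()))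
        simp only [rd_cast]
        exact h4.symm
      · rw [if_neg h1]
        refine hw' p v x h2 ?_
        obtain ⟨θ', h5, h6⟩ := h
        rcases List.mem_cons.1 h5 with rfl | h5
        · exact absurd h6 h1
        · exact ⟨θ', h5, h6⟩
  obtain ⟨w, hw, hw'⟩ := hL Finset.univ.toList
  -- characteristic two
  have hE : ∀ ε : Fin s → Bool, PRQ (fun K _ (z : ((Fin s × Fin s) ⊕ Unit) ⊕ Unit → K) =>
      (∑ i, ∑ j, z (Sum.inl (Sum.inl (i, j))) * (if ε i then 1 else 0) *
        (if ε j then 1 else 0)) = z (Sum.inl (Sum.inr ()))) := by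
    intro ε
    have hb : ∀ b : Bool, PRF (ι := ((Fin s × Fin s) ⊕ Unit) ⊕ Unit)
        (fun K _ _ => if b then 1 else 0) := by
      intro b
      cases b
      · exact PRF.zero.congr fun K _ z => by simp
      · exact PRF.one.congr fun K _ z => by simp
    refine PRQ.eq (PRF.sum Finset.univ (F := fun (i : Fin s) K _
      (z : ((Fin s × Fin s) ⊕ Unit) ⊕ Unit → K) => ∑ j, z (Sum.inl (Sum.inl (i, j))) *
        (if ε i then 1 else 0) * (if ε j then 1 else 0)) fun i _ =>
        PRF.sum Finset.univ (F := fun (j : Fin s) K _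
          (z : ((Fin s × Fin s) ⊕ Unit) ⊕ Unit → K) => z (Sum.inl (Sum.inl (i, j))) *
          (if ε i then 1 else 0) * (if ε j then 1 else 0)) fun j _ =>
            ((PRF.var _).mul (hb _)).mul (hb _)) (PRF.var _)
  have h2 : PRQ (fun K _ (_ : ((Fin s × Fin s) ⊕ Unit) ⊕ Unit → K) => (2 : K) = 0) :=
    (PRQ.eq (PRF.nat 2) PRF.zero).congr fun K _ z => by rw [Nat.cast_ofNat]
  refine (SM.ite h2 hq (SM.sum Finset.univ fun ε : Fin s → Bool => SM.ind (hE ε) hq) hw).congr
    fun p _ v x => ?_
  by_cases h : (2 : ZMod p) = 0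
  · rw [if_pos h]
    have hp : p = 2 := by
      have h3 : ((2 : ℕ) : ZMod p) = 0 := by exact_mod_cast h
      rw [ZMod.natCast_eq_zero_iff] at h3
      exact (Nat.prime_dvd_prime_iff_eq Fact.out Nat.prime_two).1 h3
    subst hp
    rw [Nat.card_eq_fintype_card, Fintype.card_subtype, Finset.card_filter]
    refine Fintype.sum_equiv (Equiv.arrowCongr (Equiv.refl (Fin s)) eQ) _ _ fun ε => ?_
    by_cases h9 : (∑ i, ∑ j, x (Sum.inl (i, j)) *
        (Equiv.arrowCongr (Equiv.refl (Fin s)) eQ ε) i *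
        (Equiv.arrowCongr (Equiv.refl (Fin s)) eQ ε) j) = x (Sum.inr ())
    · exact (if_pos h9).trans (if_pos h9).symm
    · exact (if_neg h9).trans (if_neg h9).symm
  · rw [if_neg h]
    refine hw' p v x h ?_
    obtain ⟨θ, hθ⟩ := dq_ex h (hG p) (fun i j => x (Sum.inl (i, j)))
    exact ⟨θ, Finset.mem_toList.2 (Finset.mem_univ _), hθ⟩

end Pool.Agent.IsoC
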