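import Pool.Agent.IsoC.Form
import Pool.Agent.IsoC.Quad
import Pool.Agent.IsoC.Ind

/-!
# Blocks: an unknown, quadratic forms, quasi-homogeneous polynomials in two unknowns

`Blk n s H`: `H` is the unknown `x 0` (`s = 1`), a quadratic form in `s` unknowns, or a quasi-homogeneous
polynomial of positive degree in two unknowns (`s = 2`), with coefficients in `DFun n`. `blk_ind`: the
statement `Ind` for blocks; `blk_hom`: compatibility with ring homomorphisms.
-/

set_option autoImplicit false

noncomputable section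

namespace Pool.Agent.IsoC

open Finset Polynomial Pool.Agent.PRc Pool.Agent.Grz Pool.Agent.CvS

variable {n : ℕ}

/-- families of polynomials in `s` unknowns -/
abbrev Pol (n s : ℕ) : Type 1 := (Fin n → ℕ) → ∀ (R : Type) [CommRing R], (Fin s → R) → R

/-- blocks -/
inductive Blk (n : ℕ) : (s : ℕ) → Pol n s → Prop
  | var : Blk n 1 (fun _ _ _ x => x 0)
  | quad (s : ℕ) (c : Fin s → Fin s → (Fin n → ℕ) → ℕ) (hc : ∀ i j, DFun n (c i j)) :
      Blk n s (fun v R _ x => ∑ i, ∑ j, (c i j v : R) * x i * x j)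
  | form (w₁ w₂ e : ℕ) (h₁ : 0 < w₁) (h₂ : 0 < w₂) (he : 0 < e)
      (c : Fin (e + 1) → Fin (e + 1) → (Fin n → ℕ) → ℕ) (hc : ∀ i j, DFun n (c i j)) :
      Blk n 2 (fun v R _ x => ∑ i : Fin (e + 1), ∑ j : Fin (e + 1),
        if w₁ * i + w₂ * j = e then (c i j v : R) * x 0 ^ (i : ℕ) * x 1 ^ (j : ℕ) else 0)

theorem ind_congr {κ κ' : Type} {E : Fam n κ} {E' : Fam n κ'} (h : Ind E)
    (e : ∀ (p : ℕ) [Fact p.Prime] (v : Fin n → ℕ) (t u : ZMod p), Wn E p v t u = Wn E' p v t u) :
    Ind E' := by
  have h1 : IW (fun p _ v t u => Wn E p v t u) := h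
  exact IW.congr h1 e

theorem blk_ind {s : ℕ} {H : Pol n s} (h : Blk n s H) :
    Ind (n := n) (κ := Fin s) (fun v R _ _ x => H v R x) := by
  cases h with
  | var =>
    refine ind_congr ind_var fun p _ v t u => ?_
    unfold Wn
    refine Nat.card_congr
      { toFun := fun x => ⟨fun _ => x.1 (), x.2⟩
        invFun := fun x => ⟨fun _ => x.1 0, x.2⟩
        left_inv := fun x => rfl
        right_inv := fun x => ?_ }
    apply Subtype.ext
    funext i
    have hi : i = 0 := Subsingleton.elim _ _
    subst hi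
    rfl
  | quad s c hc =>
    have h1 := ind_quad s 0 (fun i j _ => c i j) (fun i j _ => hc i j)
    refine ind_congr h1 fun p _ v t u => ?_
    unfold Wn
    refine Nat.card_congr (Equiv.subtypeEquivRight fun x => ?_)
    have e : ∀ i j, cf (d := 0) (fun _ => c i j) v t = (c i j v : ZMod p) := by
      intro i j
      unfold cf
      rw [Fin.sum_univ_succ]
      simp
    simp only [e]
  | form w₁ w₂ e h₁ h₂ he c hc => exact ind_form w₁ w₂ e h₁ h₂ he c hc

theorem blk_hom {s : ℕ} {H : Pol n s} (h : Blk n s H) (v : Fin n → ℕ) {R S : Type} [CommRing R]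
    [CommRing S] (f : R →+* S) (x : Fin s → R) : f (H v R x) = H v S (fun i => f (x i)) := by
  cases h with
  | var => rfl
  | quad s c hc => simp only [map_sum, map_mul, map_natCast]
  | form w₁ w₂ e h₁ h₂ he c hc =>
    simp only [map_sum, apply_ite f, map_mul, map_pow, map_natCast, map_zero]

end Pool.Agent.IsoC
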