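import Pool.Agent.IsoC.Ind

/-!
# The parameter as an unknown

`iw_bundle`: sums over `t`; `ind_bundle`: if `Ind` holds for `E(t; x)`, then also for `E` as a family in the unknowns
`t`, `x`.
-/

set_option autoImplicit false

noncomputable section

namespace Pool.Agent.IsoC

open Finset Polynomial Pool.Agent.PRc Pool.Agent.Grz Pool.Agent.CvS

variable {n : ℕ}

theorem iw_bundle {W : WT n} (h : IW W) : IW (fun p _ v _ u => ∑ t : ZMod p, W p v t u) := by
  obtain ⟨N, hN, hC, hS⟩ := h
  obtain ⟨g, hg, hG⟩ := gen_def N hN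
  have hCC : ∀ (p : ℕ) [Fact p.Prime] (v : Fin n → ℕ) (t : ZMod p),
      CC N (fun u => ∑ t : ZMod p, W p v t u) := by
    intro p _ v _ u y hy
    exact Finset.sum_congr rfl fun t _ => hC p v t u y hy
  refine ⟨N, hN, hCC, sm_of_rep hN hCC hg hG fun i => ?_⟩
  obtain ⟨f, hf, h1⟩ := SM.card (sm_rep hS i (DV.one hg) (0 : Fin 1))
  exact (SM.const hf).congr fun p _ v x => h1 p v

theorem ind_bundle {κ : Type} [Finite κ] {E : Fam n κ} (h : Ind E) :
    Ind (n := n) (κ := Option κ) (fun v R _ _ x => E v R (x none) fun i => x (some i)) := by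
  have h1 : IW (fun p _ v _ u => ∑ t : ZMod p, Wn E p v t u) := iw_bundle h
  refine IW.congr h1 fun p _ v t u => ?_
  unfold Wn
  rw [← Nat.card_sigma]
  refine Nat.card_congr ?_
  exact
    { toFun := fun w => ⟨fun i => i.elim w.1 w.2.1, w.2.2⟩
      invFun := fun x => ⟨x.1 none, fun i => x.1 (some i), x.2⟩
      left_inv := fun w => rfl
      right_inv := fun x => by
        apply Subtype.ext
        funext i
        cases i <;> rfl }

end Pool.Agent.IsoC
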