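import Pool.Agent.IsoC.Sm
import Pool.Agent.IsoC.Gen

/-!
# Closure of the statement `Ind`

`IW W`: the same statement for an arbitrary family of functions `W p v t u`; `iw_op`: sums and products; `iw_pow`,
`iw_scale`. Then sums and products in disjoint unknowns, powers, multiplication by polynomials in `t`.
-/

set_option autoImplicit false

noncomputable section

namespace Pool.Agent.IsoC

open Finset Polynomial Pool.Agent.PRc Pool.Agent.Grz Pool.Agent.CvS

variable {n : ℕ}

/-- families of functions of `t` and `u` -/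
abbrev WT (n : ℕ) : Type := ∀ (p : ℕ) [Fact p.Prime], (Fin n → ℕ) → ZMod p → ZMod p → ℕ

/-- the statement proved by induction, for functions -/
def IW (W : WT n) : Prop :=
  ∃ N : ℕ, 0 < N ∧ (∀ (p : ℕ) [Fact p.Prime] (v : Fin n → ℕ) (t : ZMod p), CC N (W p v t)) ∧
    SM (κ := Fin 2) (fun p _ v x => W p v (x 0) (x 1))

theorem IW.congr {W W' : WT n} (h : IW W) (e : ∀ (p : ℕ) [Fact p.Prime] (v : Fin n → ℕ)
    (t u : ZMod p), W p v t u = W' p v t u) : IW W' := by
  have e : W = W' := by
    funext p _ v t u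
    exact e p v t u
  rwa [← e]

theorem cc_mono {K : Type} [Field K] {N N' : ℕ} {u : K → ℕ} (h : CC N u) (hN : N ∣ N') : CC N' u := by
  obtain ⟨k, rfl⟩ := hN
  intro s y hy
  have h1 := h s (y ^ k) (pow_ne_zero k hy)
  rwa [← pow_mul, mul_comm k N] at h1

/-- the representative as a piecewise rational function -/
theorem rp_prf {N : ℕ} (i : Fin (N + 1)) {ι : Type} {F : FF ι} (hF : PRF F) :
    PRF (fun K _ x => rp i (F K x)) := by
  refine Fin.cases ?_ (fun j => ?_) i
  · exact PRF.zero
  · exact hF.pow j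

theorem rp_cast {N : ℕ} (i : Fin (N + 1)) (K : Type) [CommSemiring K] (g : ℕ) :
    ((rp i g : ℕ) : K) = rp i (g : K) := by
  refine Fin.cases ?_ (fun j => ?_) i
  · simp [rp]
  · simp [rp]

theorem rp_dv {N : ℕ} (i : Fin (N + 1)) {g : ℕ → (Fin n → ℕ) → ℕ} (hg : DV g) :
    DV (fun p v => rp i (g p v)) := by
  refine Fin.cases ?_ (fun j => ?_) i
  · exact DV.const 0
  · exact hg.pow j

/-- the value at a representative, as a function of `t` -/
theorem sm_rep {W : WT n} (h : SM (κ := Fin 2) (fun p _ v x => W p v (x 0) (x 1))) {N : ℕ}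
    (i : Fin (N + 1)) {g : ℕ → (Fin n → ℕ) → ℕ} (hg : DV g) {κ : Type} (t : κ) :
    SM (κ := κ) (fun p _ v x => W p v (x t) (rp i (g p v : ZMod p))) := by
  refine (h.comp (κ' := κ) (l := Unit) (q := fun _ => g)
    (G := ![fun K _ x => x (Sum.inl t), fun K _ x => rp i (x (Sum.inr ()))]) (fun j => ?_)
    fun _ => hg).congr fun p _ v x => ?_
  · fin_cases j
    · exact PRF.var _
    · exact rp_prf i (PRF.var _)
  · simp

/-- a family constant on the classes is simple if its values at the representatives are simple in `t` -/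
theorem sm_of_rep {W : WT n} {N : ℕ} (hN : 0 < N)
    (hC : ∀ (p : ℕ) [Fact p.Prime] (v : Fin n → ℕ) (t : ZMod p), CC N (W p v t)) {g : ℕ → ℕ}
    (hg : DFun 1 (fun w => g (w 0))) (hG : ∀ (p : ℕ) [Fact p.Prime], Gen N (g p : ZMod p))
    (h : ∀ i : Fin (N + 1), SM (κ := Fin 2)
      (fun p _ v x => W p v (x 0) (rp i (g p : ZMod p)))) :
    SM (κ := Fin 2) (fun p _ v x => W p v (x 0) (x 1)) := by
  classical
  have h1 : ∀ i : Fin (N + 1), PRQ (fun K _ (x : Fin 2 ⊕ Unit → K) =>
      Cl N i K ![x (Sum.inl 1), x (Sum.inr ())]) := by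
    intro i
    refine ((cl_prq N i).comp (G := ![fun K _ (x : Fin 2 ⊕ Unit → K) => x (Sum.inl 1),
      fun K _ (x : Fin 2 ⊕ Unit → K) => x (Sum.inr ())]) (fun j => ?_)).congr fun K _ x => ?_
    · fin_cases j
      · exact PRF.var _
      · exact PRF.var _
    · refine iff_of_eq (congrArg (Cl N i K) ?_)
      funext j
      fin_cases j <;> rfl
  refine (SM.sum Finset.univ fun i => SM.ite (h1 i) (q := fun _ : Unit => fun p _ => g p)
    (fun _ => DV.one hg) (h i) (SM.const (DV.const 0))).congr fun p _ v x => ?_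
  exact (cc_sum hN (hG p) (hC p v (x 0)) (x 1)).symm

open scoped Classical in
private theorem card2_C {K : Type} [Field K] [Fintype K] (P : K → K → Prop) :
    Nat.card {z : Fin 2 → K // P (z 0) (z 1)} = ∑ s : K, ∑ s' : K, if P s s' then 1 else 0 := by
  have e : Nat.card {z : Fin 2 → K // P (z 0) (z 1)} = Nat.card {z : K × K // P z.1 z.2} :=
    Nat.card_congr ((finTwoArrowEquiv K).subtypeEquiv fun z => Iff.rfl)
  rw [e, Nat.card_eq_fintype_card, Fintype.card_subtype, Finset.card_filter,
    Fintype.sum_prod_type]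

open scoped Classical in
private theorem expand_C {K : Type} [Field K] [Fintype K] {N : ℕ} (hN : 0 < N) {g : K}
    (hg : Gen N g) {u u' : K → ℕ} (hu : CC N u) (hu' : CC N u') (Q : K → K → Prop) :
    ∑ s : K, ∑ s' : K, (if Q s s' then u s * u' s' else 0) =
      ∑ j : Fin (N + 1), ∑ j' : Fin (N + 1), u (rp j g) * u' (rp j' g) *
        Nat.card {z : Fin 2 → K // Q (z 0) (z 1) ∧ (Cl N j K ![z 0, g] ∧ Cl N j' K ![z 1, g])} := by
  have h1 : ∀ s s' : K, (if Q s s' then u s * u' s' else 0) =
      ∑ j : Fin (N + 1), ∑ j' : Fin (N + 1), u (rp j g) * u' (rp j' g) *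
        (if Q s s' ∧ (Cl N j K ![s, g] ∧ Cl N j' K ![s', g]) then 1 else 0) := by
    intro s s'
    by_cases h : Q s s'
    · rw [if_pos h, cc_sum hN hg hu s, cc_sum hN hg hu' s', Finset.sum_mul_sum]
      refine Finset.sum_congr rfl fun j _ => Finset.sum_congr rfl fun j' _ => ?_
      by_cases h2 : Cl N j K ![s, g] <;> by_cases h3 : Cl N j' K ![s', g] <;> simp [h, h2, h3]
    · rw [if_neg h]
      symm
      refine Finset.sum_eq_zero fun j _ => Finset.sum_eq_zero fun j' _ => ?_
      simp [h]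
  simp only [h1]
  have h2 : ∀ j j' : Fin (N + 1), Nat.card {z : Fin 2 → K // Q (z 0) (z 1) ∧
      (Cl N j K ![z 0, g] ∧ Cl N j' K ![z 1, g])} = ∑ s : K, ∑ s' : K,
        if Q s s' ∧ (Cl N j K ![s, g] ∧ Cl N j' K ![s', g]) then 1 else 0 := fun j j' => by
    have h3 := card2_C fun s s' => Q s s' ∧ (Cl N j K ![s, g] ∧ Cl N j' K ![s', g])
    convert h3
  simp only [h2, Finset.mul_sum]
  conv_lhs => enter [2, s]; rw [Finset.sum_comm]
  rw [Finset.sum_comm]
  refine Finset.sum_congr rfl fun j _ => ?_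
  conv_lhs => enter [2, s]; rw [Finset.sum_comm]
  rw [Finset.sum_comm]

/-- sums over pairs with a condition on a binary operation compatible with the multiplication by powers -/
theorem iw_op {W W' : WT n} (h : IW W) (h' : IW W') {op : FF (Fin 2)} (hop : PRF op)
    (hd : ∀ (K : Type) [Field K] (u : K), Dm1 {z : Fin 2 → K | op K z = u}) (e e' : ℕ)
    (hs : ∀ (K : Type) [Field K] (s s' a : K),
      op K ![s * a ^ e, s' * a ^ e'] = op K ![s, s'] * a) :
    IW (fun p _ v t u => ∑ s : ZMod p, ∑ s' : ZMod p,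
      if op (ZMod p) ![s, s'] = u then W p v t s * W' p v t s' else 0) := by
  classical
  obtain ⟨N₁, hN₁, hC₁, hS₁⟩ := h
  obtain ⟨N₂, hN₂, hC₂, hS₂⟩ := h'
  obtain ⟨N, hN, hC, hC'⟩ : ∃ N, 0 < N ∧ (∀ (p : ℕ) [Fact p.Prime] (v : Fin n → ℕ) (t : ZMod p),
      CC N (W p v t)) ∧ ∀ (p : ℕ) [Fact p.Prime] (v : Fin n → ℕ) (t : ZMod p), CC N (W' p v t) :=
    ⟨N₁ * N₂, Nat.mul_pos hN₁ hN₂, fun p _ v t => cc_mono (hC₁ p v t) (dvd_mul_right _ _),
      fun p _ v t => cc_mono (hC₂ p v t) (dvd_mul_left _ _)⟩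
  obtain ⟨g, hg, hG⟩ := gen_def N hN
  have hCC : ∀ (p : ℕ) [Fact p.Prime] (v : Fin n → ℕ) (t : ZMod p), CC N (fun u =>
      ∑ s : ZMod p, ∑ s' : ZMod p,
        if op (ZMod p) ![s, s'] = u then W p v t s * W' p v t s' else 0) := by
    intro p _ v t u y hy
    have ha : y ^ N ≠ 0 := pow_ne_zero N hy
    have hb : ∀ (k : ℕ) (f : ZMod p → ℕ), ∑ s : ZMod p, f s = ∑ s : ZMod p, f (s * (y ^ N) ^ k) := by
      intro k f
      exact (Equiv.sum_comp (Equiv.mulRight₀ ((y ^ N) ^ k) (pow_ne_zero k ha)) f).symm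
    have hW : ∀ (k : ℕ) (s : ZMod p), W p v t (s * (y ^ N) ^ k) = W p v t s := by
      intro k s
      have h1 := hC p v t s (y ^ k) (pow_ne_zero k hy)
      rwa [← pow_mul, mul_comm k N, pow_mul] at h1
    have hW' : ∀ (k : ℕ) (s : ZMod p), W' p v t (s * (y ^ N) ^ k) = W' p v t s := by
      intro k s
      have h1 := hC' p v t s (y ^ k) (pow_ne_zero k hy)
      rwa [← pow_mul, mul_comm k N, pow_mul] at h1
    beta_reduce
    rw [hb e]
    refine Finset.sum_congr rfl fun s _ => ?_
    rw [hb e']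
    refine Finset.sum_congr rfl fun s' _ => ?_
    rw [hs, hW, hW']
    refine if_congr ?_ rfl rfl
    exact mul_left_inj' ha
  refine ⟨N, hN, hCC, sm_of_rep hN hCC hg hG fun i => ?_⟩
  have hB : ∀ j j' : Fin (N + 1), ∃ f : ℕ → (Fin n → ℕ) → ℕ, DV f ∧ ∀ (p : ℕ) [Fact p.Prime]
      (v : Fin n → ℕ), f p v = Nat.card {z : Fin 2 → ZMod p //
        op (ZMod p) ![z 0, z 1] = rp i (g p : ZMod p) ∧ (Cl N j (ZMod p) ![z 0, (g p : ZMod p)] ∧
          Cl N j' (ZMod p) ![z 1, (g p : ZMod p)])} := by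
    intro j j'
    obtain ⟨M, hM, hM'⟩ := CvQ.chq_all CvQ.one 2 (ι := Fin 2)
      (X := fun K _ x => op K ![x (Sum.inl 0), x (Sum.inl 1)] = x (Sum.inr 0))
      (R := fun K _ x => Cl N j K ![x (Sum.inl 0), x (Sum.inr 1)] ∧
        Cl N j' K ![x (Sum.inl 1), x (Sum.inr 1)]) (by
        refine PRD.eq ((hop.comp (G := ![fun K _ (x : Fin 2 ⊕ Fin 2 → K) => x (Sum.inl 0),
          fun K _ (x : Fin 2 ⊕ Fin 2 → K) => x (Sum.inl 1)]) fun k => ?_).congr fun K _ x => ?_)
          (PRF.var _)
        · fin_cases k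
          · exact PRF.var _
          · exact PRF.var _
        · refine congrArg (op K) ?_
          funext k
          fin_cases k <;> rfl) (by
        refine PRQ.and ?_ ?_
        · refine ((cl_prq N j).comp (G := ![fun K _ (x : Fin 2 ⊕ Fin 2 → K) => x (Sum.inl 0),
            fun K _ (x : Fin 2 ⊕ Fin 2 → K) => x (Sum.inr 1)]) fun k => ?_).congr fun K _ x => ?_
          · fin_cases k
            · exact PRF.var _
            · exact PRF.var _
          · refine iff_of_eq (congrArg (Cl N j K) ?_)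
            funext k
            fin_cases k <;> rfl
        · refine ((cl_prq N j').comp (G := ![fun K _ (x : Fin 2 ⊕ Fin 2 → K) => x (Sum.inl 1),
            fun K _ (x : Fin 2 ⊕ Fin 2 → K) => x (Sum.inr 1)]) fun k => ?_).congr fun K _ x => ?_
          · fin_cases k
            · exact PRF.var _
            · exact PRF.var _
          · refine iff_of_eq (congrArg (Cl N j' K) ?_)
            funext k
            fin_cases k <;> rfl)
    refine ⟨fun p v => M p fun k => ![fun p _ => rp i (g p), fun p _ => g p] k p v, ?_,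
      fun p _ v => ?_⟩
    · refine DV.dc hM fun k => ?_
      fin_cases k
      · exact rp_dv i (DV.one hg)
      · exact DV.one hg
    · have h1 := hM' p (fun k => ![fun p (_ : Fin n → ℕ) => rp i (g p), fun p _ => g p] k p v) (by
        have h2 := hd (AlgebraicClosure (ZMod p)) ((rp i (g p) : ℕ) : AlgebraicClosure (ZMod p))
        have e1 : {z : Fin 2 → AlgebraicClosure (ZMod p) |
            op (AlgebraicClosure (ZMod p)) z = ((rp i (g p) : ℕ) : AlgebraicClosure (ZMod p))} =
            Pt (fun K _ x => op K ![x (Sum.inl 0), x (Sum.inl 1)] = x (Sum.inr 0))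
              (AlgebraicClosure (ZMod p)) (cst (AlgebraicClosure (ZMod p))
                (fun k => ![fun p (_ : Fin n → ℕ) => rp i (g p), fun p _ => g p] k p v)) := by
          ext z
          have e2 : z = ![z 0, z 1] := by
            funext k
            fin_cases k <;> rfl
          show op _ z = _ ↔ op _ ![z 0, z 1] = _
          rw [← e2]
          rfl
        rw [e1] at h2
        exact h2)
      refine h1.trans (Nat.card_congr (Equiv.subtypeEquivRight fun z => ?_))
      show (op (ZMod p) ![z 0, z 1] = ((rp i (g p) : ℕ) : ZMod p) ∧ _) ↔ _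
      rw [rp_cast]
      rfl
  choose B hB hB' using hB
  refine (SM.sum Finset.univ fun j => SM.sum Finset.univ fun j' =>
    ((sm_rep hS₁ j (DV.one hg) (0 : Fin 2)).mul (sm_rep hS₂ j' (DV.one hg) (0 : Fin 2))).mul
      (SM.const (hB j j'))).congr fun p _ v x => ?_
  simp only [hB']
  have h5 := (expand_C hN (hG p) (hC p v (x 0)) (hC' p v (x 0))
    fun s s' => op (ZMod p) ![s, s'] = rp i (g p : ZMod p)).symm
  convert h5

/-- numbers of elements with a first-order property and definable parameters -/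
theorem one_dv {l : Type} [Finite l] {R : FR (Fin 1 ⊕ l)} (hR : PRQ R)
    {q : l → ℕ → (Fin n → ℕ) → ℕ} (hq : ∀ i, DV (q i)) : ∃ f : ℕ → (Fin n → ℕ) → ℕ, DV f ∧
      ∀ (p : ℕ) [Fact p.Prime] (v : Fin n → ℕ), f p v =
        Nat.card {s : ZMod p // R (ZMod p) (Sum.elim ![s] fun i => (q i p v : ZMod p))} := by
  classical
  obtain ⟨f, hf, h⟩ := SM.card (SM.ind hR hq)
  refine ⟨f, hf, fun p _ v => ?_⟩
  rw [h p v, Nat.card_eq_fintype_card, Fintype.card_subtype, Finset.card_filter]

/-- the class of the first coordinate, as a relation with the parameter `g` -/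
theorem cl_one {N : ℕ} (j : Fin (N + 1)) {l : Type} (i : l) : PRQ (fun K _ (x : Fin 1 ⊕ l → K) =>
    Cl N j K ![x (Sum.inl 0), x (Sum.inr i)]) := by
  refine ((cl_prq N j).comp (G := ![fun K _ (x : Fin 1 ⊕ l → K) => x (Sum.inl 0),
    fun K _ (x : Fin 1 ⊕ l → K) => x (Sum.inr i)]) fun k => ?_).congr fun K _ x => ?_
  · fin_cases k
    · exact PRF.var _
    · exact PRF.var _
  · refine iff_of_eq (congrArg (Cl N j K) ?_)
    funext k
    fin_cases k <;> rfl

open scoped Classical in
private theorem expand1_C {K : Type} [Field K] [Fintype K] {N : ℕ} (hN : 0 < N) {g : K}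
    (hg : Gen N g) {u : K → ℕ} (hu : CC N u) (Q : K → Prop) :
    ∑ s : K, (if Q s then u s else 0) =
      ∑ j : Fin (N + 1), u (rp j g) * Nat.card {s : K // Q s ∧ Cl N j K ![s, g]} := by
  have h1 : ∀ s : K, (if Q s then u s else 0) =
      ∑ j : Fin (N + 1), u (rp j g) * (if Q s ∧ Cl N j K ![s, g] then 1 else 0) := by
    intro s
    by_cases h : Q s
    · rw [if_pos h, cc_sum hN hg hu s]
      refine Finset.sum_congr rfl fun j _ => ?_
      by_cases h2 : Cl N j K ![s, g] <;> simp [h, h2]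
    · rw [if_neg h]
      symm
      refine Finset.sum_eq_zero fun j _ => ?_
      simp [h]
  simp only [h1]
  rw [Finset.sum_comm]
  refine Finset.sum_congr rfl fun j _ => ?_
  rw [← Finset.mul_sum, Nat.card_eq_fintype_card, Fintype.card_subtype, Finset.card_filter]

theorem iw_pow {W : WT n} (h : IW W) {k : ℕ} (hk : 0 < k) :
    IW (fun p _ v t u => ∑ s : ZMod p, if s ^ k = u then W p v t s else 0) := by
  classical
  obtain ⟨N, hN, hC, hS⟩ := h
  have hNk : 0 < N * k := Nat.mul_pos hN hk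
  have hC₂ : ∀ (p : ℕ) [Fact p.Prime] (v : Fin n → ℕ) (t : ZMod p), CC (N * k) (W p v t) :=
    fun p _ v t => cc_mono (hC p v t) (dvd_mul_right _ _)
  obtain ⟨g, hg, hG⟩ := gen_def (N * k) hNk
  have hCC : ∀ (p : ℕ) [Fact p.Prime] (v : Fin n → ℕ) (t : ZMod p), CC (N * k) (fun u =>
      ∑ s : ZMod p, if s ^ k = u then W p v t s else 0) := by
    intro p _ v t u y hy
    have ha : y ^ N ≠ 0 := pow_ne_zero N hy
    beta_reduce
    rw [← Equiv.sum_comp (Equiv.mulRight₀ (y ^ N) ha)
      (fun s : ZMod p => if s ^ k = u * y ^ (N * k) then W p v t s else 0)]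
    refine Finset.sum_congr rfl fun s _ => ?_
    show (if (s * y ^ N) ^ k = _ then W p v t (s * y ^ N) else 0) = _
    rw [hC p v t s y hy, mul_pow, ← pow_mul]
    refine if_congr ?_ rfl rfl
    exact mul_left_inj' (pow_ne_zero _ hy)
  refine ⟨N * k, hNk, hCC, sm_of_rep hNk hCC hg hG fun i => ?_⟩
  have hB : ∀ j : Fin (N * k + 1), ∃ f : ℕ → (Fin n → ℕ) → ℕ, DV f ∧ ∀ (p : ℕ) [Fact p.Prime]
      (v : Fin n → ℕ), f p v = Nat.card {s : ZMod p // s ^ k = rp i (g p : ZMod p) ∧
        Cl (N * k) j (ZMod p) ![s, (g p : ZMod p)]} := by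
    intro j
    obtain ⟨f, hf, h1⟩ := one_dv (n := n) (l := Unit) (q := fun _ p _ => g p)
      (R := fun K _ x => x (Sum.inl 0) ^ k = rp i (x (Sum.inr ())) ∧
        Cl (N * k) j K ![x (Sum.inl 0), x (Sum.inr ())])
      ((PRQ.eq ((PRF.var _).pow k) (rp_prf i (PRF.var _))).and (cl_one j ())) fun _ => DV.one hg
    exact ⟨f, hf, fun p _ v => h1 p v⟩
  choose B hB hB' using hB
  refine (SM.sum Finset.univ fun j =>
    (sm_rep hS j (DV.one hg) (0 : Fin 2)).mul (SM.const (hB j))).congr fun p _ v x => ?_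
  simp only [hB']
  have h5 := (expand1_C hNk (hG p) (hC₂ p v (x 0)) fun s => s ^ k = rp i (g p : ZMod p)).symm
  convert h5

/-- multiplication by a function of `t` -/
theorem iw_scale {W : WT n} (h : IW W) {l : Type} [Finite l] {c : FF (Fin 1 ⊕ l)} (hc : PRF c)
    {q : l → ℕ → (Fin n → ℕ) → ℕ} (hq : ∀ i, DV (q i)) :
    IW (fun p _ v t u => ∑ s : ZMod p,
      if c (ZMod p) (Sum.elim ![t] fun i => (q i p v : ZMod p)) * s = u then W p v t s else 0) := by
  classical
  obtain ⟨N, hN, hC, hS⟩ := h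
  obtain ⟨g, hg, hG⟩ := gen_def N hN
  refine ⟨N, hN, ?_, ?_⟩
  · intro p _ v t u y hy
    have ha : y ^ N ≠ 0 := pow_ne_zero N hy
    beta_reduce
    rw [← Equiv.sum_comp (Equiv.mulRight₀ (y ^ N) ha)
      (fun s : ZMod p => if c (ZMod p) (Sum.elim ![t] fun i => (q i p v : ZMod p)) * s =
        u * y ^ N then W p v t s else 0)]
    refine Finset.sum_congr rfl fun s _ => ?_
    show (if _ * (s * y ^ N) = _ then W p v t (s * y ^ N) else 0) = _
    rw [hC p v t s y hy, ← mul_assoc]
    refine if_congr ?_ rfl rfl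
    exact mul_left_inj' ha
  · have hB : ∀ j : Fin (N + 1), ∃ f : ℕ → (Fin n → ℕ) → ℕ, DV f ∧ ∀ (p : ℕ) [Fact p.Prime]
        (v : Fin n → ℕ), f p v = Nat.card {s : ZMod p // True ∧
          Cl N j (ZMod p) ![s, (g p : ZMod p)]} := by
      intro j
      obtain ⟨f, hf, h1⟩ := one_dv (n := n) (l := Unit) (q := fun _ p _ => g p)
        (R := fun K _ x => True ∧ Cl N j K ![x (Sum.inl 0), x (Sum.inr ())])
        (PRQ.true.and (cl_one j ())) fun _ => DV.one hg
      exact ⟨f, hf, fun p _ v => h1 p v⟩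
    choose B hB hB' using hB
    have hT : SM (κ := Fin 2) (n := n) (fun p _ v x => ∑ s : ZMod p, W p v (x 0) s) := by
      refine (SM.sum Finset.univ fun j =>
        (sm_rep hS j (DV.one hg) (0 : Fin 2)).mul (SM.const (hB j))).congr fun p _ v x => ?_
      simp only [hB']
      have h5 := (expand1_C hN (hG p) (hC p v (x 0)) fun _ => True).symm
      simpa using h5
    have hQ : SM (κ := Fin 2) (n := n) (fun p _ v x => W p v (x 0)
        (x 1 / c (ZMod p) (Sum.elim ![x 0] fun i => (q i p v : ZMod p)))) := by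
      refine (hS.comp (κ' := Fin 2) (l := l) (q := q)
        (G := ![fun K _ x => x (Sum.inl 0), fun K _ x => x (Sum.inl 1) /
          c K (Sum.elim ![x (Sum.inl 0)] fun i => x (Sum.inr i))]) (fun j => ?_) hq).congr
          fun p _ v x => ?_
      · fin_cases j
        · exact PRF.var _
        · refine (PRF.var _).div ((hc.comp (G := Sum.elim
            (fun _ K _ (x : Fin 2 ⊕ l → K) => x (Sum.inl 0))
            (fun i K _ (x : Fin 2 ⊕ l → K) => x (Sum.inr i))) fun k => ?_).congr fun K _ x => ?_)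
          · rcases k with k | k
            · exact PRF.var _
            · exact PRF.var _
          · refine congrArg (c K) ?_
            funext k
            rcases k with k | k
            · fin_cases k
              rfl
            · rfl
      · rfl
    have hR0 : PRQ (fun K _ (x : Fin 2 ⊕ l → K) =>
        c K (Sum.elim ![x (Sum.inl 0)] fun i => x (Sum.inr i)) = 0) := by
      refine PRQ.eq ((hc.comp (G := Sum.elim
        (fun _ K _ (x : Fin 2 ⊕ l → K) => x (Sum.inl 0))
        (fun i K _ (x : Fin 2 ⊕ l → K) => x (Sum.inr i))) fun k => ?_).congr fun K _ x => ?_)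
        PRF.zero
      · rcases k with k | k
        · exact PRF.var _
        · exact PRF.var _
      · refine congrArg (c K) ?_
        funext k
        rcases k with k | k
        · fin_cases k
          rfl
        · rfl
    have hR1 : PRQ (fun K _ (x : Fin 2 ⊕ Empty → K) => x (Sum.inl 1) = 0) :=
      PRQ.eq (PRF.var _) PRF.zero
    refine (SM.ite hR0 hq (SM.ite hR1 (q := fun i : Empty => i.elim) (fun i => i.elim) hT
      (SM.const (DV.const 0))) hQ).congr fun p _ v x => ?_
    simp only [Sum.elim_inl, Sum.elim_inr]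
    by_cases h1 : c (ZMod p) (Sum.elim ![x 0] fun i => (q i p v : ZMod p)) = 0
    · rw [if_pos h1]
      simp only [h1, zero_mul]
      by_cases h2 : x 1 = 0
      · simp [h2]
      · rw [if_neg h2]
        symm
        refine Finset.sum_eq_zero fun s _ => if_neg fun h3 => h2 h3.symm
    · rw [if_neg h1]
      symm
      rw [Finset.sum_eq_single (x 1 / c (ZMod p) (Sum.elim ![x 0] fun i => (q i p v : ZMod p)))]
      · rw [if_pos (mul_div_cancel₀ _ h1)]
      · intro s _ h2
        refine if_neg fun h3 => h2 ?_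
        rw [eq_div_iff h1, mul_comm]
        exact h3
      · intro h2
        exact absurd (Finset.mem_univ _) h2

end Pool.Agent.IsoC
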