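import Pool.Agent.IsoC.Defs

/-!
# Numbers of solutions modulo squarefree numbers

`Nat' E`: the family is compatible with ring homomorphisms; `crt`: the number of solutions modulo a squarefree number is
the product of the numbers of solutions modulo its prime divisors.
-/

set_option autoImplicit false

noncomputable section

namespace Pool.Agent.IsoC

open Finset Polynomial Pool.Agent.PRc Pool.Agent.Grz Pool.Agent.CvS

private theorem cf_hom {n d : ℕ} (c : Fin (d + 1) → (Fin n → ℕ) → ℕ) (v : Fin n → ℕ) {R S : Type}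
    [CommRing R] [CommRing S] (f : R →+* S) (t : R) : f (cf c v t) = cf c v (f t) := by
  simp only [cf, map_sum, map_mul, map_pow, map_natCast]

/-- the families in the class are compatible with ring homomorphisms -/
theorem cls_hom {n : ℕ} {κ : Type} {E : Fam n κ} (hE : Cls n κ E) (v : Fin n → ℕ) {R S : Type}
    [CommRing R] [CommRing S] (f : R →+* S) (t : R) (x : κ → R) :
    f (E v R t x) = E v S (f t) (fun i => f (x i)) := by
  induction hE generalizing t with
  | var => rfl
  | bin w₁ w₂ e h₁ h₂ he c hc h h' ih ih' =>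
    simp only [map_sum, apply_ite f, map_mul, map_pow, map_natCast, map_zero, ih, ih']
  | quad s d c hc =>
    simp only [map_sum, map_mul, cf_hom]
  | dels M hM a ha h ih =>
    simp only [map_sum, map_mul, map_prod, map_pow, cf_hom, ih]
  | bund h ih => exact ih _ _

/-- the index types are finite -/
theorem cls_finite {n : ℕ} {κ : Type} {E : Fam n κ} (hE : Cls n κ E) : Finite κ := by
  induction hE with
  | var => infer_instance
  | bin w₁ w₂ e h₁ h₂ he c hc h h' ih ih' => infer_instance
  | quad s d c hc => infer_instance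
  | dels M hM a ha h ih => infer_instance
  | bund h ih => infer_instance

/-- numbers of common solutions of `k` equations, each with its own unknowns, and the same `t` -/
def Cn {k : ℕ} {κ : Fin k → Type} (Q : ∀ (R : Type) [CommRing R] (j : Fin k), R → (κ j → R) → R)
    (m : ℕ) : ℕ :=
  Nat.card {z : ZMod m × (∀ j, κ j → ZMod m) // ∀ j, Q (ZMod m) j z.1 (z.2 j) = 0}

private theorem cn_one {k : ℕ} {κ : Fin k → Type}
    (Q : ∀ (R : Type) [CommRing R] (j : Fin k), R → (κ j → R) → R) : Cn Q 1 = 1 := by
  have hs : Subsingleton (ZMod 1) := inferInstanceAs (Subsingleton (Fin 1))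
  rw [Cn, Nat.card_eq_one_iff_unique]
  refine ⟨⟨fun a b => Subtype.ext (Prod.ext (Subsingleton.elim _ _) ?_)⟩,
    ⟨⟨(0, fun _ _ => 0), fun j => Subsingleton.elim _ _⟩⟩⟩
  funext j i
  exact Subsingleton.elim _ _

private theorem cn_mul {k : ℕ} {κ : Fin k → Type}
    (Q : ∀ (R : Type) [CommRing R] (j : Fin k), R → (κ j → R) → R)
    (hQ : ∀ (R S : Type) [CommRing R] [CommRing S] (f : R →+* S) (j : Fin k) (t : R)
      (x : κ j → R), f (Q R j t x) = Q S j (f t) (fun i => f (x i)))
    {a b : ℕ} (h : Nat.Coprime a b) : Cn Q (a * b) = Cn Q a * Cn Q b := by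
  rw [Cn, Cn, Cn, ← Nat.card_prod]
  let e : ZMod (a * b) ≃+* ZMod a × ZMod b := ZMod.chineseRemainder h
  let p : ZMod (a * b) →+* ZMod a := (RingHom.fst _ _).comp e.toRingHom
  let q : ZMod (a * b) →+* ZMod b := (RingHom.snd _ _).comp e.toRingHom
  have hp : ∀ z, p z = (e z).1 := fun z => rfl
  have hq : ∀ z, q z = (e z).2 := fun z => rfl
  have key : ∀ (j : Fin k) (t : ZMod (a * b)) (x : κ j → ZMod (a * b)),
      Q (ZMod (a * b)) j t x = 0 ↔ Q (ZMod a) j (e t).1 (fun i => (e (x i)).1) = 0 ∧
        Q (ZMod b) j (e t).2 (fun i => (e (x i)).2) = 0 := by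
    intro j t x
    have h1 := hQ _ _ p j t x
    have h2 := hQ _ _ q j t x
    simp only [hp, hq] at h1 h2
    rw [← h1, ← h2, ← map_eq_zero_iff e e.injective, Prod.ext_iff]
    rfl
  refine Nat.card_congr
    { toFun := fun z => (⟨((e z.1.1).1, fun j i => (e (z.1.2 j i)).1), fun j => ?_⟩,
        ⟨((e z.1.1).2, fun j i => (e (z.1.2 j i)).2), fun j => ?_⟩)
      invFun := fun w => ⟨(e.symm (w.1.1.1, w.2.1.1),
        fun j i => e.symm (w.1.1.2 j i, w.2.1.2 j i)), fun j => ?_⟩
      left_inv := fun z => ?_
      right_inv := fun w => ?_ }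
  · exact ((key j _ _).1 (z.2 j)).1
  · exact ((key j _ _).1 (z.2 j)).2
  · rw [key]
    simp only [RingEquiv.apply_symm_apply]
    exact ⟨w.1.2 j, w.2.2 j⟩
  · apply Subtype.ext
    apply Prod.ext
    · simp
    · funext j i
      simp
  · apply Prod.ext
    · apply Subtype.ext
      apply Prod.ext
      · simp
      · funext j i
        simp
    · apply Subtype.ext
      apply Prod.ext
      · simp
      · funext j i
        simp

theorem crt {k : ℕ} {κ : Fin k → Type} (Q : ∀ (R : Type) [CommRing R] (j : Fin k), R → (κ j → R) → R)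
    (hQ : ∀ (R S : Type) [CommRing R] [CommRing S] (f : R →+* S) (j : Fin k) (t : R)
      (x : κ j → R), f (Q R j t x) = Q S j (f t) (fun i => f (x i)))
    {m : ℕ} (hm : Squarefree m) : Cn Q m = ∏ p ∈ m.primeFactors, Cn Q p := by
  induction m using Nat.strong_induction_on with
  | _ m ih =>
    have hm0 : m ≠ 0 := hm.ne_zero
    rcases Nat.eq_or_lt_of_le (Nat.one_le_iff_ne_zero.2 hm0) with h | h
    · subst h
      rw [Nat.primeFactors_one, prod_empty, cn_one]
    · have hp : (m.minFac).Prime := Nat.minFac_prime h.ne'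
      obtain ⟨l, hl⟩ := m.minFac_dvd
      have hco : Nat.Coprime m.minFac l := by
        rw [hl] at hm
        exact Nat.coprime_of_squarefree_mul hm
      have hlm : Squarefree l := by
        refine hm.squarefree_of_dvd ?_
        rw [hl]
        exact dvd_mul_left _ _
      have hlt : l < m := by
        have hk0 : 0 < l := Nat.pos_of_ne_zero hlm.ne_zero
        conv_rhs => rw [hl]
        have := hp.two_le
        nlinarith
      have e1 := cn_mul Q hQ hco
      rw [← hl] at e1
      rw [e1, ih l hlt hlm]
      conv_rhs => rw [hl]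
      rw [hco.primeFactors_mul, prod_union hco.disjoint_primeFactors, hp.primeFactors,
        prod_singleton]

end Pool.Agent.IsoC
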