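import Pool.Agent.IsoC.YS
import Pool.Agent.CvH.Tot

/-!
# Sums of simple functions over the points of curves

`SM.curve`: the sum of a simple function over the points of a curve is definable; `split_E`: sums over
products of sets, split according to the classes of functions on the factors.
-/

set_option autoImplicit false

noncomputable section

namespace Pool.Agent.IsoC

open Finset Polynomial Pool.Agent.PRc Pool.Agent.Grz Pool.Agent.CvS

variable {n r : ℕ}

/-- the relation of a system, with further parameters -/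
private def XE (r d q₀ : ℕ) (l : Type) : FR (Fin r ⊕ ((Fin q₀ × (Fin r → Fin (d + 1))) ⊕ l)) :=
  fun _ _ x => ∀ i : Fin q₀, ∑ e : Fin r → Fin (d + 1), x (Sum.inr (Sum.inl (i, e))) *
    ∏ i, x (Sum.inl i) ^ (e i : ℕ) = 0

private theorem xe_prd (r d q₀ : ℕ) (l : Type) : PRD (XE r d q₀ l) := by
  have h : PRD (fun (K : Type) [Field K]
      (x : Fin r ⊕ ((Fin q₀ × (Fin r → Fin (d + 1))) ⊕ l) → K) =>
      ∀ i ∈ (Finset.univ : Finset (Fin q₀)), ∑ e : Fin r → Fin (d + 1),
        x (Sum.inr (Sum.inl (i, e))) * ∏ i, x (Sum.inl i) ^ (e i : ℕ) = 0) := by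
    refine PRD.all Finset.univ (P := fun (i : Fin q₀) (K : Type) [Field K]
      (x : Fin r ⊕ ((Fin q₀ × (Fin r → Fin (d + 1))) ⊕ l) → K) =>
      ∑ e : Fin r → Fin (d + 1), x (Sum.inr (Sum.inl (i, e))) *
        ∏ i, x (Sum.inl i) ^ (e i : ℕ) = 0) fun i _ => ?_
    refine PRD.eq ?_ PRF.zero
    refine PRF.sum Finset.univ (F := fun (e : Fin r → Fin (d + 1)) (K : Type) [Field K]
      (x : Fin r ⊕ ((Fin q₀ × (Fin r → Fin (d + 1))) ⊕ l) → K) =>
      x (Sum.inr (Sum.inl (i, e))) * ∏ i, x (Sum.inl i) ^ (e i : ℕ)) fun e _ => ?_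
    refine PRF.mul (PRF.var _) ?_
    exact PRF.prod Finset.univ (F := fun (i : Fin r) (K : Type) [Field K]
      (x : Fin r ⊕ ((Fin q₀ × (Fin r → Fin (d + 1))) ⊕ l) → K) =>
      x (Sum.inl i) ^ (e i : ℕ)) fun i _ => (PRF.var _).pow _
  refine h.congr fun K _ x => ?_
  unfold XE
  simp only [Finset.mem_univ, forall_true_left]

/-- the relation of a simple function, with the coefficients as further parameters -/
private def TE (r d q₀ : ℕ) (l : Type) (R : FR (Fin r ⊕ l)) :
    FR (Fin r ⊕ ((Fin q₀ × (Fin r → Fin (d + 1))) ⊕ l)) :=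
  fun K _ x => R K (Sum.elim (fun i => x (Sum.inl i)) fun i => x (Sum.inr (Sum.inr i)))

private theorem te_prq (r d q₀ : ℕ) (l : Type) {R : FR (Fin r ⊕ l)} (hR : PRQ R) :
    PRQ (TE r d q₀ l R) := by
  refine (hR.comp (G := Sum.elim
    (fun i K _ (x : Fin r ⊕ ((Fin q₀ × (Fin r → Fin (d + 1))) ⊕ l) → K) => x (Sum.inl i))
    (fun i K _ (x : Fin r ⊕ ((Fin q₀ × (Fin r → Fin (d + 1))) ⊕ l) → K) =>
      x (Sum.inr (Sum.inr i)))) ?_).congr fun K _ x => ?_
  · rintro (i | i)
    · exact PRF.var _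
    · exact PRF.var _
  · refine iff_of_eq (congrArg (R K) ?_)
    funext i
    rcases i with i | i <;> rfl

/-- numbers of points of curves with a first-order property -/
private theorem card_E {q₀ d : ℕ} {l : Type} [Finite l] {R : FR (Fin r ⊕ l)} (hR : PRQ R) :
    ∃ N : ℕ → (((Fin q₀ × (Fin r → Fin (d + 1))) ⊕ l) → ℕ) → ℕ, DC N ∧
      ∀ (p : ℕ) [Fact p.Prime] (c : Fin q₀ → (Fin r → Fin (d + 1)) → ℕ) (a : l → ℕ), Cv p c →
        N p (Sum.elim (fun i => c i.1 i.2) a) = Nat.card {t : Fin r → ZMod p //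
          (∀ i, sval (c i) t = 0) ∧ R (ZMod p) (Sum.elim t fun i => (a i : ZMod p))} := by
  obtain ⟨N, hN, h⟩ := CvQ.chq_all CvQ.one r (xe_prd r d q₀ l) (te_prq r d q₀ l hR)
  refine ⟨N, hN, fun p _ c a hc => ?_⟩
  obtain ⟨_, hd⟩ := hc
  have h1 : ∀ (K : Type) [Field K],
      Pt (XE r d q₀ l) K (cst K (Sum.elim (fun i => c i.1 i.2) a)) = SZ K c :=
    fun K _ => rfl
  have h2 := h p (Sum.elim (fun i => c i.1 i.2) a) (by rw [h1]; exact hd)
  rw [h2]
  exact Nat.card_congr (Equiv.subtypeEquivRight fun w => Iff.rfl)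

theorem SM.curve {q₀ d : ℕ} (P : Fin q₀ → (Fin r → Fin (d + 1)) → (Fin n → ℕ) → ℕ)
    (hP : ∀ l e, DFun n (P l e)) {w : WF n (Fin r)} (hw : SM w) :
    ∃ f : ℕ → (Fin n → ℕ) → ℕ, DV f ∧ ∀ (p : ℕ) [Fact p.Prime] (v : Fin n → ℕ),
      Cv p (fun l e => P l e v) → f p v = ∑ t : Fin r → ZMod p,
        if ∀ l, sval (fun e => P l e v) t = 0 then w p v t else 0 := by
  classical
  obtain ⟨J, l, _, _, q, R, c, hq, hR, hc, h⟩ := hw
  choose N hN hN' using fun j => card_E (q₀ := q₀) (d := d) (hR j)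
  refine ⟨fun p v => ∑ j, c j p v * N j p (fun i =>
    (Sum.elim (fun i _ v => P i.1 i.2 v) q : (Fin q₀ × (Fin r → Fin (d + 1))) ⊕ l → _) i p v),
    ?_, fun p hp v hC => ?_⟩
  · refine DV.sum Finset.univ fun j => (hc j).mul (DV.dc (hN j) ?_)
    rintro (i | i)
    · exact DV.par (hP i.1 i.2)
    · exact hq i
  · have e0 : (fun i => (Sum.elim (fun i _ v => P i.1 i.2 v) q :
        (Fin q₀ × (Fin r → Fin (d + 1))) ⊕ l → ℕ → (Fin n → ℕ) → ℕ) i p v) =
        Sum.elim (fun i : Fin q₀ × (Fin r → Fin (d + 1)) => P i.1 i.2 v) (fun i => q i p v) := by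
      funext i
      rcases i with i | i <;> rfl
    have e1 : ∀ j, N j p (fun i => (Sum.elim (fun i _ v => P i.1 i.2 v) q :
        (Fin q₀ × (Fin r → Fin (d + 1))) ⊕ l → ℕ → (Fin n → ℕ) → ℕ) i p v) =
        #{t : Fin r → ZMod p | (∀ l, sval (fun e => P l e v) t = 0) ∧
          R j (ZMod p) (Sum.elim t fun i => (q i p v : ZMod p))} := by
      intro j
      rw [e0, hN' j p (fun l e => P l e v) (fun i => q i p v) hC, Nat.card_eq_fintype_card,
        Fintype.card_subtype]
    simp only [e1]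
    have e2 : ∀ t : Fin r → ZMod p,
        (if ∀ l, sval (fun e => P l e v) t = 0 then w p v t else 0) =
        ∑ j, if (∀ l, sval (fun e => P l e v) t = 0) ∧
          R j (ZMod p) (Sum.elim t fun i => (q i p v : ZMod p)) then c j p v else 0 := by
      intro t
      by_cases ht : ∀ l, sval (fun e => P l e v) t = 0
      · rw [if_pos ht, h p v t]
        exact Finset.sum_congr rfl fun j _ => if_congr (and_iff_right ht).symm rfl rfl
      · rw [if_neg ht]
        symm
        exact Finset.sum_eq_zero fun j _ => if_neg fun h3 => ht h3.1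
    simp only [e2]
    rw [Finset.sum_comm]
    refine Finset.sum_congr rfl fun j _ => ?_
    rw [← Finset.sum_filter, Finset.sum_const, smul_eq_mul, mul_comm]

open scoped Classical in
/-- sums over products of sets, split according to classes -/
theorem split_E {K Z : Type} [Field K] [Fintype Z] {N b : ℕ} (hN : 0 < N) {g : K}
    (hg : Gen N g) {α : Type} [Fintype α] [DecidableEq α] (C : Fin b → Z → Prop)
    [∀ l z, Decidable (C l z)] (A : α → K)
    (φ : α → Fin b → Z → K) (G : (α → K) → ℕ)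
    (hG : ∀ c (ζ : α → K), (∀ a, ζ a ≠ 0) → G (fun a => c a * ζ a ^ N) = G c) :
    ∑ z : Fin b → Z, (if ∀ l, C l (z l) then G (fun a => A a * ∏ l, φ a l (z l)) else 0) =
      ∑ h : α → Fin b → Fin (N + 1), G (fun a => A a * ∏ l, (rp (h a l) g : K)) *
        ∏ l : Fin b, ∑ z : Z, if C l z then
          (if ∀ a, Cl N (h a l) K ![φ a l z, g] then 1 else 0) else 0 := by
  have h1 : ∀ z : Fin b → Z,
      (if ∀ l, C l (z l) then G (fun a => A a * ∏ l, φ a l (z l)) else 0) =
      ∑ h : α → Fin b → Fin (N + 1), G (fun a => A a * ∏ l, (rp (h a l) g : K)) *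
        ∏ l : Fin b, if C l (z l) then
          (if ∀ a, Cl N (h a l) K ![φ a l (z l), g] then 1 else 0) else 0 := by
    intro z
    choose h hh hu using fun a l => cl_ex hN hg (φ a l (z l))
    by_cases hz : ∀ l, C l (z l)
    · rw [if_pos hz, Finset.sum_eq_single h]
      · rw [Finset.prod_eq_one, mul_one]
        · choose η hη e using fun a l => cl_rep hN (hh a l)
          have e1 : (fun a => A a * ∏ l, φ a l (z l)) =
              fun a => (A a * ∏ l, (rp (h a l) g : K)) * (∏ l, η a l) ^ N := by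
            funext a
            rw [mul_assoc, ← Finset.prod_pow, ← Finset.prod_mul_distrib]
            congr 1
            exact Finset.prod_congr rfl fun l _ => e a l
          rw [e1]
          exact hG _ _ fun a => Finset.prod_ne_zero_iff.2 fun l _ => hη a l
        · intro l _
          rw [if_pos (hz l), if_pos fun a => hh a l]
      · intro h' _ hk'
        have hex : ∃ a l, h' a l ≠ h a l := by
          by_contra hcon
          push Not at hcon
          exact hk' (funext fun a => funext fun l => hcon a l)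
        obtain ⟨a, l, hal⟩ := hex
        have hn : ¬ ∀ a, Cl N (h' a l) K ![φ a l (z l), g] := fun h2 => hal (hu a l _ (h2 a))
        rw [Finset.prod_eq_zero (Finset.mem_univ l), mul_zero]
        rw [if_neg hn, ite_self]
      · intro h
        exact absurd (Finset.mem_univ _) h
    · rw [if_neg hz]
      symm
      refine Finset.sum_eq_zero fun h' _ => ?_
      push Not at hz
      obtain ⟨l, hl⟩ := hz
      rw [Finset.prod_eq_zero (Finset.mem_univ l), mul_zero]
      exact if_neg hl
  simp only [h1]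
  rw [Finset.sum_comm]
  refine Finset.sum_congr rfl fun h _ => ?_
  rw [← Finset.mul_sum, Finset.prod_univ_sum, Fintype.piFinset_univ]

end Pool.Agent.IsoC
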