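import Pool.Agent.CvQ.End

/-!
# Point counts in higher dimension: definitions

Second project on numbers of points (`MP_a56640_lc`), name `PointCountsHigher`.

* `DV f`: `f p v` is definable in `p` and `v`;
* `SM w`: `w p v x`, `x` a vector over `ZMod p`, is a finite sum of terms `if R then c p v else 0`, `R` a first-order
  relation between `x` and definable elements of `ZMod p`, and `c` definable;
* `CC N u`: `u (s y ^ N) = u s` for `y ≠ 0`;
* `Cl N i`: `i = 0`: `s = 0`; `i = k + 1`: `s ≠ 0` and `k` is the least number with `s = g ^ k y ^ N` for some `y`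
  (coordinates `0`: `s`, `1`: `g`); `rp N i g`: the representative `0`, `g ^ k`; `Gen N g`: every `s ≠ 0` is `g ^ k y ^ N`
  with `k < N`;
* `Cls n κ E`: the class of the families of polynomial functions `E v R t x` in one parameter `t` and unknowns `x i`,
  `i : κ`;
* `Wn E p v t u`: number of the `x` with `E v (ZMod p) t x = u`; `Ind E`: the statement proved by induction.
-/

set_option autoImplicit false

noncomputable section

namespace Pool.Agent.IsoC

open Finset Polynomial Pool.Agent.PRc Pool.Agent.Grz Pool.Agent.CvS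

/-- definable functions of `p` and `v` -/
def DV {n : ℕ} (f : ℕ → (Fin n → ℕ) → ℕ) : Prop :=
  DFun (n + 1) (fun w => f (w 0) fun i => w i.succ)

/-- functions of `p`, `v` and a vector over `ZMod p` -/
abbrev WF (n : ℕ) (κ : Type) : Type := ∀ (p : ℕ) [Fact p.Prime], (Fin n → ℕ) → (κ → ZMod p) → ℕ

open scoped Classical in
/-- simple functions -/
def SM {n : ℕ} {κ : Type} (w : WF n κ) : Prop :=
  ∃ (J l : Type) (_ : Fintype J) (_ : Finite l) (q : l → ℕ → (Fin n → ℕ) → ℕ) (R : J → FR (κ ⊕ l))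
    (c : J → ℕ → (Fin n → ℕ) → ℕ), (∀ i, DV (q i)) ∧ (∀ j, PRQ (R j)) ∧ (∀ j, DV (c j)) ∧
    ∀ (p : ℕ) [Fact p.Prime] (v : Fin n → ℕ) (x : κ → ZMod p), w p v x =
      ∑ j, if R j (ZMod p) (Sum.elim x fun i => (q i p v : ZMod p)) then c j p v else 0

/-- constant on the classes of nonzero `N`-th powers -/
def CC {K : Type} [Field K] (N : ℕ) (u : K → ℕ) : Prop := ∀ s y : K, y ≠ 0 → u (s * y ^ N) = u s

/-- the classes modulo `N`-th powers -/
def Cl (N : ℕ) (i : Fin (N + 1)) : FR (Fin 2) := fun k _ x =>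
  Fin.cases (x 0 = 0) (fun j : Fin N => x 0 ≠ 0 ∧ (∃ y : k, x 0 = x 1 ^ (j : ℕ) * y ^ N) ∧
    ∀ j' : Fin N, j' < j → ¬ ∃ y : k, x 0 = x 1 ^ (j' : ℕ) * y ^ N) i

/-- the representatives -/
def rp {N : ℕ} (i : Fin (N + 1)) {K : Type} [CommSemiring K] (g : K) : K :=
  Fin.cases 0 (fun j : Fin N => g ^ (j : ℕ)) i

/-- every nonzero element is in the class of a power of `g` -/
def Gen (N : ℕ) {K : Type} [Field K] (g : K) : Prop :=
  ∀ s : K, s ≠ 0 → ∃ (k : Fin N) (y : K), s = g ^ (k : ℕ) * y ^ N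

/-- families of functions of a parameter `t` and unknowns `x i`, `i : κ` -/
abbrev Fam (n : ℕ) (κ : Type) : Type 1 := (Fin n → ℕ) → ∀ (R : Type) [CommRing R], R → (κ → R) → R

/-- coefficients: polynomials in `t` -/
def cf {n d : ℕ} (c : Fin (d + 1) → (Fin n → ℕ) → ℕ) (v : Fin n → ℕ) {R : Type} [CommRing R] (t : R) : R :=
  ∑ i : Fin (d + 1), (c i v : R) * t ^ (i : ℕ)

/-- The least class of families of polynomials `E(t; x)`, with coefficients in `DFun n`, in a parameter `t` and unknowns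
`x`, that contains the unknown `x` and all quadratic forms with coefficients polynomials in `t`, and with families in
disjoint unknowns also

* all `∑ c i j * E ^ i * E' ^ j` over `i, j ≤ e` with `w₁ i + w₂ j = e` (quasi-homogeneous in two members, `w₁, w₂, e > 0`,
  coefficients constant in `t`),
* all `∑ i, a i (t) * ∏ j, E j ^ M i j` with linearly independent exponent vectors `M i` (Delsarte polynomials),
* `E` with the parameter `t` as a further unknown. -/
inductive Cls (n : ℕ) : (κ : Type) → Fam n κ → Prop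
  | var : Cls n Unit (fun _ _ _ _ x => x ())
  | quad (s d : ℕ) (c : Fin s → Fin s → Fin (d + 1) → (Fin n → ℕ) → ℕ)
      (hc : ∀ i j l, DFun n (c i j l)) :
      Cls n (Fin s) (fun v _ _ t x => ∑ i, ∑ j, cf (c i j) v t * x i * x j)
  | bin (w₁ w₂ e : ℕ) (h₁ : 0 < w₁) (h₂ : 0 < w₂) (he : 0 < e)
      (c : Fin (e + 1) → Fin (e + 1) → (Fin n → ℕ) → ℕ) (hc : ∀ i j, DFun n (c i j))
      {κ κ' : Type} {E : Fam n κ} {E' : Fam n κ'} : Cls n κ E → Cls n κ' E' →
      Cls n (κ ⊕ κ') (fun v R _ t x => ∑ i : Fin (e + 1), ∑ j : Fin (e + 1),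
        if w₁ * i + w₂ * j = e then (c i j v : R) * E v R t (fun y => x (Sum.inl y)) ^ (i : ℕ) *
          E' v R t (fun y => x (Sum.inr y)) ^ (j : ℕ) else 0)
  | dels {s r d : ℕ} {κ : Fin s → Type} {E : ∀ j, Fam n (κ j)} (M : Fin r → Fin s → ℕ)
      (hM : LinearIndependent ℚ (fun i j => (M i j : ℚ))) (a : Fin r → Fin (d + 1) → (Fin n → ℕ) → ℕ)
      (ha : ∀ i l, DFun n (a i l)) : (∀ j, Cls n (κ j) (E j)) →
      Cls n (Σ j, κ j) (fun v R _ t x =>
        ∑ i, cf (a i) v t * ∏ j, E j v R t (fun y => x ⟨j, y⟩) ^ M i j)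
  | bund {κ : Type} {E : Fam n κ} : Cls n κ E →
      Cls n (Option κ) (fun v R _ _ x => E v R (x none) fun i => x (some i))

/-- numbers of solutions -/
def Wn {n : ℕ} {κ : Type} (E : Fam n κ) (p : ℕ) [Fact p.Prime] (v : Fin n → ℕ) (t u : ZMod p) : ℕ :=
  Nat.card {x : κ → ZMod p // E v (ZMod p) t x = u}

/-- the statement proved by induction -/
def Ind {n : ℕ} {κ : Type} (E : Fam n κ) : Prop :=
  ∃ N : ℕ, 0 < N ∧ (∀ (p : ℕ) [Fact p.Prime] (v : Fin n → ℕ) (t : ZMod p), CC N (Wn E p v t)) ∧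
    SM (κ := Fin 2) (fun p _ v x => Wn E p v (x 0) (x 1))

end Pool.Agent.IsoC
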