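import Pool.Agent.IsoC.Lin

/-!
# Delsarte polynomials

`ind_dels`: closure of `Ind` under substitution in polynomials with linearly independent exponent vectors.
`wts`: weights; `Im`: the set of the values of the monomials on a product of classes; `im_inv`: it is invariant under
powers in each coordinate; `fib_const`: the fibres have the same number of elements.
-/

set_option autoImplicit false

noncomputable section

namespace Pool.Agent.IsoC

open Finset Polynomial Pool.Agent.PRc Pool.Agent.Grz Pool.Agent.CvS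

variable {n : ℕ}

/-- integral weights for linearly independent exponent vectors -/
theorem wts {s r : ℕ} (M : Fin r → Fin s → ℕ) (hM : LinearIndependent ℚ (fun i j => (M i j : ℚ))) :
    ∃ N : ℕ, 0 < N ∧ ∃ w : Fin r → Fin s → ℤ, ∀ i i' : Fin r,
      ∑ j, (M i j : ℤ) * w i' j = if i = i' then (N : ℤ) else 0 := by
  classical
  set A : Matrix (Fin r) (Fin s) ℚ := Matrix.of fun i j => (M i j : ℚ) with hA
  have h1 : A.rank = Fintype.card (Fin r) := LinearIndependent.rank_matrix hM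
  have h2 : LinearMap.range A.mulVecLin = ⊤ := by
    apply Submodule.eq_top_of_finrank_eq
    rw [Module.finrank_fintype_fun_eq_card]
    exact h1
  have h3 : ∀ i' : Fin r, ∃ x : Fin s → ℚ, A.mulVec x = Pi.single i' 1 := by
    intro i'
    have h4 : (Pi.single i' 1 : Fin r → ℚ) ∈ LinearMap.range A.mulVecLin := by
      rw [h2]
      exact Submodule.mem_top
    obtain ⟨x, hx⟩ := h4
    exact ⟨x, by rw [← hx, Matrix.mulVecLin_apply]⟩
  choose x hx using h3
  set N : ℕ := ∏ i' : Fin r, ∏ j : Fin s, (x i' j).den with hN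
  have hN0 : 0 < N := Finset.prod_pos fun i' _ => Finset.prod_pos fun j _ => (x i' j).den_pos
  have hd : ∀ i' j, (x i' j).den ∣ N := fun i' j =>
    (Finset.dvd_prod_of_mem (fun j => (x i' j).den) (Finset.mem_univ j)).trans
      (Finset.dvd_prod_of_mem (fun i' => ∏ j, (x i' j).den) (Finset.mem_univ i'))
  have hz : ∀ i' j, ∃ z : ℤ, (z : ℚ) = N * x i' j := by
    intro i' j
    obtain ⟨b, hb⟩ := hd i' j
    refine ⟨(x i' j).num * b, ?_⟩
    have h5 : ((x i' j).den : ℚ) ≠ 0 := by exact_mod_cast (x i' j).den_ne_zero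
    have h6 : x i' j * (x i' j).den = (x i' j).num := Rat.mul_den_eq_num _
    push_cast
    rw [hb]
    push_cast
    rw [← h6]
    ring
  choose w hw using hz
  refine ⟨N, hN0, w, fun i i' => ?_⟩
  have h7 : (∑ j, (M i j : ℚ) * x i' j) = if i = i' then 1 else 0 := by
    have h8 := congrFun (hx i') i
    rw [Pi.single_apply] at h8
    rw [← h8]
    rfl
  have h9 : (((∑ j, (M i j : ℤ) * w i' j : ℤ)) : ℚ) = ((if i = i' then (N : ℤ) else 0 : ℤ) : ℚ) := by
    push_cast
    simp only [hw]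
    have h10 : ∀ j, (M i j : ℚ) * (N * x i' j) = N * ((M i j : ℚ) * x i' j) := fun j => by ring
    simp only [h10]
    rw [← Finset.mul_sum, h7]
    split_ifs <;> simp
  exact_mod_cast h9

/-- the classes are invariant under multiplication by `N`-th powers -/
theorem cl_mul {N : ℕ} (i : Fin (N + 1)) {K : Type} [Field K] {s y c : K} (hy : y ≠ 0) :
    Cl N i K ![s * y ^ N, c] ↔ Cl N i K ![s, c] := by
  have hyN : y ^ N ≠ 0 := pow_ne_zero N hy
  have h1 : ∀ k : ℕ, (∃ z : K, s * y ^ N = c ^ k * z ^ N) ↔ ∃ z : K, s = c ^ k * z ^ N := by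
    intro k
    constructor
    · rintro ⟨z, hz⟩
      refine ⟨z / y, ?_⟩
      rw [div_pow, ← mul_div_assoc, ← hz, mul_div_assoc, div_self hyN, mul_one]
    · rintro ⟨z, rfl⟩
      refine ⟨z * y, ?_⟩
      rw [mul_pow, mul_assoc]
  refine Fin.cases ?_ (fun j => ?_) i
  · show s * y ^ N = 0 ↔ s = 0
    rw [mul_eq_zero, or_iff_left hyN]
  · show (s * y ^ N ≠ 0 ∧ (∃ z : K, s * y ^ N = c ^ (j : ℕ) * z ^ N) ∧
      ∀ j' : Fin N, j' < j → ¬ ∃ z : K, s * y ^ N = c ^ (j' : ℕ) * z ^ N) ↔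
      (s ≠ 0 ∧ (∃ z : K, s = c ^ (j : ℕ) * z ^ N) ∧
      ∀ j' : Fin N, j' < j → ¬ ∃ z : K, s = c ^ (j' : ℕ) * z ^ N)
    simp only [h1, ne_eq, mul_eq_zero, or_iff_left hyN]

/-- elements of a class are the representative times a power -/
theorem cl_rep {N : ℕ} (hN : 0 < N) {i : Fin (N + 1)} {K : Type} [Field K] {s g : K}
    (h : Cl N i K ![s, g]) : ∃ y : K, y ≠ 0 ∧ s = rp i g * y ^ N := by
  revert h
  refine Fin.cases ?_ (fun j => ?_) i
  · intro h
    have h' : s = 0 := h
    exact ⟨1, one_ne_zero, by rw [h']; simp [rp]⟩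
  · intro h
    have h' : s ≠ 0 ∧ (∃ y : K, s = g ^ (j : ℕ) * y ^ N) ∧
      ∀ j' : Fin N, j' < j → ¬ ∃ y : K, s = g ^ (j' : ℕ) * y ^ N := h
    obtain ⟨h0, ⟨y, hy⟩, -⟩ := h'
    refine ⟨y, ?_, hy⟩
    rintro rfl
    rw [zero_pow hN.ne', mul_zero] at hy
    exact h0 hy

/-- the values of the monomials on a product of classes -/
def Im {s r N : ℕ} (M : Fin r → Fin s → ℕ) (i : Fin s → Fin (N + 1)) {K : Type} [Field K] (g : K)
    (z : Fin r → K) : Prop :=
  ∃ y : Fin s → K, (∀ j, Cl N (i j) K ![y j, g]) ∧ ∀ k, ∏ j, y j ^ M k j = z k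

private theorem prod_zpow_D {α : Type} (A : Finset α) {K : Type} [Field K] {a : K} (ha : a ≠ 0)
    (f : α → ℤ) : ∏ j ∈ A, a ^ f j = a ^ ∑ j ∈ A, f j := by
  classical
  induction A using Finset.induction_on with
  | empty => simp
  | insert j A hj ih => rw [Finset.prod_insert hj, Finset.sum_insert hj, ih, zpow_add₀ ha]

theorem im_inv {s r N : ℕ} {M : Fin r → Fin s → ℕ} {L : ℕ} {w : Fin r → Fin s → ℤ}
    (hw : ∀ i i' : Fin r, ∑ j, (M i j : ℤ) * w i' j = if i = i' then (L : ℤ) else 0)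
    (i : Fin s → Fin (N + 1)) {K : Type} [Field K] {g : K} {z ζ : Fin r → K} (hζ : ∀ k, ζ k ≠ 0)
    (h : Im M i g z) : Im M i g (fun k => z k * ζ k ^ (L * N)) := by
  obtain ⟨y, hy, hz⟩ := h
  have hη : ∀ j, (∏ k, ζ k ^ w k j) ≠ 0 := fun j =>
    Finset.prod_ne_zero_iff.2 fun k _ => zpow_ne_zero _ (hζ k)
  refine ⟨fun j => y j * (∏ k, ζ k ^ w k j) ^ N, fun j => (cl_mul (i j) (hη j)).2 (hy j), fun k => ?_⟩
  simp only [mul_pow, Finset.prod_mul_distrib, hz k]
  congr 1
  have h1 : ∏ j, (∏ k', ζ k' ^ w k' j) ^ M k j = ζ k ^ L := by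
    have h2 : ∀ j, (∏ k', ζ k' ^ w k' j) ^ M k j = ∏ k', ζ k' ^ ((M k j : ℤ) * w k' j) := by
      intro j
      rw [← Finset.prod_pow]
      refine Finset.prod_congr rfl fun k' _ => ?_
      rw [← zpow_natCast, ← zpow_mul, mul_comm]
    simp only [h2]
    rw [Finset.prod_comm]
    have h3 : ∀ k', ∏ j, ζ k' ^ ((M k j : ℤ) * w k' j) = if k = k' then ζ k' ^ L else 1 := by
      intro k'
      rw [prod_zpow_D _ (hζ k'), hw k k']
      split_ifs with h
      · rw [zpow_natCast]
      · rw [zpow_zero]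
    simp only [h3]
    rw [Finset.prod_ite_eq Finset.univ k fun k' => ζ k' ^ L, if_pos (Finset.mem_univ _)]
  calc ∏ j, ((∏ k', ζ k' ^ w k' j) ^ N) ^ M k j
      = (∏ j, (∏ k', ζ k' ^ w k' j) ^ M k j) ^ N := by
        rw [← Finset.prod_pow]
        refine Finset.prod_congr rfl fun j _ => ?_
        rw [← pow_mul, ← pow_mul, mul_comm]
    _ = ζ k ^ (L * N) := by rw [h1, ← pow_mul]

theorem im_rep {s r N : ℕ} {M : Fin r → Fin s → ℕ} {L : ℕ} (hN : 0 < N) (hL : 0 < L)
    {w : Fin r → Fin s → ℤ}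
    (hw : ∀ i i' : Fin r, ∑ j, (M i j : ℤ) * w i' j = if i = i' then (L : ℤ) else 0)
    (i : Fin s → Fin (N + 1)) {K : Type} [Field K] {g g' : K} {z : Fin r → K}
    {k : Fin r → Fin (L * N + 1)} (hk : ∀ a, Cl (L * N) (k a) K ![z a, g']) :
    Im M i g z ↔ Im M i g (fun a => rp (k a) g') := by
  have hLN : 0 < L * N := Nat.mul_pos hL hN
  choose η hη hz using fun a => cl_rep hLN (hk a)
  constructor
  · intro h
    have h1 := im_inv hw i (ζ := fun a => (η a)⁻¹) (fun a => inv_ne_zero (hη a)) h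
    have h2 : (fun a => z a * (η a)⁻¹ ^ (L * N)) = fun a => rp (k a) g' := by
      funext a
      rw [hz a, inv_pow, mul_assoc, mul_inv_cancel₀ (pow_ne_zero _ (hη a)), mul_one]
    rwa [h2] at h1
  · intro h
    have h1 := im_inv hw i (ζ := η) hη h
    have h2 : (fun a => (rp (k a) g' : K) * η a ^ (L * N)) = z := by
      funext a
      rw [hz a]
    rwa [h2] at h1

/-- the fibres of the monomials on a product of classes -/
abbrev Fib {s r N : ℕ} (M : Fin r → Fin s → ℕ) (i : Fin s → Fin (N + 1)) {K : Type} [Field K] (g : K)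
    (z : Fin r → K) : Type :=
  {y : Fin s → K // (∀ j, Cl N (i j) K ![y j, g]) ∧ ∀ k, ∏ j, y j ^ M k j = z k}

private def scl_D {s r N : ℕ} {M : Fin r → Fin s → ℕ} {i : Fin s → Fin (N + 1)} {K : Type} [Field K]
    {g : K} {z z' : Fin r → K} (ρ : Fin s → K) (h0 : ∀ j, ρ j ≠ 0)
    (h1 : ∀ j, ∃ η : K, η ≠ 0 ∧ ρ j = η ^ N) (h2 : ∀ k, z k * ∏ j, ρ j ^ M k j = z' k) :
    Fib M i g z ≃ Fib M i g z' where
  toFun y := ⟨fun j => y.1 j * ρ j, fun j => by
      obtain ⟨η, hη, e⟩ := h1 j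
      show Cl N (i j) K ![y.1 j * ρ j, g]
      rw [e]
      exact (cl_mul (i j) hη).2 (y.2.1 j), fun k => by
      rw [← h2 k, ← y.2.2 k, ← Finset.prod_mul_distrib]
      exact Finset.prod_congr rfl fun j _ => mul_pow _ _ _⟩
  invFun y := ⟨fun j => y.1 j * (ρ j)⁻¹, fun j => by
      obtain ⟨η, hη, e⟩ := h1 j
      show Cl N (i j) K ![y.1 j * (ρ j)⁻¹, g]
      rw [e, ← inv_pow]
      exact (cl_mul (i j) (inv_ne_zero hη)).2 (y.2.1 j), fun k => by
      have h3 : (∏ j, ρ j ^ M k j) ≠ 0 := Finset.prod_ne_zero_iff.2 fun j _ => pow_ne_zero _ (h0 j)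
      have h4 : ∏ j, (y.1 j * (ρ j)⁻¹) ^ M k j = z' k * (∏ j, ρ j ^ M k j)⁻¹ := by
        rw [← y.2.2 k, ← Finset.prod_inv_distrib, ← Finset.prod_mul_distrib]
        refine Finset.prod_congr rfl fun j _ => ?_
        rw [mul_pow, inv_pow]
      rw [h4, ← h2 k, mul_assoc, mul_inv_cancel₀ h3, mul_one]⟩
  left_inv y := by
    refine Subtype.ext (funext fun j => ?_)
    show y.1 j * ρ j * (ρ j)⁻¹ = y.1 j
    rw [mul_assoc, mul_inv_cancel₀ (h0 j), mul_one]
  right_inv y := by
    refine Subtype.ext (funext fun j => ?_)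
    show y.1 j * (ρ j)⁻¹ * ρ j = y.1 j
    rw [mul_assoc, inv_mul_cancel₀ (h0 j), mul_one]

theorem fib_const {s r N : ℕ} (hN : 0 < N) {M : Fin r → Fin s → ℕ} {i : Fin s → Fin (N + 1)}
    {K : Type} [Field K] {g : K} {z z' : Fin r → K} (h : Im M i g z) (h' : Im M i g z') :
    Nat.card (Fib M i g z) = Nat.card (Fib M i g z') := by
  obtain ⟨y, hy, hz⟩ := h
  obtain ⟨y', hy', hz'⟩ := h'
  choose η hη e using fun j => cl_rep hN (hy j)
  choose η' hη' e' using fun j => cl_rep hN (hy' j)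
  have e2 : ∀ j, y j * (η' j / η j) ^ N = y' j := by
    intro j
    rw [e j, e' j, div_pow, mul_assoc, mul_div_cancel₀ _ (pow_ne_zero N (hη j))]
  refine Nat.card_congr (scl_D (fun j => (η' j / η j) ^ N)
    (fun j => pow_ne_zero _ (div_ne_zero (hη' j) (hη j)))
    (fun j => ⟨η' j / η j, div_ne_zero (hη' j) (hη j), rfl⟩) fun k => ?_)
  rw [← hz k, ← hz' k, ← Finset.prod_mul_distrib]
  refine Finset.prod_congr rfl fun j _ => ?_
  rw [← e2 j, mul_pow]

open scoped Classical in
theorem fib_card {s r N : ℕ} (hN : 0 < N) {M : Fin r → Fin s → ℕ} {i : Fin s → Fin (N + 1)}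
    {K : Type} [Field K] [Fintype K] {g : K} (z : Fin r → K) :
    Nat.card (Fib M i g z) = if Im M i g z then
      (∏ j, Nat.card {y : K // Cl N (i j) K ![y, g]}) / Nat.card {z : Fin r → K // Im M i g z}
        else 0 := by
  by_cases h : Im M i g z
  · rw [if_pos h]
    have h1 : Nat.card {y : Fin s → K // ∀ j, Cl N (i j) K ![y j, g]} =
        ∑ z' : Fin r → K, Nat.card (Fib M i g z') := by
      have e1 : Nat.card {y : Fin s → K // ∀ j, Cl N (i j) K ![y j, g]} =
          Nat.card (Σ z' : Fin r → K, Fib M i g z') := by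
        refine Nat.card_congr ⟨fun y => ⟨fun k => ∏ j, y.1 j ^ M k j, ⟨y.1, y.2, fun _ => rfl⟩⟩,
          fun y => ⟨y.2.1, y.2.2.1⟩, fun y => rfl, ?_⟩
        rintro ⟨z', y, hy, hz⟩
        obtain rfl : (fun k => ∏ j, y j ^ M k j) = z' := funext hz
        rfl
      rw [e1]
      have _ : ∀ z' : Fin r → K, Finite (Fib M i g z') := fun z' => by
        infer_instance
      have _ : ∀ z' : Fin r → K, Fintype (Fib M i g z') := fun z' => Fintype.ofFinite _
      rw [Nat.card_eq_fintype_card, Fintype.card_sigma]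
      refine Finset.sum_congr rfl fun z' _ => ?_
      rw [Nat.card_eq_fintype_card]
    have h2 : Nat.card {y : Fin s → K // ∀ j, Cl N (i j) K ![y j, g]} =
        ∏ j, Nat.card {y : K // Cl N (i j) K ![y, g]} := by
      rw [Nat.card_congr (Equiv.subtypePiEquivPi (p := fun j (y : K) => Cl N (i j) K ![y, g])),
        Nat.card_pi]
    have h3 : ∀ z' : Fin r → K, Nat.card (Fib M i g z') =
        if Im M i g z' then Nat.card (Fib M i g z) else 0 := by
      intro z'
      by_cases h4 : Im M i g z'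
      · rw [if_pos h4]
        exact fib_const hN h4 h
      · rw [if_neg h4]
        have : IsEmpty (Fib M i g z') := ⟨fun y => h4 ⟨y.1, y.2⟩⟩
        exact Nat.card_of_isEmpty
    have h5 : ∑ z' : Fin r → K, Nat.card (Fib M i g z') =
        Nat.card {z : Fin r → K // Im M i g z} * Nat.card (Fib M i g z) := by
      have h7 : Nat.card {z : Fin r → K // Im M i g z} = #{z : Fin r → K | Im M i g z} := by
        rw [Nat.card_eq_fintype_card, Fintype.card_subtype]
      rw [Finset.sum_congr rfl fun z' _ => h3 z', ← Finset.sum_filter, Finset.sum_const,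
        smul_eq_mul, h7]
    have h6 : 0 < Nat.card {z : Fin r → K // Im M i g z} := by
      have : Nonempty {z : Fin r → K // Im M i g z} := ⟨⟨z, h⟩⟩
      exact Nat.card_pos
    rw [← h2, h1, h5, Nat.mul_div_cancel_left _ h6]
  · rw [if_neg h]
    have : IsEmpty (Fib M i g z) := ⟨fun y => h ⟨y.1, y.2⟩⟩
    exact Nat.card_of_isEmpty

open scoped Classical in
/-- the number of elements of the image -/
theorem im_card {s r N : ℕ} {M : Fin r → Fin s → ℕ} {L : ℕ} (hN : 0 < N) (hL : 0 < L)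
    {w : Fin r → Fin s → ℤ}
    (hw : ∀ i i' : Fin r, ∑ j, (M i j : ℤ) * w i' j = if i = i' then (L : ℤ) else 0)
    (i : Fin s → Fin (N + 1)) {K : Type} [Field K] [Fintype K] {g g' : K} (hg' : Gen (L * N) g')
    (F : (Fin r → K) → ℕ) :
    ∑ z : Fin r → K, (if Im M i g z then F z else 0) = ∑ k : Fin r → Fin (L * N + 1),
      if Im M i g (fun a => (rp (k a) g' : K)) then
        ∑ z : Fin r → K, (if ∀ a, Cl (L * N) (k a) K ![z a, g'] then F z else 0) else 0 := by
  have hLN : 0 < L * N := Nat.mul_pos hL hN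
  have h1 : ∀ z : Fin r → K, (if Im M i g z then F z else 0) = ∑ k : Fin r → Fin (L * N + 1),
      if (∀ a, Cl (L * N) (k a) K ![z a, g']) ∧ Im M i g (fun a => (rp (k a) g' : K)) then F z
        else 0 := by
    intro z
    choose k hk huk using fun a => cl_ex hLN hg' (z a)
    rw [Finset.sum_eq_single k]
    · by_cases h : Im M i g z
      · rw [if_pos h, if_pos ⟨hk, (im_rep hN hL hw i hk).1 h⟩]
      · rw [if_neg h, if_neg fun h2 => h ((im_rep hN hL hw i hk).2 h2.2)]
    · intro k' _ hk'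
      refine if_neg fun h2 => hk' ?_
      funext a
      exact huk a (k' a) (h2.1 a)
    · intro h2
      exact absurd (Finset.mem_univ k) h2
  simp only [h1]
  rw [Finset.sum_comm]
  refine Finset.sum_congr rfl fun k _ => ?_
  by_cases h : Im M i g (fun a => (rp (k a) g' : K))
  · rw [if_pos h]
    refine Finset.sum_congr rfl fun z _ => ?_
    refine if_congr ?_ rfl rfl
    exact and_iff_left h
  · rw [if_neg h]
    exact Finset.sum_eq_zero fun z _ => if_neg fun h2 => h h2.2

end Pool.Agent.IsoC
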