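import Pool.Agent.IsoC.Dels

/-!
# Delsarte polynomials: the statement for functions

`iw_dels`: the numbers of the `y` with `∑ c i (t) * ∏ y j ^ M i j = u`, weighted with `∏ V j t (y j)`; `ind_dels`.
-/

set_option autoImplicit false

noncomputable section

namespace Pool.Agent.IsoC

open Finset Polynomial Pool.Agent.PRc Pool.Agent.Grz Pool.Agent.CvS

variable {n : ℕ}

open scoped Classical in
private theorem expand_S {K : Type} [Field K] [Fintype K] {s r N L : ℕ} {M : Fin r → Fin s → ℕ}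
    (hN : 0 < N) (hL : 0 < L) {w : Fin r → Fin s → ℤ}
    (hw : ∀ i i' : Fin r, ∑ j, (M i j : ℤ) * w i' j = if i = i' then (L : ℤ) else 0)
    {g g' : K} (hg : Gen N g) (hg' : Gen (L * N) g') {V : Fin s → K → ℕ} (hV : ∀ j, CC N (V j))
    (Q : (Fin r → K) → Prop) :
    ∑ y : Fin s → K, (if Q (fun k => ∏ j, y j ^ M k j) then ∏ j, V j (y j) else 0) =
      ∑ i : Fin s → Fin (N + 1), ∑ k : Fin r → Fin (L * N + 1),
        ((∏ j, V j (rp (i j) g)) * ((∏ j, Nat.card {y : K // Cl N (i j) K ![y, g]}) /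
          Nat.card {z : Fin r → K // Im M i g z}) *
          (if Im M i g (fun a => (rp (k a) g' : K)) then 1 else 0)) *
        ∑ z : Fin r → K, (if Q z then ∏ a, (if Cl (L * N) (k a) K ![z a, g'] then 1 else 0) else 0) := by
  have h1 : ∀ y : Fin s → K, (if Q (fun k => ∏ j, y j ^ M k j) then ∏ j, V j (y j) else 0) =
      ∑ i : Fin s → Fin (N + 1), (∏ j, V j (rp (i j) g)) *
        (if (∀ j, Cl N (i j) K ![y j, g]) ∧ Q (fun k => ∏ j, y j ^ M k j) then 1 else 0) := by
    intro y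
    choose i hi hui using fun j => cl_ex hN hg (y j)
    rw [Finset.sum_eq_single i]
    · by_cases h : Q (fun k => ∏ j, y j ^ M k j)
      · rw [if_pos h, if_pos ⟨hi, h⟩, mul_one]
        exact Finset.prod_congr rfl fun j _ => cc_rep hN (hV j) (hi j)
      · rw [if_neg h, if_neg fun h2 => h h2.2, mul_zero]
    · intro i' _ hi'
      rw [if_neg, mul_zero]
      intro h2
      refine hi' (funext fun j => hui j (i' j) (h2.1 j))
    · intro h2
      exact absurd (Finset.mem_univ i) h2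
  have h2 : ∀ i : Fin s → Fin (N + 1), ∑ y : Fin s → K,
      (if (∀ j, Cl N (i j) K ![y j, g]) ∧ Q (fun k => ∏ j, y j ^ M k j) then 1 else 0) =
      ∑ z : Fin r → K, (if Im M i g z then (if Q z then
        (∏ j, Nat.card {y : K // Cl N (i j) K ![y, g]}) / Nat.card {z : Fin r → K // Im M i g z}
          else 0) else 0) := by
    intro i
    have h3 : ∀ z : Fin r → K, (if Im M i g z then (if Q z then
        (∏ j, Nat.card {y : K // Cl N (i j) K ![y, g]}) / Nat.card {z : Fin r → K // Im M i g z}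
          else 0) else 0) = if Q z then Nat.card (Fib M i g z) else 0 := by
      intro z
      rw [fib_card hN z]
      by_cases h4 : Q z <;> by_cases h5 : Im M i g z <;> simp [h4, h5]
    simp only [h3]
    have h6 : ∀ z : Fin r → K, (if Q z then Nat.card (Fib M i g z) else 0) =
        ∑ y : Fin s → K, if ((∀ j, Cl N (i j) K ![y j, g]) ∧ Q (fun k => ∏ j, y j ^ M k j)) ∧
          (fun k => ∏ j, y j ^ M k j) = z then 1 else 0 := by
      intro z
      rw [Nat.card_eq_fintype_card, Fintype.card_subtype, Finset.card_filter]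
      by_cases h4 : Q z
      · rw [if_pos h4]
        refine Finset.sum_congr rfl fun y _ => if_congr ?_ rfl rfl
        constructor
        · rintro ⟨h5, h6⟩
          have h7 : (fun k => ∏ j, y j ^ M k j) = z := funext h6
          exact ⟨⟨h5, h7 ▸ h4⟩, h7⟩
        · rintro ⟨⟨h5, -⟩, h7⟩
          exact ⟨h5, congrFun h7⟩
      · rw [if_neg h4]
        symm
        refine Finset.sum_eq_zero fun y _ => if_neg ?_
        rintro ⟨⟨-, h5⟩, h7⟩
        exact h4 (h7 ▸ h5)
    simp only [h6]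
    rw [Finset.sum_comm]
    refine Finset.sum_congr rfl fun y _ => ?_
    by_cases h7 : (∀ j, Cl N (i j) K ![y j, g]) ∧ Q (fun k => ∏ j, y j ^ M k j)
    · rw [if_pos h7, Finset.sum_eq_single (fun k => ∏ j, y j ^ M k j)]
      · rw [if_pos ⟨h7, rfl⟩]
      · intro z _ hz
        exact if_neg fun h8 => hz h8.2.symm
      · intro h8
        exact absurd (Finset.mem_univ _) h8
    · rw [if_neg h7]
      symm
      exact Finset.sum_eq_zero fun z _ => if_neg fun h8 => h7 h8.1
  simp only [h1]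
  rw [Finset.sum_comm]
  refine Finset.sum_congr rfl fun i _ => ?_
  rw [← Finset.mul_sum, h2 i, im_card hN hL hw i hg', Finset.mul_sum]
  refine Finset.sum_congr rfl fun k _ => ?_
  rw [mul_assoc, mul_assoc]
  congr 1
  by_cases h : Im M i g (fun a => (rp (k a) g' : K))
  · rw [if_pos h, if_pos h, one_mul, Finset.mul_sum]
    refine Finset.sum_congr rfl fun z _ => ?_
    by_cases h4 : Q z
    · rw [if_pos h4, if_pos h4]
      by_cases h5 : ∀ a, Cl (L * N) (k a) K ![z a, g']
      · rw [if_pos h5]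
        simp [h5]
      · rw [if_neg h5]
        push Not at h5
        obtain ⟨a, ha⟩ := h5
        rw [Finset.prod_eq_zero (Finset.mem_univ a) (if_neg ha), mul_zero]
    · rw [if_neg h4, if_neg h4, mul_zero, ite_self]
  · rw [if_neg h, if_neg h, zero_mul, mul_zero]

/-- the image, as a first-order relation between the parameters -/
private theorem im_prq {s r N L : ℕ} (M : Fin r → Fin s → ℕ) (i : Fin s → Fin (N + 1))
    (k : Fin r → Fin (L + 1)) : PRQ (fun K _ (x : Fin 2 → K) =>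
      Im M i (x 0) (fun a => (rp (k a) (x 1) : K))) := by
  have h1 : PRQ (ι := Fin 2 ⊕ Fin s) (fun K _ x => (∀ j, Cl N (i j) K ![x (Sum.inr j), x (Sum.inl 0)]) ∧
      ∀ a, ∏ j, x (Sum.inr j) ^ M a j = rp (k a) (x (Sum.inl 1))) := by
    refine PRQ.and (PRQ.allF fun j => ?_) (PRQ.allF fun a => ?_)
    · refine ((cl_prq N (i j)).comp (G := ![fun K _ (x : Fin 2 ⊕ Fin s → K) => x (Sum.inr j),
        fun K _ (x : Fin 2 ⊕ Fin s → K) => x (Sum.inl 0)]) fun b => ?_).congr fun K _ x => ?_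
      · fin_cases b
        · exact PRF.var _
        · exact PRF.var _
      · refine iff_of_eq (congrArg (Cl N (i j) K) ?_)
        funext b
        fin_cases b <;> rfl
    · refine PRQ.eq ?_ (rp_prf (k a) (PRF.var _))
      exact PRF.prod Finset.univ (F := fun (j : Fin s) (K : Type) [Field K]
        (x : Fin 2 ⊕ Fin s → K) => x (Sum.inr j) ^ M a j) fun j _ => (PRF.var _).pow _
  exact h1.ex

theorem iw_dels {s r : ℕ} (M : Fin r → Fin s → ℕ)
    (hM : LinearIndependent ℚ (fun i j => (M i j : ℚ))) {l : Type} [Finite l]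
    {q : l → ℕ → (Fin n → ℕ) → ℕ} (hq : ∀ i, DV (q i)) {c : Fin r → FF (Fin 1 ⊕ l)}
    (hc : ∀ i, PRF (c i)) {V : Fin s → WT n} (hV : ∀ j, IW (V j)) :
    IW (fun p _ v t u => ∑ y : Fin s → ZMod p,
      if ∑ i, c i (ZMod p) (Sum.elim ![t] fun i => (q i p v : ZMod p)) * ∏ j, y j ^ M i j = u then
        ∏ j, V j p v t (y j) else 0) := by
  classical
  obtain ⟨L, hL, w, hw⟩ := wts M hM
  obtain ⟨N, hN, hC⟩ : ∃ N : ℕ, 0 < N ∧ ∀ (j : Fin s) (p : ℕ) [Fact p.Prime] (v : Fin n → ℕ)
      (t : ZMod p), CC N (V j p v t) := by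
    choose N hN hC hS using hV
    exact ⟨∏ j, N j, Finset.prod_pos fun j _ => hN j, fun j p _ v t =>
      cc_mono (hC j p v t) (Finset.dvd_prod_of_mem N (Finset.mem_univ j))⟩
  have hLN : 0 < L * N := Nat.mul_pos hL hN
  obtain ⟨g, hg, hG⟩ := gen_def N hN
  obtain ⟨g', hg', hG'⟩ := gen_def (L * N) hLN
  have hS : ∀ j, SM (κ := Fin 2) (fun p _ v x => V j p v (x 0) (x 1)) := fun j => by
    obtain ⟨_, _, _, h⟩ := hV j
    exact h
  -- numbers of elements of the classes
  have hA : ∀ j : Fin (N + 1), ∃ f : ℕ → (Fin n → ℕ) → ℕ, DV f ∧ ∀ (p : ℕ) [Fact p.Prime]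
      (v : Fin n → ℕ), f p v = Nat.card {y : ZMod p // Cl N j (ZMod p) ![y, (g p : ZMod p)]} := by
    intro j
    obtain ⟨f, hf, h1⟩ := one_dv (n := n) (l := Unit) (q := fun _ p _ => g p)
      (R := fun K _ x => Cl N j K ![x (Sum.inl 0), x (Sum.inr ())]) (cl_one j ()) fun _ => DV.one hg
    exact ⟨f, hf, fun p _ v => h1 p v⟩
  choose A hA hA' using hA
  have hA2 : ∀ j : Fin (L * N + 1), ∃ f : ℕ → (Fin n → ℕ) → ℕ, DV f ∧ ∀ (p : ℕ) [Fact p.Prime]
      (v : Fin n → ℕ), f p v = Nat.card {y : ZMod p // Cl (L * N) j (ZMod p) ![y, (g' p : ZMod p)]} := by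
    intro j
    obtain ⟨f, hf, h1⟩ := one_dv (n := n) (l := Unit) (q := fun _ p _ => g' p)
      (R := fun K _ x => Cl (L * N) j K ![x (Sum.inl 0), x (Sum.inr ())]) (cl_one j ())
      fun _ => DV.one hg'
    exact ⟨f, hf, fun p _ v => h1 p v⟩
  choose A2 hA2 hA2' using hA2
  -- indicator of the image
  have hB : ∀ (i : Fin s → Fin (N + 1)) (k : Fin r → Fin (L * N + 1)), ∃ f : ℕ → (Fin n → ℕ) → ℕ,
      DV f ∧ ∀ (p : ℕ) [Fact p.Prime] (v : Fin n → ℕ), f p v =
        if Im M i (g p : ZMod p) (fun a => (rp (k a) (g' p : ZMod p) : ZMod p)) then 1 else 0 := by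
    intro i k
    refine ⟨_, DV.iteQ (im_prq M i k) (q := ![fun p _ => g p, fun p _ => g' p]) (fun b => ?_)
      (DV.const 1) (DV.const 0), fun p hp v => ?_⟩
    · fin_cases b
      · exact DV.one hg
      · exact DV.one hg'
    · refine if_congr ?_ rfl rfl
      exact ⟨fun ⟨_, h1⟩ => h1, fun h1 => ⟨hp.out, h1⟩⟩
  choose B hB hB' using hB
  have hI : ∀ (i : Fin s → Fin (N + 1)), ∃ f : ℕ → (Fin n → ℕ) → ℕ,
      DV f ∧ ∀ (p : ℕ) [Fact p.Prime] (v : Fin n → ℕ), f p v =
        Nat.card {z : Fin r → ZMod p // Im M i (g p : ZMod p) z} := by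
    intro i
    refine ⟨fun p v => ∑ k : Fin r → Fin (L * N + 1), B i k p v * ∏ a, A2 (k a) p v, ?_,
      fun p _ v => ?_⟩
    · exact DV.sum Finset.univ fun k => (hB i k).mul (DV.prod Finset.univ fun a => hA2 (k a))
    · have h1 := im_card hN hL hw i (K := ZMod p) (g := (g p : ZMod p)) (hG' p) fun _ => 1
      rw [Nat.card_eq_fintype_card, Fintype.card_subtype, Finset.card_filter, h1]
      refine Finset.sum_congr rfl fun k _ => ?_
      rw [hB' i k p v]
      by_cases h : Im M i (g p : ZMod p) (fun a => (rp (k a) (g' p : ZMod p) : ZMod p))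
      · rw [if_pos h, if_pos h, one_mul]
        simp only [hA2']
        rw [← Nat.card_pi, ← Nat.card_congr (Equiv.subtypePiEquivPi
          (p := fun a (y : ZMod p) => Cl (L * N) (k a) (ZMod p) ![y, (g' p : ZMod p)])),
          Nat.card_eq_fintype_card, Fintype.card_subtype, Finset.card_filter]
      · rw [if_neg h, if_neg h, zero_mul]
  choose I hI hI' using hI
  have hκ : ∀ i : Fin s → Fin (N + 1), DV (fun p v => (∏ j, A (i j) p v) / I i p v) := by
    intro i
    exact (DV.prod Finset.univ fun j => hA (i j)).div (hI i)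
  have hLk : ∀ k : Fin r → Fin (L * N + 1), IW (n := n) (fun p _ v t u => ∑ z : Fin r → ZMod p,
      if ∑ a, c a (ZMod p) (Sum.elim ![t] fun i => (q i p v : ZMod p)) * z a = u then
        ∏ a, (if Cl (L * N) (k a) (ZMod p) ![z a, (g' p : ZMod p)] then 1 else 0) else 0) := by
    intro k
    exact iw_lin hq r (fun a p _ _ _ u => if Cl (L * N) (k a) (ZMod p) ![u, (g' p : ZMod p)] then 1 else 0)
      c (fun a => iw_cl hLN (k a) hg' fun K _ s y c hy => cl_mul (k a) hy) hc
  refine (iw_sum Finset.univ fun i : Fin s → Fin (N + 1) =>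
    iw_sum Finset.univ fun k : Fin r → Fin (L * N + 1) =>
      iw_smul (hLk k) (f := fun p _ v t => (∏ j, V j p v t (rp (i j) (g p : ZMod p))) *
        ((∏ j, A (i j) p v) / I i p v) * B i k p v) ?_).congr fun p _ v t u => ?_
  · exact ((SM.prod Finset.univ fun j => sm_rep (hS j) (i j) (DV.one hg) (0 : Fin 2)).mul
      (SM.const (hκ i))).mul (SM.const (hB i k))
  · have h5 := (expand_S (K := ZMod p) (M := M) hN hL hw (hG p) (hG' p)
      (V := fun j => V j p v t) (fun j => hC j p v t)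
      fun z => ∑ a, c a (ZMod p) (Sum.elim ![t] fun i => (q i p v : ZMod p)) * z a = u).symm
    simp only [hA', hI', hB']
    convert h5

open scoped Classical in
private theorem sum_fibN_S {K : Type} [Fintype K] {s : ℕ} {X : Fin s → Type} [∀ j, Fintype (X j)]
    (f : ∀ j, X j → K) (F : (Fin s → K) → ℕ) :
    ∑ x : ∀ j, X j, F (fun j => f j (x j)) = ∑ y : Fin s → K, F y *
      ∏ j, Nat.card {x : X j // f j x = y j} := by
  rw [sum_fib_I (fun x : ∀ j, X j => fun j => f j (x j)) F]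
  refine Finset.sum_congr rfl fun y _ => ?_
  rw [mul_comm, ← Nat.card_pi]
  congr 1
  refine Nat.card_congr ?_
  refine (Equiv.subtypeEquivRight fun x => ?_).trans
    (Equiv.subtypePiEquivPi (p := fun j (x : X j) => f j x = y j))
  exact funext_iff

theorem ind_dels {s r d : ℕ} {κ : Fin s → Type} {E : ∀ j, Fam n (κ j)} (M : Fin r → Fin s → ℕ)
    (hM : LinearIndependent ℚ (fun i j => (M i j : ℚ))) (a : Fin r → Fin (d + 1) → (Fin n → ℕ) → ℕ)
    (ha : ∀ i l, DFun n (a i l)) (hf : ∀ j, Finite (κ j)) (hE : ∀ j, Ind (E j)) :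
    Ind (n := n) (κ := Σ j, κ j) (fun v R _ t x =>
      ∑ i, cf (a i) v t * ∏ j, E j v R t (fun y => x ⟨j, y⟩) ^ M i j) := by
  classical
  have hc : ∀ i : Fin r, PRF (fun (K : Type) [Field K] (x : Fin 1 ⊕ (Fin r × Fin (d + 1)) → K) =>
      ∑ l : Fin (d + 1), x (Sum.inr (i, l)) * x (Sum.inl 0) ^ (l : ℕ)) := fun i =>
    PRF.sum Finset.univ (F := fun (l : Fin (d + 1)) (K : Type) [Field K]
      (x : Fin 1 ⊕ (Fin r × Fin (d + 1)) → K) => x (Sum.inr (i, l)) * x (Sum.inl 0) ^ (l : ℕ))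
      fun _ _ => (PRF.var _).mul ((PRF.var _).pow _)
  have h1 := iw_dels (n := n) M hM (l := Fin r × Fin (d + 1)) (q := fun b _ v => a b.1 b.2 v)
    (fun b => DV.par (ha b.1 b.2)) hc (V := fun j => Wn (E j)) hE
  refine h1.congr fun p _ v t u => ?_
  have _ : ∀ j, Fintype (κ j) := fun j => Fintype.ofFinite _
  unfold Wn
  have e : Nat.card {x : (Σ j, κ j) → ZMod p // ∑ i, cf (a i) v t * ∏ j,
      E j v (ZMod p) t (fun y => x ⟨j, y⟩) ^ M i j = u} =
      Nat.card {x : ∀ j, κ j → ZMod p // ∑ i, cf (a i) v t * ∏ j,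
        E j v (ZMod p) t (x j) ^ M i j = u} :=
    Nat.card_congr ((Equiv.piCurry fun (j : Fin s) (_ : κ j) => ZMod p).subtypeEquiv
      fun x => Iff.rfl)
  rw [e, Nat.card_eq_fintype_card, Fintype.card_subtype, Finset.card_filter]
  have h2 := sum_fibN_S (K := ZMod p) (fun j (x : κ j → ZMod p) => E j v (ZMod p) t x)
    fun y => if ∑ i, cf (a i) v t * ∏ j, y j ^ M i j = u then 1 else 0
  rw [h2]
  refine Finset.sum_congr rfl fun y _ => ?_
  show (if ∑ i, cf (a i) v t * ∏ j, y j ^ M i j = u then _ else 0) = _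
  by_cases h3 : ∑ i, cf (a i) v t * ∏ j, y j ^ M i j = u
  · rw [if_pos h3, if_pos h3, one_mul]
  · rw [if_neg h3, if_neg h3, zero_mul]

end Pool.Agent.IsoC
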