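import Pool.Agent.IsoC.CrvS

/-!
# The local number of points for products of curves and affinely independent exponents

`e_local`: the number of the `(z, x)` modulo a prime with `z l` on the curve `C_l` and
`∑ i, a_ji * ∏ l, f_jil (z l) * ∏ q, E_jq (x_jq) ^ M_jiq = 0` for all `j` is definable.
-/

set_option autoImplicit false

noncomputable section

namespace Pool.Agent.IsoC

open Finset Polynomial Pool.Agent.PRc Pool.Agent.Grz Pool.Agent.CvS

variable {n : ℕ}

open scoped Classical in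
private theorem sum_fibN_E {K : Type} [Fintype K] {s : ℕ} {X : Fin s → Type} [∀ j, Fintype (X j)]
    (f : ∀ j, X j → K) (F : (Fin s → K) → ℕ) :
    ∑ x : ∀ j, X j, F (fun j => f j (x j)) = ∑ y : Fin s → K, F y *
      ∏ j, Nat.card {x : X j // f j x = y j} := by
  rw [sum_fib_I (fun x : ∀ j, X j => fun j => f j (x j)) F]
  refine Finset.sum_congr rfl fun y _ => ?_
  rw [mul_comm, ← Nat.card_pi]
  congr 1
  refine Nat.card_congr ?_
  refine (Equiv.subtypeEquivRight fun x => ?_).trans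
    (Equiv.subtypePiEquivPi (p := fun j (x : X j) => f j x = y j))
  exact funext_iff

/-- numbers of solutions as weighted numbers of zeros -/
theorem ys_wn {s r : ℕ} {κ : Fin s → Type} [∀ q, Finite (κ q)] (E : ∀ q, Fam n (κ q))
    (M : Fin r → Fin s → ℕ) (p : ℕ) [Fact p.Prime] (v : Fin n → ℕ) (t : ZMod p)
    (c : Fin r → ZMod p) :
    Nat.card {x : ∀ q, κ q → ZMod p // ∑ i, c i * ∏ q, E q v (ZMod p) t (x q) ^ M i q = 0} =
      YS M c (fun q => Wn (E q) p v t) := by
  classical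
  have _ : ∀ j, Fintype (κ j) := fun j => Fintype.ofFinite _
  rw [Nat.card_eq_fintype_card, Fintype.card_subtype, Finset.card_filter]
  have h2 := sum_fibN_E (K := ZMod p) (fun j (x : κ j → ZMod p) => E j v (ZMod p) t x)
    fun y => if ∑ i, c i * ∏ j, y j ^ M i j = 0 then 1 else 0
  rw [h2]
  unfold YS
  refine Finset.sum_congr rfl fun y _ => ?_
  by_cases h3 : ∑ i, c i * ∏ j, y j ^ M i j = 0
  · rw [if_pos h3, if_pos h3, one_mul]
    rfl
  · rw [if_neg h3, if_neg h3, zero_mul]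

/-- the indicator of the classes of polynomials at `z` -/
private theorem sm_cl_E {s d N : ℕ} (h : Fin (N + 1)) {g : ℕ → ℕ}
    (hg : DFun 1 (fun w => g (w 0))) (f : (Fin s → Fin (d + 1)) → (Fin n → ℕ) → ℕ)
    (hf : ∀ e, DFun n (f e)) : haveI := Classical.propDecidable
    SM (κ := Fin s) (n := n) (fun p _ v z =>
      if Cl N h (ZMod p) ![sval (fun e => f e v) z, (g p : ZMod p)] then 1 else 0) := by
  classical
  have h1 : PRQ (fun K _ (x : Fin s ⊕ ((Fin s → Fin (d + 1)) ⊕ Unit) → K) => Cl N h K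
      ![∑ e : Fin s → Fin (d + 1), x (Sum.inr (Sum.inl e)) * ∏ i, x (Sum.inl i) ^ (e i : ℕ),
        x (Sum.inr (Sum.inr ()))]) := by
    refine ((cl_prq N h).comp (G := ![fun K _ (x : Fin s ⊕ ((Fin s → Fin (d + 1)) ⊕ Unit) → K) =>
      ∑ e : Fin s → Fin (d + 1), x (Sum.inr (Sum.inl e)) * ∏ i, x (Sum.inl i) ^ (e i : ℕ),
      fun K _ (x : Fin s ⊕ ((Fin s → Fin (d + 1)) ⊕ Unit) → K) => x (Sum.inr (Sum.inr ()))])
      (fun j => ?_)).congr fun K _ x => ?_
    · fin_cases j
      · refine PRF.sum Finset.univ (F := fun (e : Fin s → Fin (d + 1)) (K : Type) [Field K]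
          (x : Fin s ⊕ ((Fin s → Fin (d + 1)) ⊕ Unit) → K) =>
          x (Sum.inr (Sum.inl e)) * ∏ i, x (Sum.inl i) ^ (e i : ℕ)) fun e _ => ?_
        refine PRF.mul (PRF.var _) ?_
        exact PRF.prod Finset.univ (F := fun (i : Fin s) (K : Type) [Field K]
          (x : Fin s ⊕ ((Fin s → Fin (d + 1)) ⊕ Unit) → K) => x (Sum.inl i) ^ (e i : ℕ))
          fun i _ => (PRF.var _).pow _
      · exact PRF.var _
    · refine iff_of_eq (congrArg (Cl N h K) ?_)
      funext j
      fin_cases j <;> rfl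
  refine (SM.ind h1 (q := Sum.elim (fun e _ v => f e v) fun _ p _ => g p) (by
    rintro (e | e)
    · exact DV.par (hf e)
    · exact DV.one hg)).congr fun p _ v z => ?_
  rfl

open scoped Classical in
theorem e_local {b s d r k : ℕ} {c : Fin b → Fin r → (Fin s → Fin (d + 1)) → (Fin n → ℕ) → ℕ}
    (hc : ∀ l i e, DFun n (c l i e)) {R T : Fin k → ℕ} {κ : ∀ j, Fin (T j) → Type}
    [∀ j q, Finite (κ j q)] {E : ∀ j q, Fam n (κ j q)} (hE : ∀ j q, Ind (E j q))
    {M : ∀ j, Fin (R j) → Fin (T j) → ℕ}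
    (hM : ∀ j, AffineIndependent ℚ (fun i : Fin (R j) => fun q : Fin (T j) => (M j i q : ℚ)))
    {a : ∀ j, Fin (R j) → (Fin n → ℕ) → ℕ} (ha : ∀ j i, DFun n (a j i))
    {f : ∀ j, Fin (R j) → Fin b → (Fin s → Fin (d + 1)) → (Fin n → ℕ) → ℕ}
    (hf : ∀ j i l e, DFun n (f j i l e)) :
    ∃ F : ℕ → (Fin n → ℕ) → ℕ, DV F ∧ ∀ (p : ℕ) [Fact p.Prime] (v : Fin n → ℕ),
      (∀ l, Cv p (fun i e => c l i e v)) → F p v =
        Nat.card {y : (Fin b → Fin s → ZMod p) × (∀ j q, κ j q → ZMod p) //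
          (∀ l i, sval (fun e => c l i e v) (y.1 l) = 0) ∧ ∀ j, ∑ i, ((a j i v : ZMod p) *
            ∏ l, sval (fun e => f j i l e v) (y.1 l)) *
              ∏ q, E j q v (ZMod p) 0 (y.2 j q) ^ M j i q = 0} := by
  choose N hN hinv hsm using fun j => ys_ind (hE j) (hM j)
  obtain ⟨N', hN', hdvd⟩ : ∃ N' : ℕ, 0 < N' ∧ ∀ j, N j ∣ N' :=
    ⟨∏ j, N j, Finset.prod_pos fun j _ => hN j,
      fun j => Finset.dvd_prod_of_mem N (Finset.mem_univ j)⟩
  obtain ⟨g, hg, hG⟩ := gen_def N' hN'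
  -- the numbers at representatives
  have hA : ∀ (h : (Σ j, Fin (R j)) → Fin b → Fin (N' + 1)) (j : Fin k),
      ∃ A : ℕ → (Fin n → ℕ) → ℕ, DV A ∧ ∀ (p : ℕ) [Fact p.Prime] (v : Fin n → ℕ), A p v =
        YS (M j) (fun i => (a j i v : ZMod p) * ∏ l, (rp (h ⟨j, i⟩ l) (g p : ZMod p) : ZMod p))
          (fun q => Wn (E j q) p v 0) := by
    intro h j
    obtain ⟨A, hA, hA'⟩ := (hsm j (fun i p v => a j i v * ∏ l, rp (h ⟨j, i⟩ l) (g p))
      (fun i => (DV.par (ha j i)).mul (DV.prod Finset.univ fun l => rp_dv _ (DV.one hg)))).eval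
      (q := fun _ _ _ => 0) fun _ => DV.const 0
    refine ⟨A, hA, fun p _ v => ?_⟩
    rw [hA' p v]
    simp only [Nat.cast_mul, Nat.cast_prod, rp_cast, Nat.cast_zero]
  choose A hA hA' using hA
  -- the numbers of points of the curves
  have hB : ∀ (h : (Σ j, Fin (R j)) → Fin b → Fin (N' + 1)) (l : Fin b),
      ∃ B : ℕ → (Fin n → ℕ) → ℕ, DV B ∧ ∀ (p : ℕ) [Fact p.Prime] (v : Fin n → ℕ),
        Cv p (fun i e => c l i e v) → B p v = ∑ z : Fin s → ZMod p,
          if ∀ i, sval (fun e => c l i e v) z = 0 then (if ∀ x : (Σ j, Fin (R j)),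
            Cl N' (h x l) (ZMod p) ![sval (fun e => f x.1 x.2 l e v) z, (g p : ZMod p)] then 1
              else 0) else 0 := by
    intro h l
    have h1 : SM (κ := Fin s) (n := n) (fun p _ v z => ∏ x : (Σ j, Fin (R j)),
        if Cl N' (h x l) (ZMod p) ![sval (fun e => f x.1 x.2 l e v) z, (g p : ZMod p)] then 1
          else 0) :=
      SM.prod Finset.univ fun x => sm_cl_E (h x l) hg (f x.1 x.2 l) (hf x.1 x.2 l)
    obtain ⟨B, hB, hB'⟩ := SM.curve (c l) (hc l) h1
    refine ⟨B, hB, fun p _ v hv => ?_⟩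
    rw [hB' p v hv]
    refine Finset.sum_congr rfl fun z _ => ?_
    refine if_congr Iff.rfl ?_ rfl
    by_cases h2 : ∀ x : (Σ j, Fin (R j)),
        Cl N' (h x l) (ZMod p) ![sval (fun e => f x.1 x.2 l e v) z, (g p : ZMod p)]
    · rw [if_pos h2]
      exact Finset.prod_eq_one fun x _ => if_pos (h2 x)
    · rw [if_neg h2]
      push Not at h2
      obtain ⟨x, hx⟩ := h2
      exact Finset.prod_eq_zero (Finset.mem_univ x) (if_neg hx)
  choose B hB hB' using hB
  refine ⟨fun p v => ∑ h : (Σ j, Fin (R j)) → Fin b → Fin (N' + 1),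
    (∏ j, A h j p v) * ∏ l, B h l p v, DV.sum Finset.univ fun h =>
      (DV.prod Finset.univ (hA h)).mul (DV.prod Finset.univ (hB h)), fun p _ v hv => ?_⟩
  have _ : ∀ j q, Fintype (κ j q) := fun j q => Fintype.ofFinite _
  -- the number of the points over `z`
  have h1 : Nat.card {y : (Fin b → Fin s → ZMod p) × (∀ j q, κ j q → ZMod p) //
          (∀ l i, sval (fun e => c l i e v) (y.1 l) = 0) ∧ ∀ j, ∑ i, ((a j i v : ZMod p) *
            ∏ l, sval (fun e => f j i l e v) (y.1 l)) *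
              ∏ q, E j q v (ZMod p) 0 (y.2 j q) ^ M j i q = 0} =
      ∑ z : Fin b → Fin s → ZMod p, if ∀ l, ∀ i, sval (fun e => c l i e v) (z l) = 0 then
        ∏ j, YS (M j) (fun i => (a j i v : ZMod p) * ∏ l, sval (fun e => f j i l e v) (z l))
          (fun q => Wn (E j q) p v 0) else 0 := by
    have e1 : {y : (Fin b → Fin s → ZMod p) × (∀ j q, κ j q → ZMod p) //
          (∀ l i, sval (fun e => c l i e v) (y.1 l) = 0) ∧ ∀ j, ∑ i, ((a j i v : ZMod p) *
            ∏ l, sval (fun e => f j i l e v) (y.1 l)) *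
              ∏ q, E j q v (ZMod p) 0 (y.2 j q) ^ M j i q = 0} ≃
        Σ z : Fin b → Fin s → ZMod p, {x : ∀ j q, κ j q → ZMod p //
          (∀ l i, sval (fun e => c l i e v) (z l) = 0) ∧ ∀ j, ∑ i, ((a j i v : ZMod p) *
            ∏ l, sval (fun e => f j i l e v) (z l)) *
              ∏ q, E j q v (ZMod p) 0 (x j q) ^ M j i q = 0} :=
      { toFun := fun y => ⟨y.1.1, y.1.2, y.2⟩
        invFun := fun w => ⟨(w.1, w.2.1), w.2.2⟩
        left_inv := fun _ => rfl
        right_inv := fun _ => rfl }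
    rw [Nat.card_congr e1, Nat.card_sigma]
    refine Finset.sum_congr rfl fun z _ => ?_
    by_cases hz : ∀ l i, sval (fun e => c l i e v) (z l) = 0
    · rw [if_pos hz]
      have e2 : {x : ∀ j q, κ j q → ZMod p //
          (∀ l i, sval (fun e => c l i e v) (z l) = 0) ∧ ∀ j, ∑ i, ((a j i v : ZMod p) *
            ∏ l, sval (fun e => f j i l e v) (z l)) *
              ∏ q, E j q v (ZMod p) 0 (x j q) ^ M j i q = 0} ≃
          ∀ j, {x : ∀ q, κ j q → ZMod p // ∑ i, ((a j i v : ZMod p) *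
            ∏ l, sval (fun e => f j i l e v) (z l)) *
              ∏ q, E j q v (ZMod p) 0 (x q) ^ M j i q = 0} :=
        { toFun := fun x j => ⟨x.1 j, x.2.2 j⟩
          invFun := fun w => ⟨fun j => (w j).1, hz, fun j => (w j).2⟩
          left_inv := fun _ => rfl
          right_inv := fun _ => rfl }
      rw [Nat.card_congr e2, Nat.card_pi]
      exact Finset.prod_congr rfl fun j _ => ys_wn (E j) (M j) p v 0 _
    · rw [if_neg hz]
      have : IsEmpty {x : ∀ j q, κ j q → ZMod p //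
          (∀ l i, sval (fun e => c l i e v) (z l) = 0) ∧ ∀ j, ∑ i, ((a j i v : ZMod p) *
            ∏ l, sval (fun e => f j i l e v) (z l)) *
              ∏ q, E j q v (ZMod p) 0 (x j q) ^ M j i q = 0} := ⟨fun x => hz x.2.1⟩
      exact Nat.card_of_isEmpty
  rw [h1]
  have h2 := split_E (K := ZMod p) (Z := Fin s → ZMod p) hN' (hG p) (α := Σ j, Fin (R j))
    (fun l z => ∀ i, sval (fun e => c l i e v) z = 0) (fun x => (a x.1 x.2 v : ZMod p))
    (fun x l z => sval (fun e => f x.1 x.2 l e v) z)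
    (fun C => ∏ j, YS (M j) (fun i => C ⟨j, i⟩) (fun q => Wn (E j q) p v 0))
    (fun C ζ hζ => Finset.prod_congr rfl fun j _ => hinv j N' (hdvd j) p v 0 (fun i => C ⟨j, i⟩)
      (fun i => ζ ⟨j, i⟩) fun i => hζ _)
  refine Eq.trans ?_ h2.symm
  refine Finset.sum_congr rfl fun h _ => ?_
  simp only [hA']
  congr 1
  exact Finset.prod_congr rfl fun l _ => hB' h l p v (hv l)

end Pool.Agent.IsoC
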