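import Pool.Agent.IsoC.Sm
import Pool.Agent.CvQ.SysR

/-!
# From prime moduli to squarefree moduli, with a first-order condition in the ring

`fo_top`: a system of equations in unknowns `x i`, `i : ι`, compatible with ring homomorphisms; `x (bp j)`, `j < s`, the base
point. If for every first-order relation `θ` the number of the solutions modulo `p` with `θ` for the base point is definable
for `p` with the property `Gd p v`, then the number of the solutions in `ZMod (m v)` for whose base point the first-order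
formula `φ` holds in the ring `ZMod (m v)`, `m v` squarefree and `Gd p v` for all primes `p` dividing `m v`, is definable
(Feferman-Vaught normal form `CvQ.rf_fv`, `CvQ.cw_count`, `CvQ.cw_def`).
-/

set_option autoImplicit false

noncomputable section

namespace Pool.Agent.IsoC

open Finset Polynomial Pool.Agent.PRc Pool.Agent.Grz Pool.Agent.CvS FirstOrder

/-- the first-order formula holds in the ring `R` for the elements `x` -/
def Hd {α : Type} (φ : Language.ring.Formula α) (R : Type) [CommRing R] (x : α → R) : Prop :=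
  letI := FirstOrder.Ring.compatibleRingOfRing R
  φ.Realize x

/-- systems of equations over all rings -/
abbrev Eqs (n : ℕ) (ι J : Type) : Type 1 :=
  J → (Fin n → ℕ) → ∀ (R : Type) [CommRing R], (ι → R) → R

/-- compatibility with ring homomorphisms -/
def EqHom {n : ℕ} {ι J : Type} (Q : Eqs n ι J) : Prop :=
  ∀ (j : J) (v : Fin n → ℕ) (R S : Type) [CommRing R] [CommRing S] (f : R →+* S) (x : ι → R),
    f (Q j v R x) = Q j v S (fun i => f (x i))

open scoped Classical in
private theorem card_box_F {ι : Type} {N m : ℕ} [NeZero m] (e : ι ≃ Fin N)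
    (P : (ι → ZMod m) → Prop) : Nat.card {x : ι → ZMod m // P x} =
      #{z ∈ Fintype.piFinset fun _ : Fin N => range m |
        P (fun i => ((z (e i) : ℕ) : ZMod m))} := by
  rw [← Fintype.card_coe, ← Nat.card_eq_fintype_card]
  refine Nat.card_congr
    { toFun := fun x => ⟨fun i => (x.1 (e.symm i)).val, ?_⟩
      invFun := fun z => ⟨fun i => ((z.1 (e i) : ℕ) : ZMod m), ?_⟩
      left_inv := fun x => ?_
      right_inv := fun z => ?_ }
  · rw [mem_filter, Fintype.mem_piFinset]
    refine ⟨fun i => mem_range.2 (ZMod.val_lt _), ?_⟩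
    have h1 : (fun i => (((x.1 (e.symm (e i))).val : ℕ) : ZMod m)) = x.1 := by
      funext i
      rw [Equiv.symm_apply_apply, ZMod.natCast_zmod_val]
    rw [h1]
    exact x.2
  · exact (mem_filter.1 z.2).2
  · apply Subtype.ext
    funext i
    show (((x.1 (e.symm (e i))).val : ℕ) : ZMod m) = x.1 i
    rw [Equiv.symm_apply_apply, ZMod.natCast_zmod_val]
  · apply Subtype.ext
    funext i
    show (((z.1 (e (e.symm i)) : ℕ) : ZMod m)).val = z.1 i
    rw [Equiv.apply_symm_apply]
    exact ZMod.val_cast_of_lt (mem_range.1 (Fintype.mem_piFinset.1 (mem_filter.1 z.2).1 i))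

private theorem fp_mod_F {ι : Type} {p : ℕ} (θ : FR ι) {x y : ι → ℕ}
    (h : ∀ i, x i ≡ y i [MOD p]) : CvQ.FP θ p x ↔ CvQ.FP θ p y := by
  unfold CvQ.FP
  refine exists_congr fun hp => ?_
  have := Fact.mk hp
  have h2 : (fun i => (x i : ZMod p)) = fun i => (y i : ZMod p) :=
    funext fun i => (ZMod.natCast_eq_natCast_iff _ _ _).2 (h i)
  exact iff_of_eq (congrArg (θ (ZMod p)) h2)

private theorem fp_iff_F {ι : Type} (p : ℕ) [Fact p.Prime] (θ : FR ι) (x : ι → ℕ) :
    CvQ.FP θ p x ↔ θ (ZMod p) (fun i => (x i : ZMod p)) :=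
  ⟨fun ⟨_, h⟩ => h, fun h => ⟨Fact.out, h⟩⟩

private theorem sqf_F {n : ℕ} {f : (Fin n → ℕ) → ℕ} (hf : DFun n f) :
    Delta0 n (fun v => Squarefree (f v)) := by
  have h1 : Delta0 (n + 1) (fun w => w 0 * w 0 ∣ f (fun i => w i.succ) → w 0 = 1) :=
    (ECD.delta_dvd ((DFun.proj 0).mul (DFun.proj 0)) hf.weak).imp
      (Delta0.eqFun (DFun.proj 0) (DFun.const 1))
  refine ((Delta0.ltFun (DFun.const 0) hf).and (Delta0.ballFun
    (P := fun x v => x * x ∣ f v → x = 1) hf h1)).of_iff fun v => ?_
  constructor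
  · intro h
    exact ⟨Nat.pos_of_ne_zero h.ne_zero, fun x _ hx => Nat.isUnit_iff.1 (h x hx)⟩
  · rintro ⟨h0, h⟩ x hx
    refine Nat.isUnit_iff.2 (h x ?_ hx)
    have h2 : x * x ≤ f v := Nat.le_of_dvd h0 hx
    exact (Nat.le_mul_self x).trans h2

private theorem cw_congr_F {K : ℕ} {P : Finset ℕ} {N N' : Fin K → ℕ → ℕ} (B : ℕ)
    (A : Set (Fin K → ℕ)) (h : ∀ i, ∀ p ∈ P, N i p = N' i p) :
    CvQ.CW P N B A = CvQ.CW P N' B A := by
  unfold CvQ.CW
  refine Finset.sum_congr rfl fun σ _ => ?_
  have h1 : ∏ p : P, N (σ p) p = ∏ p : P, N' (σ p) p :=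
    Finset.prod_congr rfl fun p _ => h _ _ p.2
  rw [h1]

/-- an element of `ZMod m` is zero if it is zero modulo all prime divisors -/
private theorem zero_iff_F {n : ℕ} {ι J : Type} {Q : Eqs n ι J} (hQ : EqHom Q) (j : J)
    (v : Fin n → ℕ) {m : ℕ} (hm : Squarefree m) (z : ι → ℕ) :
    Q j v (ZMod m) (fun i => (z i : ZMod m)) = 0 ↔
      ∀ p ∈ m.primeFactors, Q j v (ZMod p) (fun i => (z i : ZMod p)) = 0 := by
  have hne : NeZero m := ⟨hm.ne_zero⟩
  have hpm : ∀ p, p ∣ m → (ZMod.cast : ZMod m → ZMod p) (Q j v (ZMod m)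
      (fun i => (z i : ZMod m))) = Q j v (ZMod p) (fun i => (z i : ZMod p)) := by
    intro p hp
    have h1 := hQ j v _ _ (ZMod.castHom hp (ZMod p)) (fun i => (z i : ZMod m))
    rw [ZMod.castHom_apply] at h1
    rw [h1]
    refine congrArg (Q j v (ZMod p)) (funext fun i => ?_)
    rw [map_natCast]
  constructor
  · intro h p hp
    rw [← hpm p (Nat.dvd_of_mem_primeFactors hp), h, ZMod.cast_zero]
  · intro h
    have h2 : ∀ p ∈ m.primeFactors, p ∣ (Q j v (ZMod m) (fun i => (z i : ZMod m))).val := by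
      intro p hp
      rw [← ZMod.natCast_eq_zero_iff, ZMod.natCast_val, hpm p (Nat.dvd_of_mem_primeFactors hp)]
      exact h p hp
    have h3 : m ∣ (Q j v (ZMod m) (fun i => (z i : ZMod m))).val := by
      have h4 := Finset.prod_primes_dvd _ (fun p hp => (Nat.prime_of_mem_primeFactors hp).prime) h2
      rwa [Nat.prod_primeFactors_of_squarefree hm] at h4
    rw [← ZMod.natCast_zmod_val (Q j v (ZMod m) fun i => (z i : ZMod m)),
      ZMod.natCast_eq_zero_iff]
    exact h3

open scoped Classical in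
theorem fo_top {n k s : ℕ} {ι J : Type} [Finite ι] {Q : Eqs n ι J} (hQ : EqHom Q)
    (bp : Fin s → ι) {m : (Fin n → ℕ) → ℕ} (hm : DFun n m) {a : Fin k → (Fin n → ℕ) → ℕ}
    {Gd : ℕ → (Fin n → ℕ) → Prop} (hG : Delta0 (n + 1) (fun w => Gd (w 0) fun i => w i.succ))
    (hP : ∀ θ : FR (Fin s ⊕ Fin k), PRQ θ → ∃ F : ℕ → (Fin n → ℕ) → ℕ, DV F ∧
      ∀ (p : ℕ) [Fact p.Prime] (v : Fin n → ℕ), Gd p v → F p v =
        Nat.card {x : ι → ZMod p // (∀ j, Q j v (ZMod p) x = 0) ∧
          θ (ZMod p) (Sum.elim (fun i => x (bp i)) fun i => (a i v : ZMod p))})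
    (φ : Language.ring.Formula (Fin s ⊕ Fin k)) :
    DFun n (fun v => if Squarefree (m v) ∧ (∀ p, p.Prime → p ∣ m v → Gd p v) then
      Nat.card {x : ι → ZMod (m v) // (∀ j, Q j v (ZMod (m v)) x = 0) ∧
        Hd φ (ZMod (m v)) (Sum.elim (fun i => x (bp i)) fun i => (a i v : ZMod (m v)))} else 0) := by
  have _ : Fintype ι := Fintype.ofFinite ι
  set N : ℕ := Fintype.card ι with hN
  let e : ι ≃ Fin N := Fintype.equivFin ι
  obtain ⟨K, B, θ, A, hθ, hPr, hA⟩ := CvQ.rf_fv φ
  choose F hF hF' using fun i => hP (θ i) (hθ i)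
  have hm' : DFun n (fun v => if Squarefree (m v) then m v else 1) :=
    DFun.ite (sqf_F hm) hm (DFun.const 1)
  have hN' : ∀ i, DFun (n + 1) (fun w => (fun (i : Fin K) (q : ℕ) (v : Fin n → ℕ) =>
      if q.Prime ∧ Gd q v then F i q v else 0) i (w 0) (fun i => w i.succ)) := by
    intro i
    exact DFun.ite ((ECD.delta_prime (DFun.proj 0)).and hG) (hF i) (DFun.const 0)
  -- the partition
  have hsum : ∀ (q : ℕ) (v : Fin n → ℕ),
      ∑ i, (if q.Prime ∧ Gd q v then F i q v else 0) ≤ q ^ N := by
    intro q v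
    by_cases h : q.Prime ∧ Gd q v
    · simp only [if_pos h]
      have := Fact.mk h.1
      have e1 : ∀ i, F i q v = Nat.card {x : ι → ZMod q // (∀ j, Q j v (ZMod q) x = 0) ∧
          θ i (ZMod q) (Sum.elim (fun i => x (bp i)) fun i => (a i v : ZMod q))} :=
        fun i => hF' i q v h.2
      simp only [e1]
      rw [← Nat.card_sigma]
      have hinj : Function.Injective (fun y : (Σ i : Fin K, {x : ι → ZMod q //
          (∀ j, Q j v (ZMod q) x = 0) ∧
          θ i (ZMod q) (Sum.elim (fun i => x (bp i)) fun i => (a i v : ZMod q))}) => y.2.1) := by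
        rintro ⟨i, x, hx, hi⟩ ⟨i', x', hx', hi'⟩ hxx
        obtain rfl : x = x' := hxx
        obtain rfl : i = i' := (hPr (ZMod q) _).unique hi hi'
        rfl
      refine (Nat.card_le_card_of_injective _ hinj).trans ?_
      rw [Nat.card_eq_fintype_card, Fintype.card_fun, ZMod.card]
    · simp only [if_neg h, Finset.sum_const_zero]
      exact Nat.zero_le _
  have hb : ∀ v : Fin n → ℕ, ∏ q ∈ (if Squarefree (m v) then m v else 1).primeFactors,
      ∑ i, (if q.Prime ∧ Gd q v then F i q v else 0) ≤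
        (if Squarefree (m v) then m v else 1) ^ N := by
    intro v
    have h0 : (if Squarefree (m v) then m v else 1) ≠ 0 := by
      split_ifs with h1
      · exact h1.ne_zero
      · exact one_ne_zero
    calc ∏ q ∈ (if Squarefree (m v) then m v else 1).primeFactors,
          ∑ i, (if q.Prime ∧ Gd q v then F i q v else 0)
        ≤ ∏ q ∈ (if Squarefree (m v) then m v else 1).primeFactors, q ^ N :=
          Finset.prod_le_prod' fun q _ => hsum q v
      _ = (∏ q ∈ (if Squarefree (m v) then m v else 1).primeFactors, q) ^ N :=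
          Finset.prod_pow _ _ _
      _ ≤ (if Squarefree (m v) then m v else 1) ^ N :=
          Nat.pow_le_pow_left (Nat.le_of_dvd (Nat.pos_of_ne_zero h0)
            (Nat.prod_primeFactors_dvd _)) N
  have h2 := CvQ.cw_def (m := fun v => if Squarefree (m v) then m v else 1)
    (Bd := fun v => (if Squarefree (m v) then m v else 1) ^ N)
    (N := fun (i : Fin K) (q : ℕ) (v : Fin n → ℕ) => if q.Prime ∧ Gd q v then F i q v else 0)
    hN' hm' (PTr.DFun.powConst hm' N) hb B A
  have h3 : Delta0 (n + 1) (fun w => (w 0).Prime → w 0 ∣ m (fun i => w i.succ) →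
      Gd (w 0) fun i => w i.succ) :=
    (ECD.delta_prime (DFun.proj 0)).imp ((ECD.delta_dvd (DFun.proj 0) hm.weak).imp hG)
  have h4 : Delta0 n (fun v => Squarefree (m v) ∧ (∀ p, p.Prime → p ∣ m v → Gd p v)) := by
    refine ((sqf_F hm).and (Delta0.ballFun (P := fun x v => x.Prime → x ∣ m v →
      Gd x v) hm h3)).of_iff fun v => ?_
    refine and_congr_right fun hs => ?_
    constructor
    · intro h3 p _
      exact h3 p
    · intro h3 p hp hd
      exact h3 p (Nat.le_of_dvd (Nat.pos_of_ne_zero hs.ne_zero) hd) hp hd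
  have key : ∀ v, Squarefree (m v) → (∀ p, p.Prime → p ∣ m v → Gd p v) →
      Nat.card {x : ι → ZMod (m v) // (∀ j, Q j v (ZMod (m v)) x = 0) ∧
        Hd φ (ZMod (m v)) (Sum.elim (fun i => x (bp i)) fun i => (a i v : ZMod (m v)))} =
      CvQ.CW (m v).primeFactors (fun i q => if q.Prime ∧ Gd q v then F i q v else 0) B A := by
    intro v hs hg
    have hne : NeZero (m v) := ⟨hs.ne_zero⟩
    rw [card_box_F e]
    have h5 := CvQ.cw_count (n := N) hs
      (fun p z => ∀ j, Q j v (ZMod p) (fun i => ((z (e i) : ℕ) : ZMod p)) = 0)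
      (fun i p z => CvQ.FP (θ i) p (Sum.elim (fun i => z (e (bp i))) fun i => a i v))
      (fun p z z' h => by
        have h6 : (fun i => ((z (e i) : ℕ) : ZMod p)) = fun i => ((z' (e i) : ℕ) : ZMod p) :=
          funext fun i => (ZMod.natCast_eq_natCast_iff _ _ _).2 (h (e i))
        rw [h6])
      (fun i p z z' h => fp_mod_F (θ i) fun j => by
        rcases j with j | j
        · exact h _
        · exact Nat.ModEq.refl _)
      (fun p hp z => by
        have := Fact.mk hp
        obtain ⟨i, hi, hu⟩ := hPr (ZMod p)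
          (fun j => ((Sum.elim (fun i => z (e (bp i))) (fun i => a i v) j : ℕ) : ZMod p))
        exact ⟨i, (fp_iff_F p (θ i) _).2 hi, fun j hj => hu j ((fp_iff_F p (θ j) _).1 hj)⟩) B A
    have h7 : #{z ∈ Fintype.piFinset fun _ : Fin N => range (m v) |
        (∀ j, Q j v (ZMod (m v)) (fun i => ((z (e i) : ℕ) : ZMod (m v))) = 0) ∧
        Hd φ (ZMod (m v)) (Sum.elim (fun i => ((z (e (bp i)) : ℕ) : ZMod (m v)))
          fun i => (a i v : ZMod (m v)))} =
        #{z ∈ Fintype.piFinset fun _ : Fin N => range (m v) |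
        (∀ p ∈ (m v).primeFactors, ∀ j, Q j v (ZMod p) (fun i => ((z (e i) : ℕ) : ZMod p)) = 0) ∧
        (fun i => min B #{p ∈ (m v).primeFactors |
          CvQ.FP (θ i) p (Sum.elim (fun i => z (e (bp i))) fun i => a i v)}) ∈ A} := by
      refine congrArg card (Finset.filter_congr fun z _ => and_congr ?_ ?_)
      · constructor
        · intro h p hp j
          exact (zero_iff_F hQ j v hs fun i => z (e i)).1 (h j) p hp
        · intro h j
          exact (zero_iff_F hQ j v hs fun i => z (e i)).2 fun p hp => h p hp j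
      · have h8 := hA (m v) hs (Sum.elim (fun i => z (e (bp i))) fun i => a i v)
        refine Iff.trans ?_ h8
        unfold Hd CvQ.rf
        have h9 : (Sum.elim (fun i => ((z (e (bp i)) : ℕ) : ZMod (m v)))
            fun i => (a i v : ZMod (m v))) = fun i =>
            ((Sum.elim (fun i => z (e (bp i))) (fun i => a i v) i : ℕ) : ZMod (m v)) := by
          funext i
          rcases i with i | i <;> rfl
        rw [h9]
    refine Eq.trans ?_ (h7.trans (Eq.trans ?_ (h5.trans (cw_congr_F B A fun i p hp => ?_))))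
    · congr
    · congr
    · have hpp := Nat.prime_of_mem_primeFactors hp
      have := Fact.mk hpp
      have hgp := hg p hpp (Nat.dvd_of_mem_primeFactors hp)
      rw [if_pos ⟨hpp, hgp⟩, hF' i p v hgp, card_box_F e]
      refine congrArg card (Finset.ext fun z => ?_)
      simp only [mem_filter]
      refine and_congr Iff.rfl (and_congr Iff.rfl ?_)
      rw [fp_iff_F]
      refine iff_of_eq (congrArg (θ i (ZMod p)) ?_)
      funext j
      rcases j with j | j <;> rfl
  have e9 : (fun v => if Squarefree (m v) ∧ (∀ p, p.Prime → p ∣ m v → Gd p v) then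
      Nat.card {x : ι → ZMod (m v) // (∀ j, Q j v (ZMod (m v)) x = 0) ∧
        Hd φ (ZMod (m v)) (Sum.elim (fun i => x (bp i)) fun i => (a i v : ZMod (m v)))} else 0) =
      fun v => if Squarefree (m v) ∧ (∀ p, p.Prime → p ∣ m v → Gd p v) then
        CvQ.CW (if Squarefree (m v) then m v else 1).primeFactors
          (fun i q => if q.Prime ∧ Gd q v then F i q v else 0) B A else 0 := by
    funext v
    by_cases h5 : Squarefree (m v) ∧ (∀ p, p.Prime → p ∣ m v → Gd p v)
    · rw [if_pos h5, if_pos h5, if_pos h5.1]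
      exact key v h5.1 h5.2
    · rw [if_neg h5, if_neg h5]
  rw [e9]
  exact DFun.ite h4 h2 (DFun.const 0)

end Pool.Agent.IsoC
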