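import Pool.Agent.IsoC.Ind

/-!
# Linear combinations

`iw_sum`, `iw_smul`: sums and multiples of `IW` families; `iw_lin`: numbers of the `z` with `∑ c i (t) * z i = u`, weighted
with `∏ V i t (z i)`.
-/

set_option autoImplicit false

noncomputable section

namespace Pool.Agent.IsoC

open Finset Polynomial Pool.Agent.PRc Pool.Agent.Grz Pool.Agent.CvS

variable {n : ℕ}

theorem iw_zero : IW (n := n) (fun _ _ _ _ _ => 0) :=
  ⟨1, one_pos, fun _ _ _ _ _ _ _ => rfl, SM.const (DV.const 0)⟩

theorem iw_plus {W W' : WT n} (h : IW W) (h' : IW W') :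
    IW (fun p _ v t u => W p v t u + W' p v t u) := by
  obtain ⟨N₁, hN₁, hC₁, hS₁⟩ := h
  obtain ⟨N₂, hN₂, hC₂, hS₂⟩ := h'
  refine ⟨N₁ * N₂, Nat.mul_pos hN₁ hN₂, fun p _ v t s y hy => ?_, hS₁.add hS₂⟩
  beta_reduce
  rw [cc_mono (hC₁ p v t) (dvd_mul_right N₁ N₂) s y hy,
    cc_mono (hC₂ p v t) (dvd_mul_left N₂ N₁) s y hy]

theorem iw_sum {α : Type} (A : Finset α) {W : α → WT n} (h : ∀ a, IW (W a)) :
    IW (fun p _ v t u => ∑ a ∈ A, W a p v t u) := by
  classical
  induction A using Finset.induction_on with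
  | empty => exact iw_zero.congr fun p _ v t u => by simp
  | insert a s ha ih =>
    refine (iw_plus (h a) ih).congr fun p _ v t u => ?_
    rw [Finset.sum_insert ha]

theorem iw_smul {W : WT n} (h : IW W) {f : ∀ (p : ℕ) [Fact p.Prime], (Fin n → ℕ) → ZMod p → ℕ}
    (hf : SM (κ := Fin 2) (fun p _ v x => f p v (x 0))) :
    IW (fun p _ v t u => f p v t * W p v t u) := by
  obtain ⟨N, hN, hC, hS⟩ := h
  refine ⟨N, hN, fun p _ v t s y hy => ?_, hf.mul hS⟩
  beta_reduce
  rw [hC p v t s y hy]

/-- the indicator of `0` -/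
theorem iw_delta : IW (n := n) (fun _ _ _ _ u => if u = 0 then 1 else 0) := by
  classical
  refine ⟨1, one_pos, fun p _ v t s y hy => ?_, ?_⟩
  · beta_reduce
    refine if_congr ?_ rfl rfl
    rw [pow_one, mul_eq_zero, or_iff_left hy]
  · refine (SM.ind (κ := Fin 2) (l := Empty) (R := fun K _ x => x (Sum.inl 1) = 0)
      (PRQ.eq (PRF.var _) PRF.zero) (q := fun i => i.elim) fun i => i.elim).congr fun p _ v x => ?_
    by_cases h : x 1 = 0 <;> simp [h]

/-- the indicator of a class -/
theorem iw_cl {N : ℕ} (hN : 0 < N) (i : Fin (N + 1)) {g : ℕ → ℕ} (hg : DFun 1 (fun w => g (w 0)))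
    (hC : ∀ (K : Type) [Field K] (s y c : K), y ≠ 0 → (Cl N i K ![s * y ^ N, c] ↔ Cl N i K ![s, c])) :
    haveI := Classical.propDecidable
    IW (n := n) (fun p _ _ _ u => if Cl N i (ZMod p) ![u, (g p : ZMod p)] then 1 else 0) := by
  classical
  refine ⟨N, hN, fun p _ v t s y hy => ?_, ?_⟩
  · beta_reduce
    exact if_congr (hC _ s y _ hy) rfl rfl
  · have h1 : PRQ (fun K _ (x : Fin 2 ⊕ Unit → K) => Cl N i K ![x (Sum.inl 1), x (Sum.inr ())]) := by
      refine ((cl_prq N i).comp (G := ![fun K _ (x : Fin 2 ⊕ Unit → K) => x (Sum.inl 1),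
        fun K _ (x : Fin 2 ⊕ Unit → K) => x (Sum.inr ())]) (fun j => ?_)).congr fun K _ x => ?_
      · fin_cases j
        · exact PRF.var _
        · exact PRF.var _
      · refine iff_of_eq (congrArg (Cl N i K) ?_)
        funext j
        fin_cases j <;> rfl
    exact (SM.ind h1 (q := fun _ : Unit => fun p _ => g p) fun _ => DV.one hg)

open scoped Classical in
theorem sum_fib2 {K X : Type} [Fintype K] [Fintype X] (f : X → K) (A : X → ℕ) (G : K → ℕ) :
    ∑ s : K, G s * ∑ x : X, (if f x = s then A x else 0) = ∑ x : X, G (f x) * A x := by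
  simp only [Finset.mul_sum]
  rw [Finset.sum_comm]
  refine Finset.sum_congr rfl fun x _ => ?_
  simp only [mul_ite, mul_zero]
  rw [Finset.sum_ite_eq Finset.univ (f x) fun s => G s * A x, if_pos (Finset.mem_univ _)]

open scoped Classical in
private theorem conv_L {K X Y : Type} [Fintype K] [Add K] [Fintype X] [Fintype Y] (f : X → K)
    (g : Y → K) (A : X → ℕ) (B : Y → ℕ) (u : K) :
    ∑ s : K, ∑ s' : K, (if s + s' = u then
      (∑ x : X, if f x = s then A x else 0) * (∑ y : Y, if g y = s' then B y else 0) else 0) =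
      ∑ x : X, ∑ y : Y, if f x + g y = u then A x * B y else 0 := by
  have h1 : ∀ s : K, ∑ s' : K, (if s + s' = u then
      (∑ x : X, if f x = s then A x else 0) * (∑ y : Y, if g y = s' then B y else 0) else 0) =
      (∑ y : Y, (if s + g y = u then 1 else 0) * B y) * (∑ x : X, if f x = s then A x else 0) := by
    intro s
    rw [← sum_fib2 g B fun s' => if s + s' = u then 1 else 0, Finset.sum_mul]
    refine Finset.sum_congr rfl fun s' _ => ?_
    by_cases h : s + s' = u
    · rw [if_pos h, if_pos h, one_mul, mul_comm]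
    · rw [if_neg h, if_neg h, zero_mul, zero_mul]
  simp only [h1]
  rw [sum_fib2 f A fun s => ∑ y : Y, (if s + g y = u then 1 else 0) * B y]
  refine Finset.sum_congr rfl fun x _ => ?_
  rw [Finset.sum_mul]
  refine Finset.sum_congr rfl fun y _ => ?_
  by_cases h : f x + g y = u
  · rw [if_pos h, if_pos h, one_mul, mul_comm]
  · rw [if_neg h, if_neg h, zero_mul, zero_mul]

/-- linear combinations of the unknowns -/
theorem iw_lin {l : Type} [Finite l] {q : l → ℕ → (Fin n → ℕ) → ℕ} (hq : ∀ i, DV (q i)) :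
    ∀ (r : ℕ) (V : Fin r → WT n) (c : Fin r → FF (Fin 1 ⊕ l)), (∀ i, IW (V i)) → (∀ i, PRF (c i)) →
      IW (fun p _ v t u => ∑ z : Fin r → ZMod p,
        if ∑ i, c i (ZMod p) (Sum.elim ![t] fun i => (q i p v : ZMod p)) * z i = u then
          ∏ i, V i p v t (z i) else 0) := by
  intro r
  induction r with
  | zero =>
    intro V c hV hc
    refine (iw_delta (n := n)).congr fun p _ v t u => ?_
    rw [Fintype.sum_unique]
    simp only [Finset.univ_eq_empty, Finset.sum_empty, Finset.prod_empty]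
    exact if_congr eq_comm rfl rfl
  | succ r ih =>
    intro V c hV hc
    have h1 := ih (fun i => V i.succ) (fun i => c i.succ) (fun i => hV i.succ) fun i => hc i.succ
    refine (iw_add (iw_scale (hV 0) (hc 0) hq) h1).congr fun p _ v t u => ?_
    classical
    rw [← Equiv.sum_comp (Fin.consEquiv fun _ : Fin (r + 1) => ZMod p), Fintype.sum_prod_type]
    have h2 := conv_L (fun z : ZMod p => c 0 (ZMod p) (Sum.elim ![t] fun i => (q i p v : ZMod p)) * z)
      (fun z : Fin r → ZMod p => ∑ i : Fin r,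
        c i.succ (ZMod p) (Sum.elim ![t] fun i => (q i p v : ZMod p)) * z i)
      (fun z => V 0 p v t z) (fun z => ∏ i : Fin r, V i.succ p v t (z i)) u
    have h3 : ∀ (x : ZMod p) (y : Fin r → ZMod p),
        (if ∑ i, c i (ZMod p) (Sum.elim ![t] fun i => (q i p v : ZMod p)) *
          (Fin.consEquiv fun _ : Fin (r + 1) => ZMod p) (x, y) i = u then
          ∏ i, V i p v t ((Fin.consEquiv fun _ : Fin (r + 1) => ZMod p) (x, y) i) else 0) =
        if c 0 (ZMod p) (Sum.elim ![t] fun i => (q i p v : ZMod p)) * x + ∑ i : Fin r,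
          c i.succ (ZMod p) (Sum.elim ![t] fun i => (q i p v : ZMod p)) * y i = u then
          V 0 p v t x * ∏ i : Fin r, V i.succ p v t (y i) else 0 := by
      intro x y
      rw [Fin.sum_univ_succ, Fin.prod_univ_succ]
      simp [Fin.consEquiv]
    simp only [h3]
    convert h2

end Pool.Agent.IsoC
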