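import Pool.Agent.IsoC.Sm

/-!
# Definable functions of several simple functions

`SM.part`: a simple function takes finitely many definable values, on the sets of a partition by
simple functions with values `0`, `1`; `SM.mapF`: a definable function of the values of finitely
many simple functions is simple.
-/

set_option autoImplicit false

noncomputable section

namespace Pool.Agent.IsoC

open Finset Polynomial Pool.Agent.PRc Pool.Agent.Grz Pool.Agent.CvS

variable {n : ℕ}

theorem SM.part {κ : Type} {w : WF n κ} (hw : SM w) :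
    ∃ (T : Type) (_ : Fintype T) (χ : T → WF n κ) (c : T → ℕ → (Fin n → ℕ) → ℕ),
      (∀ t, SM (χ t)) ∧ (∀ t, DV (c t)) ∧ ∀ (p : ℕ) [Fact p.Prime] (v : Fin n → ℕ)
        (x : κ → ZMod p), ∃ t₀, χ t₀ p v x = 1 ∧ (∀ t, t ≠ t₀ → χ t p v x = 0) ∧
          w p v x = c t₀ p v := by
  classical
  obtain ⟨J, l, _, _, q, R, c, hq, hR, hc, h⟩ := hw
  refine ⟨Finset J, inferInstance, fun A p _ v x => ∏ j, if j ∈ A then
        (if R j (ZMod p) (Sum.elim x fun i => (q i p v : ZMod p)) then 1 else 0) else
        (if ¬ R j (ZMod p) (Sum.elim x fun i => (q i p v : ZMod p)) then 1 else 0),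
    fun A p v => ∑ j ∈ A, c j p v, fun A => SM.prod Finset.univ fun j => ?_,
    fun A => DV.sum A hc, fun p _ v x => ?_⟩
  · by_cases hj : j ∈ A
    · simp only [if_pos hj]
      exact (SM.ind (hR j) hq).congr fun p _ v x => by congr
    · simp only [if_neg hj]
      exact (SM.ind (hR j).not hq).congr fun p _ v x => by congr
  · have hA' : ∀ j, j ∈ ({j | R j (ZMod p) (Sum.elim x fun i => (q i p v : ZMod p))} : Finset J) ↔
        R j (ZMod p) (Sum.elim x fun i => (q i p v : ZMod p)) := by
      intro j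
      rw [Finset.mem_filter]
      exact ⟨fun h => h.2, fun h => ⟨Finset.mem_univ _, h⟩⟩
    refine ⟨({j | R j (ZMod p) (Sum.elim x fun i => (q i p v : ZMod p))} : Finset J),
      ?_, ?_, ?_⟩
    · refine Finset.prod_eq_one fun j _ => ?_
      by_cases hj : R j (ZMod p) (Sum.elim x fun i => (q i p v : ZMod p))
      · rw [if_pos ((hA' j).2 hj), if_pos hj]
      · rw [if_neg fun h => hj ((hA' j).1 h), if_pos hj]
    · intro B hB
      have hex : ∃ j, ¬ (j ∈ B ↔
          j ∈ ({j | R j (ZMod p) (Sum.elim x fun i => (q i p v : ZMod p))} : Finset J)) := by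
        by_contra hcon
        push Not at hcon
        exact hB (Finset.ext hcon)
      obtain ⟨j, hj⟩ := hex
      refine Finset.prod_eq_zero (Finset.mem_univ j) ?_
      by_cases h2 : j ∈ B
      · have h3 : ¬ R j (ZMod p) (Sum.elim x fun i => (q i p v : ZMod p)) := fun h4 =>
          hj ⟨fun _ => (hA' j).2 h4, fun _ => h2⟩
        rw [if_pos h2, if_neg h3]
      · have h3 : R j (ZMod p) (Sum.elim x fun i => (q i p v : ZMod p)) := by
          by_contra h4
          exact hj ⟨fun h => absurd h h2, fun h => absurd ((hA' j).1 h) h4⟩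
        rw [if_neg h2, if_neg (not_not.2 h3)]
    · rw [h p v x]
      show _ = ∑ j ∈ ({j | R j (ZMod p) (Sum.elim x fun i => (q i p v : ZMod p))} : Finset J),
        c j p v
      rw [Finset.sum_filter]

theorem SM.mapF {κ I : Type} [Fintype I] {w : I → WF n κ} (hw : ∀ i, SM (w i))
    {Φ : ℕ → (Fin n → ℕ) → (I → ℕ) → ℕ}
    (hΦ : ∀ c : I → ℕ → (Fin n → ℕ) → ℕ, (∀ i, DV (c i)) →
      DV (fun p v => Φ p v (fun i => c i p v))) :
    SM (fun p _ v x => Φ p v (fun i => w i p v x)) := by
  classical
  choose T hT χ c hχ hc h using fun i => (hw i).part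
  refine (SM.sum Finset.univ fun t : ∀ i, T i =>
    (SM.prod Finset.univ fun i => hχ i (t i)).mul
      (SM.const (hΦ (fun i => c i (t i)) fun i => hc i (t i)))).congr fun p _ v x => ?_
  choose t₀ h1 h2 h3 using fun i => h i p v x
  rw [Finset.sum_eq_single t₀]
  · rw [Finset.prod_eq_one fun i _ => h1 i, one_mul]
    exact congrArg (Φ p v) (funext fun i => (h3 i).symm)
  · intro t _ ht
    obtain ⟨i, hi⟩ : ∃ i, t i ≠ t₀ i := by
      by_contra hcon
      push Not at hcon
      exact ht (funext hcon)
    rw [Finset.prod_eq_zero (Finset.mem_univ i) (h2 i (t i) hi), zero_mul]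
  · intro h4
    exact absurd (Finset.mem_univ _) h4

/-- functions of two simple functions -/
theorem SM.map2 {κ : Type} {w w' : WF n κ} (hw : SM w) (hw' : SM w')
    {Φ : ℕ → (Fin n → ℕ) → ℕ → ℕ → ℕ}
    (hΦ : ∀ c c' : ℕ → (Fin n → ℕ) → ℕ, DV c → DV c' → DV (fun p v => Φ p v (c p v) (c' p v))) :
    SM (fun p _ v x => Φ p v (w p v x) (w' p v x)) := by
  have h := SM.mapF (κ := κ) (I := Bool) (n := n) (w := fun b => cond b w w')
    (fun b => by cases b <;> assumption) (Φ := fun p v y => Φ p v (y true) (y false))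
    (fun c hc => hΦ _ _ (hc true) (hc false))
  exact h

end Pool.Agent.IsoC
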