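import Pool.Agent.IsoC.Defs

/-!
# Simple functions

Closure properties of `DV` and `SM`.
-/

set_option autoImplicit false

noncomputable section

namespace Pool.Agent.IsoC

open Finset Polynomial Pool.Agent.PRc Pool.Agent.Grz Pool.Agent.CvS

variable {n : ℕ} {κ : Type}

theorem DV.const (c : ℕ) : DV (n := n) (fun _ _ => c) := DFun.const c

theorem DV.pr : DV (n := n) (fun p _ => p) := DFun.proj 0

theorem DV.par {a : (Fin n → ℕ) → ℕ} (ha : DFun n a) : DV (fun _ v => a v) := ha.weak

theorem DV.one {g : ℕ → ℕ} (hg : DFun 1 (fun w => g (w 0))) : DV (n := n) (fun p _ => g p) :=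
  DFun.comp1 hg (DFun.proj 0)

theorem DV.add {f g : ℕ → (Fin n → ℕ) → ℕ} (hf : DV f) (hg : DV g) :
    DV (fun p v => f p v + g p v) := DFun.add hf hg

theorem DV.mul {f g : ℕ → (Fin n → ℕ) → ℕ} (hf : DV f) (hg : DV g) :
    DV (fun p v => f p v * g p v) := DFun.mul hf hg

theorem DV.pow {f : ℕ → (Fin n → ℕ) → ℕ} (hf : DV f) (k : ℕ) : DV (fun p v => f p v ^ k) :=
  PTr.DFun.powConst hf k

theorem DV.sum {α : Type} (s : Finset α) {f : α → ℕ → (Fin n → ℕ) → ℕ} (hf : ∀ a, DV (f a)) :
    DV (fun p v => ∑ a ∈ s, f a p v) := PTr.DFun.finSum s hf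

theorem DV.div {f g : ℕ → (Fin n → ℕ) → ℕ} (hf : DV f) (hg : DV g) :
    DV (fun p v => f p v / g p v) := by
  have h := DFun.ite (Delta0.eqFun hg (DFun.const 0)) (DFun.const 0)
    (DFun.div hf (DFun.sub hg (DFun.const 1)))
  have e : (fun w : Fin (n + 1) → ℕ => if (g (w 0) fun i => w i.succ) = 0 then 0 else
      (f (w 0) fun i => w i.succ) / ((g (w 0) fun i => w i.succ) - 1 + 1)) =
      fun w => (f (w 0) fun i => w i.succ) / (g (w 0) fun i => w i.succ) := by
    funext w
    split_ifs with h1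
    · rw [h1, Nat.div_zero]
    · rw [Nat.sub_add_cancel (Nat.one_le_iff_ne_zero.2 h1)]
  rw [e] at h
  exact h

theorem DV.prod {α : Type} (s : Finset α) {f : α → ℕ → (Fin n → ℕ) → ℕ} (hf : ∀ a, DV (f a)) :
    DV (fun p v => ∏ a ∈ s, f a p v) := by
  classical
  induction s using Finset.induction_on with
  | empty =>
    simp only [Finset.prod_empty]
    exact DV.const 1
  | insert a s ha ih =>
    simp only [Finset.prod_insert ha]
    exact (hf a).mul ih

open scoped Classical in
/-- case distinctions by first-order relations between definable elements -/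
theorem DV.iteQ {l : Type} [Finite l] {R : FR l} (hR : PRQ R) {q : l → ℕ → (Fin n → ℕ) → ℕ}
    (hq : ∀ i, DV (q i)) {f g : ℕ → (Fin n → ℕ) → ℕ} (hf : DV f) (hg : DV g) :
    DV (fun p v => if ∃ h : p.Prime, haveI := Fact.mk h;
      R (ZMod p) (fun i => (q i p v : ZMod p)) then f p v else g p v) :=
  DFun.ite (prq_delta hR (DFun.proj 0) hq) hf hg

/-- substitution in a definable function of `p` and parameters -/
theorem DV.dc {ι : Type} {N : ℕ → (ι → ℕ) → ℕ} (hN : DC N) {q : ι → ℕ → (Fin n → ℕ) → ℕ}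
    (hq : ∀ i, DV (q i)) : DV (fun p v => N p fun i => q i p v) :=
  hN (DFun.proj 0) hq

theorem SM.congr {w w' : WF n κ} (hw : SM w) (h : ∀ (p : ℕ) [Fact p.Prime] (v : Fin n → ℕ)
    (x : κ → ZMod p), w p v x = w' p v x) : SM w' := by
  have e : w = w' := by
    funext p _ v x
    exact h p v x
  rwa [← e]

theorem SM.const {c : ℕ → (Fin n → ℕ) → ℕ} (hc : DV c) : SM (κ := κ) (fun p _ v _ => c p v) := by
  refine ⟨Unit, Empty, inferInstance, inferInstance, fun i => i.elim, fun _ _ _ _ => True, fun _ => c,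
    fun i => i.elim, fun _ => PRQ.true, fun _ => hc, fun p _ v x => ?_⟩
  simp

open scoped Classical in
theorem SM.ind {l : Type} [Finite l] {R : FR (κ ⊕ l)} (hR : PRQ R) {q : l → ℕ → (Fin n → ℕ) → ℕ}
    (hq : ∀ i, DV (q i)) : SM (fun p _ v (x : κ → ZMod p) =>
      if R (ZMod p) (Sum.elim x fun i => (q i p v : ZMod p)) then 1 else 0) := by
  refine ⟨Unit, l, inferInstance, inferInstance, q, fun _ => R, fun _ _ _ => 1, hq, fun _ => hR,
    fun _ => DV.const 1, fun p _ v x => ?_⟩
  simp

theorem SM.add {w w' : WF n κ} (hw : SM w) (hw' : SM w') :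
    SM (fun p _ v x => w p v x + w' p v x) := by
  classical
  obtain ⟨J, l, _, _, q, R, c, hq, hR, hc, h⟩ := hw
  obtain ⟨J', l', _, _, q', R', c', hq', hR', hc', h'⟩ := hw'
  refine ⟨J ⊕ J', l ⊕ l', inferInstance, inferInstance, Sum.elim q q',
    Sum.elim (fun j K _ x => R j K fun i => x (Sum.map id Sum.inl i))
      (fun j K _ x => R' j K fun i => x (Sum.map id Sum.inr i)),
    Sum.elim c c', ?_, ?_, ?_, fun p _ v x => ?_⟩
  · rintro (i | i)
    · exact hq i
    · exact hq' i
  · rintro (j | j)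
    · exact (hR j).comp (G := fun i K _ (x : κ ⊕ (l ⊕ l') → K) => x (Sum.map id Sum.inl i))
        fun i => PRF.var _
    · exact (hR' j).comp (G := fun i K _ (x : κ ⊕ (l ⊕ l') → K) => x (Sum.map id Sum.inr i))
        fun i => PRF.var _
  · rintro (j | j)
    · exact hc j
    · exact hc' j
  · beta_reduce
    rw [h p v x, h' p v x, Fintype.sum_sum_type]
    congr 1
    · refine Finset.sum_congr rfl fun j _ => if_congr (iff_of_eq (congrArg (R j (ZMod p)) ?_)) rfl rfl
      funext i
      rcases i with i | i <;> rfl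
    · refine Finset.sum_congr rfl fun j _ => if_congr (iff_of_eq (congrArg (R' j (ZMod p)) ?_)) rfl rfl
      funext i
      rcases i with i | i <;> rfl

theorem SM.mul {w w' : WF n κ} (hw : SM w) (hw' : SM w') :
    SM (fun p _ v x => w p v x * w' p v x) := by
  classical
  obtain ⟨J, l, _, _, q, R, c, hq, hR, hc, h⟩ := hw
  obtain ⟨J', l', _, _, q', R', c', hq', hR', hc', h'⟩ := hw'
  refine ⟨J × J', l ⊕ l', inferInstance, inferInstance, Sum.elim q q',
    fun j K _ x => R j.1 K (fun i => x (Sum.map id Sum.inl i)) ∧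
      R' j.2 K fun i => x (Sum.map id Sum.inr i),
    fun j p v => c j.1 p v * c' j.2 p v, ?_, ?_, ?_, fun p _ v x => ?_⟩
  · rintro (i | i)
    · exact hq i
    · exact hq' i
  · rintro ⟨j, j'⟩
    exact ((hR j).comp (G := fun i K _ (x : κ ⊕ (l ⊕ l') → K) => x (Sum.map id Sum.inl i))
        fun i => PRF.var _).and
      ((hR' j').comp (G := fun i K _ (x : κ ⊕ (l ⊕ l') → K) => x (Sum.map id Sum.inr i))
        fun i => PRF.var _)
  · rintro ⟨j, j'⟩
    exact (hc j).mul (hc' j')
  · beta_reduce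
    rw [h p v x, h' p v x, Finset.sum_mul_sum, Fintype.sum_prod_type]
    refine Finset.sum_congr rfl fun j _ => Finset.sum_congr rfl fun j' _ => ?_
    have e1 : (fun i : κ ⊕ l => Sum.elim x (fun i => ((Sum.elim q q' i p v : ℕ) : ZMod p))
        (Sum.map id Sum.inl i)) = Sum.elim x fun i => (q i p v : ZMod p) := by
      funext i
      rcases i with i | i <;> rfl
    have e2 : (fun i : κ ⊕ l' => Sum.elim x (fun i => ((Sum.elim q q' i p v : ℕ) : ZMod p))
        (Sum.map id Sum.inr i)) = Sum.elim x fun i => (q' i p v : ZMod p) := by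
      funext i
      rcases i with i | i <;> rfl
    by_cases h1 : R j (ZMod p) (Sum.elim x fun i => (q i p v : ZMod p))
    · by_cases h2 : R' j' (ZMod p) (Sum.elim x fun i => (q' i p v : ZMod p))
      · rw [if_pos h1, if_pos h2, if_pos]
        rw [e1, e2]
        exact ⟨h1, h2⟩
      · rw [if_neg h2, mul_zero, if_neg]
        rw [e1, e2]
        exact fun h3 => h2 h3.2
    · rw [if_neg h1, zero_mul, if_neg]
      rw [e1, e2]
      exact fun h3 => h1 h3.1

theorem SM.sum {α : Type} (s : Finset α) {w : α → WF n κ} (hw : ∀ a, SM (w a)) :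
    SM (fun p _ v x => ∑ a ∈ s, w a p v x) := by
  classical
  induction s using Finset.induction_on with
  | empty => exact (SM.const (DV.const 0)).congr fun p _ v x => by simp
  | insert a s ha ih =>
    refine ((hw a).add ih).congr fun p _ v x => ?_
    rw [Finset.sum_insert ha]

theorem SM.prod {α : Type} (s : Finset α) {w : α → WF n κ} (hw : ∀ a, SM (w a)) :
    SM (fun p _ v x => ∏ a ∈ s, w a p v x) := by
  classical
  induction s using Finset.induction_on with
  | empty => exact (SM.const (DV.const 1)).congr fun p _ v x => by simp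
  | insert a s ha ih =>
    refine ((hw a).mul ih).congr fun p _ v x => ?_
    rw [Finset.prod_insert ha]

open scoped Classical in
theorem SM.ite {l : Type} [Finite l] {R : FR (κ ⊕ l)} (hR : PRQ R) {q : l → ℕ → (Fin n → ℕ) → ℕ}
    (hq : ∀ i, DV (q i)) {w w' : WF n κ} (hw : SM w) (hw' : SM w') : SM (fun p _ v (x : κ → ZMod p) =>
      if R (ZMod p) (Sum.elim x fun i => (q i p v : ZMod p)) then w p v x else w' p v x) := by
  refine (((SM.ind hR hq).mul hw).add ((SM.ind hR.not hq).mul hw')).congr fun p _ v x => ?_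
  by_cases h : R (ZMod p) (Sum.elim x fun i => (q i p v : ZMod p))
  · simp [h]
  · simp [h]

/-- substitution of piecewise rational functions with definable parameters -/
theorem SM.comp {κ' l : Type} [Finite l] {w : WF n κ} (hw : SM w) {G : κ → FF (κ' ⊕ l)}
    (hG : ∀ i, PRF (G i)) {q : l → ℕ → (Fin n → ℕ) → ℕ} (hq : ∀ i, DV (q i)) :
    SM (fun p _ v (x : κ' → ZMod p) =>
      w p v fun i => G i (ZMod p) (Sum.elim x fun i => (q i p v : ZMod p))) := by
  classical
  obtain ⟨J, l', _, _, q', R, c, hq', hR, hc, h⟩ := hw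
  refine ⟨J, l' ⊕ l, inferInstance, inferInstance, Sum.elim q' q,
    fun j K _ x => R j K (Sum.elim (fun i => G i K fun i => x (Sum.map id Sum.inr i))
      fun i => x (Sum.inr (Sum.inl i))), c, ?_, ?_, hc, fun p _ v x => ?_⟩
  · rintro (i | i)
    · exact hq' i
    · exact hq i
  · intro j
    refine ((hR j).comp (G := Sum.elim
      (fun i K _ (x : κ' ⊕ (l' ⊕ l) → K) => G i K fun i => x (Sum.map id Sum.inr i))
      (fun i K _ (x : κ' ⊕ (l' ⊕ l) → K) => x (Sum.inr (Sum.inl i)))) ?_).congr fun K _ x => ?_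
    · rintro (i | i)
      · exact (hG i).comp (G := fun i K _ (x : κ' ⊕ (l' ⊕ l) → K) => x (Sum.map id Sum.inr i))
          fun i => PRF.var _
      · exact PRF.var _
    · refine iff_of_eq (congrArg (R j K) ?_)
      funext i
      rcases i with i | i <;> rfl
  · beta_reduce
    rw [h p v]
    refine Finset.sum_congr rfl fun j _ => if_congr (iff_of_eq (congrArg (R j (ZMod p)) ?_)) rfl rfl
    funext i
    rcases i with i | i
    · refine congrArg (G i (ZMod p)) ?_
      funext i
      rcases i with i | i <;> rfl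
    · rfl

/-- values at definable arguments -/
theorem SM.eval {w : WF n κ} (hw : SM w) {q : κ → ℕ → (Fin n → ℕ) → ℕ} [Finite κ]
    (hq : ∀ i, DV (q i)) : ∃ f : ℕ → (Fin n → ℕ) → ℕ, DV f ∧ ∀ (p : ℕ) [Fact p.Prime]
      (v : Fin n → ℕ), f p v = w p v fun i => (q i p v : ZMod p) := by
  classical
  obtain ⟨J, l, _, _, q', R, c, hq', hR, hc, h⟩ := hw
  refine ⟨_, DV.sum Finset.univ fun j => DV.iteQ (hR j) (q := Sum.elim q q') (by
    rintro (i | i)
    · exact hq i
    · exact hq' i) (hc j) (DV.const 0), fun p hp v => ?_⟩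
  rw [h p v]
  refine Finset.sum_congr rfl fun j _ => ?_
  have e : (fun i => ((Sum.elim q q' i p v : ℕ) : ZMod p)) =
      Sum.elim (fun i => (q i p v : ZMod p)) fun i => (q' i p v : ZMod p) := by
    funext i
    rcases i with i | i <;> rfl
  refine if_congr ?_ rfl rfl
  rw [← e]
  exact ⟨fun ⟨_, h1⟩ => h1, fun h1 => ⟨hp.out, h1⟩⟩

/-- sums over `ZMod p` -/
theorem SM.card {w : WF n (Fin 1)} (hw : SM w) : ∃ f : ℕ → (Fin n → ℕ) → ℕ, DV f ∧
    ∀ (p : ℕ) [Fact p.Prime] (v : Fin n → ℕ), f p v = ∑ t : ZMod p, w p v ![t] := by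
  classical
  obtain ⟨J, l, _, _, q, R, c, hq, hR, hc, h⟩ := hw
  have h1 : ∀ j, ∃ N : ℕ → (l → ℕ) → ℕ, DC N ∧ ∀ (p : ℕ) [Fact p.Prime] (a : l → ℕ), N p a =
      Nat.card {x : ZMod p // R j (ZMod p) (Sum.elim ![x] fun i => (a i : ZMod p))} := by
    intro j
    obtain ⟨N, hN, hN'⟩ := CvQ.one (R := fun K _ (x : Unit ⊕ l → K) => R j K
      (Sum.elim ![x (Sum.inl ())] fun i => x (Sum.inr i))) (by
      refine ((hR j).comp (G := Sum.elim (fun _ K _ (x : Unit ⊕ l → K) => x (Sum.inl ()))
        (fun i K _ (x : Unit ⊕ l → K) => x (Sum.inr i))) ?_).congr fun K _ x => ?_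
      · rintro (i | i)
        · exact PRF.var _
        · exact PRF.var _
      · refine iff_of_eq (congrArg (R j K) ?_)
        funext i
        rcases i with i | i
        · simp
        · rfl)
    exact ⟨N, hN, fun p _ a => hN' p a⟩
  choose N hN hN' using h1
  refine ⟨_, DV.sum Finset.univ fun j => (hc j).mul (DV.dc (hN j) hq), fun p _ v => ?_⟩
  have e : ∀ t : ZMod p, w p v ![t] = ∑ j, if R j (ZMod p)
      (Sum.elim ![t] fun i => (q i p v : ZMod p)) then c j p v else 0 := fun t => h p v ![t]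
  simp only [e]
  rw [Finset.sum_comm]
  refine Finset.sum_congr rfl fun j _ => ?_
  rw [hN' j p, ← Finset.sum_filter, Finset.sum_const, smul_eq_mul, mul_comm,
    Nat.card_eq_fintype_card, Fintype.card_subtype]

end Pool.Agent.IsoC
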