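import Pool.Agent.IsoC.Top

/-!
# Sums of binary forms

`sum_forms`: the number of the solutions of `F₁(x₁, y₁) + ⋯ + F_k(x_k, y_k) = b` modulo squarefree numbers, `F_j` binary
forms of any degrees with coefficients in `D_n`; `ex_schur`: `F(x, y) = G(z, w)`.
-/

set_option autoImplicit false

noncomputable section

namespace Pool.Agent.IsoC

open Finset Polynomial Pool.Agent.PRc Pool.Agent.Grz Pool.Agent.CvS

variable {n : ℕ}

/-- a binary form as a family -/
private def bfF (e : ℕ) (c : Fin (e + 1) → (Fin n → ℕ) → ℕ) : Fam n (Unit ⊕ Unit) :=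
  fun v R _ _ x => ∑ i : Fin (e + 1), ∑ j : Fin (e + 1), if 1 * (i : ℕ) + 1 * (j : ℕ) = e then
    (c i v : R) * x (Sum.inl ()) ^ (i : ℕ) * x (Sum.inr ()) ^ (j : ℕ) else 0

private theorem bfF_cls {e : ℕ} (he : 0 < e) {c : Fin (e + 1) → (Fin n → ℕ) → ℕ}
    (hc : ∀ i, DFun n (c i)) : Cls n (Unit ⊕ Unit) (bfF e c) :=
  Cls.bin 1 1 e one_pos one_pos he (fun i _ => c i) (fun i _ => hc i) Cls.var Cls.var

private theorem bfF_eq {e : ℕ} (c : Fin (e + 1) → (Fin n → ℕ) → ℕ) (v : Fin n → ℕ) {R : Type}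
    [CommRing R] (t : R) (x : Unit ⊕ Unit → R) :
    bfF e c v R t x = ∑ i, (c i v : R) * x (Sum.inl ()) ^ (i : ℕ) *
      x (Sum.inr ()) ^ (e - (i : ℕ)) := by
  unfold bfF
  refine Finset.sum_congr rfl fun i _ => ?_
  have hi : (i : ℕ) ≤ e := Nat.lt_succ_iff.1 i.2
  rw [Finset.sum_eq_single ⟨e - i, by omega⟩]
  · rw [if_pos (by simp only [one_mul]; omega)]
  · intro j _ hj
    rw [if_neg]
    intro h
    refine hj (Fin.ext ?_)
    simp only [one_mul] at h
    change (j : ℕ) = e - i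
    omega
  · intro h
    exact absurd (Finset.mem_univ _) h

private theorem cf_one_F (c : (Fin n → ℕ) → ℕ) (v : Fin n → ℕ) {R : Type} [CommRing R] (t : R) :
    cf (d := 0) (fun _ => c) v t = (c v : R) := by
  unfold cf
  rw [Fin.sum_univ_one]
  simp

open scoped Classical in
/-- one member of the class without parameter -/
private theorem one_F {κ : Type} {E : Fam n κ} (hE : Cls n κ E)
    (hE0 : ∀ (v : Fin n → ℕ) (R : Type) [CommRing R] (t t' : R) (x : κ → R),
      E v R t x = E v R t' x) (b : (Fin n → ℕ) → ℕ) (hb : DFun n b)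
    (m : (Fin n → ℕ) → ℕ) (hm : DFun n m) :
    DFun n (fun v => if Squarefree (m v) then
      Nat.card {x : κ → ZMod (m v) // E v (ZMod (m v)) 0 x = (b v : ZMod (m v))} else 0) := by
  have h := top (n := n) (d := 0) (k := 1) (fun _ => E) (fun _ => hE) m hm (fun _ _ => b)
    fun _ _ => hb
  have h2 := DFun.div h (DFun.sub hm (DFun.const 1))
  refine (congrArg (DFun n) (funext fun v => ?_)).mp h2
  by_cases hv : Squarefree (m v)
  · rw [if_pos hv, if_pos hv, Nat.sub_add_cancel (Nat.one_le_iff_ne_zero.2 hv.ne_zero)]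
    have e : Nat.card {z : ZMod (m v) × (∀ _ : Fin 1, κ → ZMod (m v)) //
        ∀ j, E v (ZMod (m v)) z.1 (z.2 j) = cf (fun _ : Fin (0 + 1) => b) v z.1} =
        Nat.card (ZMod (m v) × {x : κ → ZMod (m v) // E v (ZMod (m v)) 0 x =
          (b v : ZMod (m v))}) := by
      refine Nat.card_congr
        { toFun := fun z => (z.1.1, ⟨z.1.2 0, ?_⟩)
          invFun := fun z => ⟨(z.1, fun _ => z.2.1), fun j => ?_⟩
          left_inv := fun z => ?_
          right_inv := fun z => rfl }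
      · have h3 := z.2 0
        rw [cf_one_F] at h3
        rw [← h3]
        exact hE0 _ _ _ _ _
      · rw [cf_one_F]
        exact (hE0 _ _ _ _ _).trans z.2.2
      · apply Subtype.ext
        refine Prod.ext rfl ?_
        funext j
        rw [Subsingleton.elim j 0]
    rw [e, Nat.card_prod, Nat.card_zmod]
    exact Nat.mul_div_cancel_left _ (Nat.pos_of_ne_zero hv.ne_zero)
  · rw [if_neg hv, if_neg hv, Nat.zero_div]

open scoped Classical in
/-- sums of binary forms of any degrees with coefficients in `D_n` -/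
theorem sum_forms {k : ℕ} (e : Fin k → ℕ) (he : ∀ j, 0 < e j)
    (c : ∀ j, Fin (e j + 1) → (Fin n → ℕ) → ℕ) (hc : ∀ j i, DFun n (c j i))
    (b : (Fin n → ℕ) → ℕ) (hb : DFun n b) (m : (Fin n → ℕ) → ℕ) (hm : DFun n m) :
    DFun n (fun v => if Squarefree (m v) then
      Nat.card {w : Fin k → ZMod (m v) × ZMod (m v) // ∑ j, ∑ i, (c j i v : ZMod (m v)) *
        (w j).1 ^ (i : ℕ) * (w j).2 ^ (e j - (i : ℕ)) = (b v : ZMod (m v))} else 0) := by
  have hM : LinearIndependent ℚ (fun (i j : Fin k) =>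
      (((if i = j then 1 else 0 : ℕ)) : ℚ)) := by
    rw [Fintype.linearIndependent_iff]
    intro g hg i
    have h1 := congrFun hg i
    simpa [Finset.sum_apply] using h1
  have hE := Cls.dels (n := n) (s := k) (r := k) (d := 0) (fun i j => if i = j then 1 else 0) hM
    (fun _ _ _ => 1) (fun _ _ => DFun.const 1) fun j => bfF_cls (he j) (hc j)
  have key : ∀ (v : Fin n → ℕ) (R : Type) [CommRing R] (t : R)
      (x : (Σ _ : Fin k, Unit ⊕ Unit) → R),
      (∑ i, cf (d := 0) (fun _ _ => 1) v t * ∏ j, bfF (e j) (c j) v R t (fun y => x ⟨j, y⟩) ^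
        (if i = j then 1 else 0)) = ∑ j, ∑ i, (c j i v : R) *
        x ⟨j, Sum.inl ()⟩ ^ (i : ℕ) * x ⟨j, Sum.inr ()⟩ ^ (e j - (i : ℕ)) := by
    intro v R _ t x
    refine Finset.sum_congr rfl fun j _ => ?_
    rw [cf_one_F, Nat.cast_one, one_mul, Finset.prod_eq_single j, if_pos rfl, pow_one, bfF_eq]
    · intro j' _ hj
      rw [if_neg (Ne.symm hj), pow_zero]
    · intro h
      exact absurd (Finset.mem_univ _) h
  have hfam : (fun (v : Fin n → ℕ) (R : Type) [CommRing R] (t : R)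
      (x : (Σ _ : Fin k, Unit ⊕ Unit) → R) =>
      ∑ i, cf (d := 0) (fun _ _ => 1) v t * ∏ j, bfF (e j) (c j) v R t (fun y => x ⟨j, y⟩) ^
        (if i = j then 1 else 0)) = fun (v : Fin n → ℕ) (R : Type) [CommRing R] (t : R)
      (x : (Σ _ : Fin k, Unit ⊕ Unit) → R) => ∑ j, ∑ i, (c j i v : R) *
        x ⟨j, Sum.inl ()⟩ ^ (i : ℕ) * x ⟨j, Sum.inr ()⟩ ^ (e j - (i : ℕ)) := by
    funext v R _ t x
    exact key v R t x
  have hE' : Cls n (Σ _ : Fin k, Unit ⊕ Unit) (fun (v : Fin n → ℕ) (R : Type) [CommRing R] (t : R)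
      (x : (Σ _ : Fin k, Unit ⊕ Unit) → R) => ∑ j, ∑ i, (c j i v : R) *
        x ⟨j, Sum.inl ()⟩ ^ (i : ℕ) * x ⟨j, Sum.inr ()⟩ ^ (e j - (i : ℕ))) := by
    rw [← hfam]
    exact hE
  have h := one_F hE' (fun v R _ t t' x => rfl) b hb m hm
  refine (congrArg (DFun n) (funext fun v => if_congr Iff.rfl ?_ rfl)).mp h
  refine Nat.card_congr
    { toFun := fun x => ⟨fun j => (x.1 ⟨j, Sum.inl ()⟩, x.1 ⟨j, Sum.inr ()⟩), x.2⟩
      invFun := fun w => ⟨fun y => Sum.elim (fun _ => (w.1 y.1).1) (fun _ => (w.1 y.1).2) y.2,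
        w.2⟩
      left_inv := fun x => ?_
      right_inv := fun w => rfl }
  apply Subtype.ext
  funext y
  rcases y with ⟨j, y | y⟩ <;> rfl

open scoped Classical in
/-- `F(x, y) = G(z, w)`, binary forms of any degrees with coefficients in `D_n` -/
theorem ex_schur {e e' : ℕ} (he : 0 < e) (he' : 0 < e') (c : Fin (e + 1) → (Fin n → ℕ) → ℕ)
    (hc : ∀ i, DFun n (c i)) (c' : Fin (e' + 1) → (Fin n → ℕ) → ℕ) (hc' : ∀ i, DFun n (c' i))
    (m : (Fin n → ℕ) → ℕ) (hm : DFun n m) :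
    DFun n (fun v => if Squarefree (m v) then
      Nat.card {x : Fin 4 → ZMod (m v) //
        ∑ i, (c i v : ZMod (m v)) * x 0 ^ (i : ℕ) * x 1 ^ (e - (i : ℕ)) =
          ∑ i, (c' i v : ZMod (m v)) * x 2 ^ (i : ℕ) * x 3 ^ (e' - (i : ℕ))} else 0) := by
  have hE := Cls.bin (n := n) 1 1 1 one_pos one_pos one_pos
    (fun i _ => (![fun v => m v - 1, fun _ => 1] : Fin 2 → (Fin n → ℕ) → ℕ) i)
    (fun i _ => by
      fin_cases i
      · exact DFun.sub hm (DFun.const 1)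
      · exact DFun.const 1) (bfF_cls he hc) (bfF_cls he' hc')
  have key : ∀ (v : Fin n → ℕ) (R : Type) [CommRing R] (t : R)
      (x : (Unit ⊕ Unit) ⊕ (Unit ⊕ Unit) → R),
      (∑ i : Fin (1 + 1), ∑ j : Fin (1 + 1), if 1 * (i : ℕ) + 1 * (j : ℕ) = 1 then
        ((![fun v => m v - 1, fun _ => 1] : Fin 2 → (Fin n → ℕ) → ℕ) i v : R) *
          bfF e c v R t (fun y => x (Sum.inl y)) ^ (i : ℕ) *
          bfF e' c' v R t (fun y => x (Sum.inr y)) ^ (j : ℕ) else 0) =
      ((m v - 1 : ℕ) : R) * (∑ i, (c' i v : R) * x (Sum.inr (Sum.inl ())) ^ (i : ℕ) *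
        x (Sum.inr (Sum.inr ())) ^ (e' - (i : ℕ))) +
      ∑ i, (c i v : R) * x (Sum.inl (Sum.inl ())) ^ (i : ℕ) *
        x (Sum.inl (Sum.inr ())) ^ (e - (i : ℕ)) := by
    intro v R _ t x
    rw [Fin.sum_univ_two, Fin.sum_univ_two, Fin.sum_univ_two, bfF_eq, bfF_eq]
    simp
  have hfam : (fun (v : Fin n → ℕ) (R : Type) [CommRing R] (t : R)
      (x : (Unit ⊕ Unit) ⊕ (Unit ⊕ Unit) → R) =>
      ∑ i : Fin (1 + 1), ∑ j : Fin (1 + 1), if 1 * (i : ℕ) + 1 * (j : ℕ) = 1 then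
        ((![fun v => m v - 1, fun _ => 1] : Fin 2 → (Fin n → ℕ) → ℕ) i v : R) *
          bfF e c v R t (fun y => x (Sum.inl y)) ^ (i : ℕ) *
          bfF e' c' v R t (fun y => x (Sum.inr y)) ^ (j : ℕ) else 0) =
      fun (v : Fin n → ℕ) (R : Type) [CommRing R] (t : R)
      (x : (Unit ⊕ Unit) ⊕ (Unit ⊕ Unit) → R) =>
      ((m v - 1 : ℕ) : R) * (∑ i, (c' i v : R) * x (Sum.inr (Sum.inl ())) ^ (i : ℕ) *
        x (Sum.inr (Sum.inr ())) ^ (e' - (i : ℕ))) +
      ∑ i, (c i v : R) * x (Sum.inl (Sum.inl ())) ^ (i : ℕ) *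
        x (Sum.inl (Sum.inr ())) ^ (e - (i : ℕ)) := by
    funext v R _ t x
    exact key v R t x
  have hE' : Cls n ((Unit ⊕ Unit) ⊕ (Unit ⊕ Unit)) (fun (v : Fin n → ℕ) (R : Type) [CommRing R]
      (t : R) (x : (Unit ⊕ Unit) ⊕ (Unit ⊕ Unit) → R) =>
      ((m v - 1 : ℕ) : R) * (∑ i, (c' i v : R) * x (Sum.inr (Sum.inl ())) ^ (i : ℕ) *
        x (Sum.inr (Sum.inr ())) ^ (e' - (i : ℕ))) +
      ∑ i, (c i v : R) * x (Sum.inl (Sum.inl ())) ^ (i : ℕ) *
        x (Sum.inl (Sum.inr ())) ^ (e - (i : ℕ))) := by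
    rw [← hfam]
    exact hE
  have h := one_F hE' (fun v R _ t t' x => rfl) (fun _ => 0) (DFun.const 0) m hm
  refine (congrArg (DFun n) (funext fun v => ?_)).mp h
  by_cases hv : Squarefree (m v)
  · rw [if_pos hv, if_pos hv]
    have hm1 : ((m v - 1 : ℕ) : ZMod (m v)) = -1 := by
      rw [Nat.cast_sub (Nat.one_le_iff_ne_zero.2 hv.ne_zero), ZMod.natCast_self, Nat.cast_one,
        zero_sub]
    have hiff : ∀ X Y : ZMod (m v), ((m v - 1 : ℕ) : ZMod (m v)) * Y + X =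
        ((0 : ℕ) : ZMod (m v)) ↔ X = Y := by
      intro X Y
      rw [hm1, Nat.cast_zero]
      constructor
      · intro h
        linear_combination h
      · intro h
        linear_combination h
    refine Nat.card_congr
      { toFun := fun x => ⟨![x.1 (Sum.inl (Sum.inl ())), x.1 (Sum.inl (Sum.inr ())),
          x.1 (Sum.inr (Sum.inl ())), x.1 (Sum.inr (Sum.inr ()))], (hiff _ _).1 x.2⟩
        invFun := fun w => ⟨Sum.elim (Sum.elim (fun _ => w.1 0) fun _ => w.1 1)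
          (Sum.elim (fun _ => w.1 2) fun _ => w.1 3), (hiff _ _).2 w.2⟩
        left_inv := fun x => ?_
        right_inv := fun w => ?_ }
    · apply Subtype.ext
      funext y
      rcases y with (y | y) | (y | y) <;> rfl
    · apply Subtype.ext
      funext y
      fin_cases y <;> rfl
  · rw [if_neg hv, if_neg hv]

end Pool.Agent.IsoC
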