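import Pool.Agent.IsoC.Ind
import Pool.Agent.IsoC.DelsI
import Pool.Agent.IsoC.Bin
import Pool.Agent.IsoC.Bund
import Pool.Agent.IsoC.Quad
import Pool.Agent.IsoC.Crt

/-!
# Point counts in higher dimension: main theorem
-/

set_option autoImplicit false

noncomputable section

namespace Pool.Agent.IsoC

open Finset Polynomial Pool.Agent.PRc Pool.Agent.Grz Pool.Agent.CvS

variable {n : ℕ}

theorem cls_ind {κ : Type} {E : Fam n κ} (hE : Cls n κ E) : Ind E := by
  induction hE with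
  | var => exact ind_var
  | quad s d c hc => exact ind_quad s d c hc
  | bin w₁ w₂ e h₁ h₂ he c hc h h' ih ih' =>
    have := cls_finite h
    have := cls_finite h'
    exact ind_bin w₁ w₂ e h₁ h₂ he c hc ih ih'
  | dels M hM a ha hE ih => exact ind_dels M hM a ha (fun j => cls_finite (hE j)) ih
  | bund h ih =>
    have := cls_finite h
    exact ind_bundle ih

private theorem sqf_Top {f : (Fin n → ℕ) → ℕ} (hf : DFun n f) :
    Delta0 n (fun v => Squarefree (f v)) := by
  have h1 : Delta0 (n + 1) (fun w => w 0 * w 0 ∣ f (fun i => w i.succ) → w 0 = 1) :=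
    (ECD.delta_dvd ((DFun.proj 0).mul (DFun.proj 0)) hf.weak).imp
      (Delta0.eqFun (DFun.proj 0) (DFun.const 1))
  refine ((Delta0.ltFun (DFun.const 0) hf).and (Delta0.ballFun
    (P := fun x v => x * x ∣ f v → x = 1) hf h1)).of_iff fun v => ?_
  constructor
  · intro h
    exact ⟨Nat.pos_of_ne_zero h.ne_zero, fun x _ hx => Nat.isUnit_iff.1 (h x hx)⟩
  · rintro ⟨h0, h⟩ x hx
    refine Nat.isUnit_iff.2 (h x ?_ hx)
    have h2 : x * x ≤ f v := Nat.le_of_dvd h0 hx
    exact (Nat.le_mul_self x).trans h2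

private theorem dfun_congr_Top {f g : (Fin n → ℕ) → ℕ} (hf : DFun n f) (h : ∀ v, g v = f v) :
    DFun n g := by
  have e : g = f := funext h
  rwa [e]

private theorem cf_hom_Top {d : ℕ} (c : Fin (d + 1) → (Fin n → ℕ) → ℕ) (v : Fin n → ℕ) {R S : Type}
    [CommRing R] [CommRing S] (f : R →+* S) (t : R) : f (cf c v t) = cf c v (f t) := by
  simp only [cf, map_sum, map_mul, map_pow, map_natCast]

/-- the equations -/
private def Q_Top {d k : ℕ} {κ : Fin k → Type} (E : ∀ j, Fam n (κ j))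
    (b : Fin k → Fin (d + 1) → (Fin n → ℕ) → ℕ) (v : Fin n → ℕ) :
    ∀ (R : Type) [CommRing R] (j : Fin k), R → (κ j → R) → R :=
  fun R _ j t x => E j v R t x - cf (b j) v t

private theorem cn_eq_Top {d k : ℕ} {κ : Fin k → Type} (E : ∀ j, Fam n (κ j))
    (b : Fin k → Fin (d + 1) → (Fin n → ℕ) → ℕ) (v : Fin n → ℕ) (m : ℕ) :
    Nat.card {z : ZMod m × (∀ j, κ j → ZMod m) //
      ∀ j, E j v (ZMod m) z.1 (z.2 j) = cf (b j) v z.1} = Cn (Q_Top E b v) m := by
  refine Nat.card_congr (Equiv.subtypeEquivRight fun z => ?_)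
  exact forall_congr' fun j => sub_eq_zero.symm

/-- the local number -/
private theorem cn_prime_Top {d k : ℕ} {κ : Fin k → Type} [∀ j, Finite (κ j)]
    (E : ∀ j, Fam n (κ j)) (b : Fin k → Fin (d + 1) → (Fin n → ℕ) → ℕ) (v : Fin n → ℕ)
    (p : ℕ) [Fact p.Prime] :
    Cn (Q_Top E b v) p = ∑ t : ZMod p, ∏ j, Wn (E j) p v t (cf (b j) v t) := by
  rw [← cn_eq_Top]
  have e : {z : ZMod p × (∀ j, κ j → ZMod p) //
      ∀ j, E j v (ZMod p) z.1 (z.2 j) = cf (b j) v z.1} ≃
      Σ t : ZMod p, ∀ j, {x : κ j → ZMod p // E j v (ZMod p) t x = cf (b j) v t} :=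
    { toFun := fun z => ⟨z.1.1, fun j => ⟨z.1.2 j, z.2 j⟩⟩
      invFun := fun w => ⟨(w.1, fun j => (w.2 j).1), fun j => (w.2 j).2⟩
      left_inv := fun _ => rfl
      right_inv := fun _ => rfl }
  rw [Nat.card_congr e, Nat.card_sigma]
  refine Finset.sum_congr rfl fun t _ => ?_
  rw [Nat.card_pi]
  rfl

private theorem cn_le_Top {d k : ℕ} {κ : Fin k → Type} [∀ j, Finite (κ j)]
    (E : ∀ j, Fam n (κ j)) (b : Fin k → Fin (d + 1) → (Fin n → ℕ) → ℕ) (v : Fin n → ℕ)
    (p : ℕ) [Fact p.Prime] :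
    Cn (Q_Top E b v) p ≤ p ^ (1 + ∑ j, Nat.card (κ j)) := by
  have h1 : Cn (Q_Top E b v) p ≤ Nat.card (ZMod p × (∀ j, κ j → ZMod p)) :=
    Nat.card_le_card_of_injective _ Subtype.val_injective
  refine h1.trans (le_of_eq ?_)
  rw [Nat.card_prod, Nat.card_pi, pow_add, pow_one, Nat.card_zmod]
  congr 1
  rw [← Finset.prod_pow_eq_pow_sum]
  refine Finset.prod_congr rfl fun j _ => ?_
  rw [Nat.card_fun, Nat.card_zmod]

open scoped Classical in
theorem top {d k : ℕ} {κ : Fin k → Type} (E : ∀ j, Fam n (κ j)) (hE : ∀ j, Cls n (κ j) (E j))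
    (m : (Fin n → ℕ) → ℕ) (hm : DFun n m) (b : Fin k → Fin (d + 1) → (Fin n → ℕ) → ℕ)
    (hb : ∀ j i, DFun n (b j i)) :
    DFun n (fun v => if Squarefree (m v) then
      Nat.card {z : ZMod (m v) × (∀ j, κ j → ZMod (m v)) //
        ∀ j, E j v (ZMod (m v)) z.1 (z.2 j) = cf (b j) v z.1} else 0) := by
  have hfin : ∀ j, Finite (κ j) := fun j => cls_finite (hE j)
  have hS : ∀ j, SM (κ := Fin 1)
      (fun p _ v x => Wn (E j) p v (x 0) (cf (b j) v (x 0))) := by
    intro j
    obtain ⟨N, hN, hC, hS⟩ := cls_ind (hE j)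
    refine (hS.comp (κ' := Fin 1) (l := Fin (d + 1))
      (G := ![fun K _ (x : Fin 1 ⊕ Fin (d + 1) → K) => x (Sum.inl 0),
        fun K _ (x : Fin 1 ⊕ Fin (d + 1) → K) =>
          ∑ i : Fin (d + 1), x (Sum.inr i) * x (Sum.inl 0) ^ (i : ℕ)])
      ?_ (q := fun i _ v => b j i v) fun i => DV.par (hb j i)).congr fun p _ v x => ?_
    · intro i
      fin_cases i
      · exact PRF.var _
      · exact PRF.sum Finset.univ (F := fun (i : Fin (d + 1)) (K : Type) [Field K]
          (x : Fin 1 ⊕ Fin (d + 1) → K) => x (Sum.inr i) * x (Sum.inl 0) ^ (i : ℕ))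
          fun i _ => PRF.mul (PRF.var _) ((PRF.var _).pow _)
    · rfl
  obtain ⟨f, hf, hf'⟩ := (SM.prod Finset.univ hS).card
  set S : ℕ := 1 + ∑ j, Nat.card (κ j) with hSdef
  have hs : Delta0 n (fun v => Squarefree (m v)) := sqf_Top hm
  have hm' : DFun n (fun v => if Squarefree (m v) then m v else 1) :=
    DFun.ite hs hm (DFun.const 1)
  have hg : DFun (n + 1) (fun w => (fun (q : ℕ) (v : Fin n → ℕ) =>
      min (f q v) (q ^ S)) (w 0) (fun i => w i.succ)) :=
    DFun.min hf (PTr.DFun.powConst (DFun.proj 0) S)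
  have hbd : ∀ v : Fin n → ℕ, ∏ q ∈ (if Squarefree (m v) then m v else 1).primeFactors,
      min (f q v) (q ^ S) ≤ (if Squarefree (m v) then m v else 1) ^ S := by
    intro v
    have h0 : (if Squarefree (m v) then m v else 1) ≠ 0 := by
      split_ifs with h1
      · exact h1.ne_zero
      · exact one_ne_zero
    calc ∏ q ∈ (if Squarefree (m v) then m v else 1).primeFactors, min (f q v) (q ^ S)
        ≤ ∏ q ∈ (if Squarefree (m v) then m v else 1).primeFactors, q ^ S :=
          Finset.prod_le_prod' fun q _ => min_le_right _ _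
      _ = (∏ q ∈ (if Squarefree (m v) then m v else 1).primeFactors, q) ^ S :=
          Finset.prod_pow _ _ _
      _ ≤ (if Squarefree (m v) then m v else 1) ^ S :=
          Nat.pow_le_pow_left (Nat.le_of_dvd (Nat.pos_of_ne_zero h0)
            (Nat.prod_primeFactors_dvd _)) S
  have h2 := PtC.dfun_prodPF (n := n) (m := fun v => if Squarefree (m v) then m v else 1)
    (B := fun v => (if Squarefree (m v) then m v else 1) ^ S) hg hm'
    (PTr.DFun.powConst hm' S) hbd
  have h3 := DFun.ite hs h2 (DFun.const 0)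
  refine dfun_congr_Top h3 fun v => ?_
  by_cases hv : Squarefree (m v)
  · rw [if_pos hv, if_pos hv, if_pos hv, cn_eq_Top, crt (Q_Top E b v) ?_ hv]
    · refine Finset.prod_congr rfl fun q hq => ?_
      have : Fact q.Prime := ⟨Nat.prime_of_mem_primeFactors hq⟩
      have h4 : f q v = Cn (Q_Top E b v) q := by
        rw [hf' q v, cn_prime_Top]
        rfl
      rw [h4]
      exact (min_eq_left (cn_le_Top E b v q)).symm
    · intro R T _ _ g j t x
      unfold Q_Top
      rw [map_sub, cls_hom (hE j) v g t x, cf_hom_Top]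
  · rw [if_neg hv, if_neg hv]

end Pool.Agent.IsoC
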