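import Pool.Agent.IsoC.DelsI

/-!
# Weighted numbers of zeros

`YS M c V`: the number of the zeros of `∑ c i * ∏ y q ^ M i q`, weighted with `∏ V q (y q)`. `ys_inv`: it depends on the
coefficients modulo powers only, if the exponent vectors are linearly independent; `ys_cone`: one more unknown as a factor;
`SM.map`: definable functions of simple functions; `ys_ind`: both properties for affinely independent exponent vectors.
-/

set_option autoImplicit false

noncomputable section

namespace Pool.Agent.IsoC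

open Finset Polynomial Pool.Agent.PRc Pool.Agent.Grz Pool.Agent.CvS

variable {n : ℕ}

open scoped Classical in
/-- weighted numbers of zeros -/
def YS {s r : ℕ} (M : Fin r → Fin s → ℕ) {K : Type} [Field K] [Fintype K] (c : Fin r → K)
    (V : Fin s → K → ℕ) : ℕ :=
  ∑ y : Fin s → K, if ∑ i, c i * ∏ q, y q ^ M i q = 0 then ∏ q, V q (y q) else 0

private theorem prod_zpow_Y {α : Type} (A : Finset α) {K : Type} [Field K] {a : K} (ha : a ≠ 0)
    (f : α → ℤ) : ∏ j ∈ A, a ^ f j = a ^ ∑ j ∈ A, f j := by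
  classical
  induction A using Finset.induction_on with
  | empty => simp
  | insert j A hj ih => rw [Finset.prod_insert hj, Finset.sum_insert hj, ih, zpow_add₀ ha]

/-- the monomials of the scaling factors -/
private theorem mono_Y {s r L : ℕ} {M : Fin r → Fin s → ℕ} (N : ℕ) {w : Fin r → Fin s → ℤ}
    (hw : ∀ i i' : Fin r, ∑ j, (M i j : ℤ) * w i' j = if i = i' then (L : ℤ) else 0)
    {K : Type} [Field K] {ζ : Fin r → K} (hζ : ∀ k, ζ k ≠ 0) (k : Fin r) :
    ∏ j, ((∏ k', ζ k' ^ w k' j) ^ N) ^ M k j = ζ k ^ (L * N) := by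
  have h1 : ∏ j, (∏ k', ζ k' ^ w k' j) ^ M k j = ζ k ^ L := by
    have h2 : ∀ j, (∏ k', ζ k' ^ w k' j) ^ M k j = ∏ k', ζ k' ^ ((M k j : ℤ) * w k' j) := by
      intro j
      rw [← Finset.prod_pow]
      refine Finset.prod_congr rfl fun k' _ => ?_
      rw [← zpow_natCast, ← zpow_mul, mul_comm]
    simp only [h2]
    rw [Finset.prod_comm]
    have h3 : ∀ k', ∏ j, ζ k' ^ ((M k j : ℤ) * w k' j) = if k = k' then ζ k' ^ L else 1 := by
      intro k'
      rw [prod_zpow_Y _ (hζ k'), hw k k']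
      split_ifs with h
      · rw [zpow_natCast]
      · rw [zpow_zero]
    simp only [h3]
    rw [Finset.prod_ite_eq Finset.univ k fun k' => ζ k' ^ L, if_pos (Finset.mem_univ _)]
  calc ∏ j, ((∏ k', ζ k' ^ w k' j) ^ N) ^ M k j
      = (∏ j, (∏ k', ζ k' ^ w k' j) ^ M k j) ^ N := by
        rw [← Finset.prod_pow]
        refine Finset.prod_congr rfl fun j _ => ?_
        rw [← pow_mul, ← pow_mul, mul_comm]
    _ = ζ k ^ (L * N) := by rw [h1, ← pow_mul]

theorem ys_inv {s r N L : ℕ} {M : Fin r → Fin s → ℕ} {w : Fin r → Fin s → ℤ}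
    (hw : ∀ i i' : Fin r, ∑ j, (M i j : ℤ) * w i' j = if i = i' then (L : ℤ) else 0)
    {K : Type} [Field K] [Fintype K] {V : Fin s → K → ℕ} (hV : ∀ q, CC N (V q))
    {c ζ : Fin r → K} (hζ : ∀ k, ζ k ≠ 0) :
    YS M (fun i => c i * ζ i ^ (L * N)) V = YS M c V := by
  classical
  have hη : ∀ j, (∏ k, ζ k ^ w k j) ≠ 0 := fun j =>
    Finset.prod_ne_zero_iff.2 fun k _ => zpow_ne_zero _ (hζ k)
  have hρ : ∀ j, (∏ k, ζ k ^ w k j) ^ N ≠ 0 := fun j => pow_ne_zero N (hη j)
  unfold YS
  symm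
  rw [← Equiv.sum_comp (Equiv.piCongrRight fun j : Fin s =>
    Equiv.mulRight₀ ((∏ k, ζ k ^ w k j) ^ N) (hρ j))]
  refine Finset.sum_congr rfl fun y _ => ?_
  have e1 : ∀ j, (Equiv.piCongrRight fun j : Fin s =>
    Equiv.mulRight₀ ((∏ k, ζ k ^ w k j) ^ N) (hρ j)) y j = y j * (∏ k, ζ k ^ w k j) ^ N :=
    fun j => rfl
  simp only [e1]
  have e2 : ∀ i, c i * ∏ q, (y q * (∏ k, ζ k ^ w k q) ^ N) ^ M i q =
      c i * ζ i ^ (L * N) * ∏ q, y q ^ M i q := by
    intro i
    simp only [mul_pow (y _)]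
    rw [Finset.prod_mul_distrib, mono_Y N hw hζ i]
    ring
  simp only [e2]
  refine if_congr Iff.rfl ?_ rfl
  exact Finset.prod_congr rfl fun q _ => hV q (y q) _ (hη q)

theorem ys_cone {s r : ℕ} (M : Fin r → Fin s → ℕ) {K : Type} [Field K] [Fintype K]
    (c : Fin r → K) (V : Fin s → K → ℕ) :
    YS (fun i => (Fin.cons 1 (M i) : Fin (s + 1) → ℕ)) c (Fin.cons (fun _ => 1) V) =
      ∏ q, (∑ y, V q y) + (Fintype.card K - 1) * YS M c V := by
  classical
  unfold YS
  rw [← Equiv.sum_comp (Fin.consEquiv fun _ : Fin (s + 1) => K), Fintype.sum_prod_type]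
  have h1 : ∀ (w : K) (y : Fin s → K),
      (if ∑ i, c i * ∏ q, (Fin.consEquiv fun _ : Fin (s + 1) => K) (w, y) q ^
        (Fin.cons 1 (M i) : Fin (s + 1) → ℕ) q = 0 then
        ∏ q, (Fin.cons (fun _ => 1) V : Fin (s + 1) → K → ℕ) q
          ((Fin.consEquiv fun _ : Fin (s + 1) => K) (w, y) q) else 0) =
      if w * ∑ i, c i * ∏ q, y q ^ M i q = 0 then ∏ q, V q (y q) else 0 := by
    intro w y
    have e1 : ∑ i, c i * ∏ q, (Fin.consEquiv fun _ : Fin (s + 1) => K) (w, y) q ^
        (Fin.cons 1 (M i) : Fin (s + 1) → ℕ) q = w * ∑ i, c i * ∏ q, y q ^ M i q := by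
      rw [Finset.mul_sum]
      refine Finset.sum_congr rfl fun i _ => ?_
      rw [Fin.prod_univ_succ]
      simp [Fin.consEquiv]
      ring
    have e2 : ∏ q, (Fin.cons (fun _ => 1) V : Fin (s + 1) → K → ℕ) q
          ((Fin.consEquiv fun _ : Fin (s + 1) => K) (w, y) q) = ∏ q, V q (y q) := by
      rw [Fin.prod_univ_succ]
      simp [Fin.consEquiv]
    rw [e1, e2]
  simp only [h1]
  rw [← Finset.add_sum_erase Finset.univ _ (Finset.mem_univ (0 : K))]
  congr 1
  · simp only [zero_mul, if_true]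
    rw [Finset.prod_univ_sum, Fintype.piFinset_univ]
  · rw [Finset.sum_congr rfl fun w hw => ?_, Finset.sum_const, smul_eq_mul,
      Finset.card_erase_of_mem (Finset.mem_univ _), Finset.card_univ]
    refine Finset.sum_congr rfl fun y _ => if_congr ?_ rfl rfl
    rw [mul_eq_zero, or_iff_right (Finset.ne_of_mem_erase hw)]

theorem ys_card {s r : ℕ} (M : Fin r → Fin s → ℕ) {K : Type} [Field K] [Fintype K]
    (c : Fin r → K) (V : Fin s → K → ℕ) : YS M c V =
      (YS (fun i => (Fin.cons 1 (M i) : Fin (s + 1) → ℕ)) c (Fin.cons (fun _ => 1) V) -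
        ∏ q, (∑ y, V q y)) / (Fintype.card K - 1) := by
  rw [ys_cone, Nat.add_sub_cancel_left, Nat.mul_div_cancel_left]
  exact Nat.sub_pos_of_lt Fintype.one_lt_card

open scoped Classical in
/-- definable functions of simple functions -/
theorem SM.map {κ : Type} {w : WF n κ} (hw : SM w) {Φ : ℕ → (Fin n → ℕ) → ℕ → ℕ}
    (hΦ : ∀ c : ℕ → (Fin n → ℕ) → ℕ, DV c → DV (fun p v => Φ p v (c p v))) :
    SM (fun p _ v x => Φ p v (w p v x)) := by
  obtain ⟨J, l, _, _, q, R, c, hq, hR, hc, h⟩ := hw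
  have h1 : ∀ A : Finset J, SM (κ := κ) (n := n) (fun p _ v x =>
      (∏ j, if j ∈ A then
        (if R j (ZMod p) (Sum.elim x fun i => (q i p v : ZMod p)) then 1 else 0) else
        (if ¬ R j (ZMod p) (Sum.elim x fun i => (q i p v : ZMod p)) then 1 else 0)) *
        Φ p v (∑ j ∈ A, c j p v)) := by
    intro A
    refine (SM.prod Finset.univ fun j => ?_).mul (SM.const (hΦ _ (DV.sum A hc)))
    by_cases hj : j ∈ A
    · simp only [if_pos hj]
      exact SM.ind (hR j) hq
    · simp only [if_neg hj]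
      exact (SM.ind (hR j).not hq).congr fun p _ v x => by congr
  refine (SM.sum Finset.univ h1).congr fun p _ v x => ?_
  set A : Finset J := {j | R j (ZMod p) (Sum.elim x fun i => (q i p v : ZMod p))} with hA
  rw [Finset.sum_eq_single A]
  · have e1 : (∏ j, if j ∈ A then
        (if R j (ZMod p) (Sum.elim x fun i => (q i p v : ZMod p)) then 1 else 0) else
        (if ¬ R j (ZMod p) (Sum.elim x fun i => (q i p v : ZMod p)) then 1 else 0)) = 1 := by
      refine Finset.prod_eq_one fun j _ => ?_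
      by_cases hj : R j (ZMod p) (Sum.elim x fun i => (q i p v : ZMod p))
      · have : j ∈ A := by rw [hA, Finset.mem_filter]; exact ⟨Finset.mem_univ _, hj⟩
        rw [if_pos this, if_pos hj]
      · have : j ∉ A := by rw [hA, Finset.mem_filter]; exact fun h => hj h.2
        rw [if_neg this, if_pos hj]
    rw [e1, one_mul, h p v x]
    congr 1
    rw [hA, Finset.sum_filter]
  · intro B _ hB
    have hex : ∃ j, ¬ (j ∈ B ↔ j ∈ A) := by
      by_contra hcon
      push Not at hcon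
      exact hB (Finset.ext hcon)
    obtain ⟨j, hj⟩ := hex
    rw [Finset.prod_eq_zero (Finset.mem_univ j), zero_mul]
    have hA' : j ∈ A ↔ R j (ZMod p) (Sum.elim x fun i => (q i p v : ZMod p)) := by
      rw [hA, Finset.mem_filter]
      exact ⟨fun h => h.2, fun h => ⟨Finset.mem_univ _, h⟩⟩
    by_cases h2 : j ∈ B
    · have h3 : ¬ R j (ZMod p) (Sum.elim x fun i => (q i p v : ZMod p)) := fun h4 =>
        hj ⟨fun _ => hA'.2 h4, fun _ => h2⟩
      rw [if_pos h2, if_neg h3]
    · have h3 : R j (ZMod p) (Sum.elim x fun i => (q i p v : ZMod p)) := by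
        by_contra h4
        exact hj ⟨fun h => absurd h h2, fun h => absurd (hA'.1 h) h4⟩
      rw [if_neg h2, if_neg (not_not.2 h3)]
  · intro h2
    exact absurd (Finset.mem_univ _) h2

/-- affine independence of the exponent vectors -/
theorem aff_cons {s r : ℕ} {M : Fin r → Fin s → ℕ}
    (hM : AffineIndependent ℚ (fun i : Fin r => fun q : Fin s => (M i q : ℚ))) :
    LinearIndependent ℚ (fun (i : Fin r) (q : Fin (s + 1)) =>
      (((Fin.cons 1 (M i) : Fin (s + 1) → ℕ) q : ℕ) : ℚ)) := by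
  rw [affineIndependent_iff] at hM
  rw [Fintype.linearIndependent_iff]
  intro g hg i
  refine hM Finset.univ g ?_ ?_ i (Finset.mem_univ i)
  · have h1 := congrFun hg 0
    simpa using h1
  · funext q
    have h1 := congrFun hg q.succ
    simpa using h1

theorem iw_one : IW (n := n) (fun _ _ _ _ _ => 1) :=
  ⟨1, one_pos, fun _ _ _ _ _ _ _ => rfl, SM.const (DV.const 1)⟩

/-- the sum of the values -/
theorem wn_sum {κ : Type} [Finite κ] (E : Fam n κ) (p : ℕ) [Fact p.Prime] (v : Fin n → ℕ)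
    (t : ZMod p) : ∑ u : ZMod p, Wn E p v t u = p ^ Nat.card κ := by
  classical
  have _ : Fintype κ := Fintype.ofFinite _
  have h1 := sum_fib_I (fun x : κ → ZMod p => E v (ZMod p) t x) fun _ => 1
  simp only [mul_one, Finset.sum_const, Finset.card_univ, smul_eq_mul] at h1
  unfold Wn
  rw [← h1, Fintype.card_fun, ZMod.card, Nat.card_eq_fintype_card]

theorem ys_ind {s r : ℕ} {κ : Fin s → Type} [∀ q, Finite (κ q)] {E : ∀ q, Fam n (κ q)}
    (hE : ∀ q, Ind (E q)) {M : Fin r → Fin s → ℕ}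
    (hM : AffineIndependent ℚ (fun i : Fin r => fun q : Fin s => (M i q : ℚ))) :
    ∃ N : ℕ, 0 < N ∧
      (∀ (N' : ℕ), N ∣ N' → ∀ (p : ℕ) [Fact p.Prime] (v : Fin n → ℕ) (t : ZMod p)
        (c ζ : Fin r → ZMod p), (∀ i, ζ i ≠ 0) → YS M (fun i => c i * ζ i ^ N')
          (fun q => Wn (E q) p v t) = YS M c (fun q => Wn (E q) p v t)) ∧
      ∀ a : Fin r → ℕ → (Fin n → ℕ) → ℕ, (∀ i, DV (a i)) → SM (κ := Fin 1) (fun p _ v x =>
        YS M (fun i => (a i p v : ZMod p)) (fun q => Wn (E q) p v (x 0))) := by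
  classical
  have hM' := aff_cons hM
  obtain ⟨L, hL, w, hw⟩ := wts _ hM'
  obtain ⟨N, hN, hC⟩ : ∃ N : ℕ, 0 < N ∧ ∀ (q : Fin s) (p : ℕ) [Fact p.Prime] (v : Fin n → ℕ)
      (t : ZMod p), CC N (Wn (E q) p v t) := by
    choose N hN hC hS using hE
    exact ⟨∏ j, N j, Finset.prod_pos fun j _ => hN j, fun j p _ v t =>
      cc_mono (hC j p v t) (Finset.dvd_prod_of_mem N (Finset.mem_univ j))⟩
  have hC' : ∀ (p : ℕ) [Fact p.Prime] (v : Fin n → ℕ) (t : ZMod p) (q : Fin (s + 1)),
      CC N ((Fin.cons (fun _ => 1) (fun q => Wn (E q) p v t) : Fin (s + 1) → ZMod p → ℕ) q) := by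
    intro p _ v t q
    refine Fin.cases ?_ (fun q => ?_) q
    · intro _ _ _
      rfl
    · rw [Fin.cons_succ]
      exact hC q p v t
  refine ⟨L * N, Nat.mul_pos hL hN, ?_, ?_⟩
  · rintro N' ⟨k, rfl⟩ p _ v t c ζ hζ
    rw [ys_card, ys_card M c]
    congr 2
    have h1 := ys_inv hw (hC' p v t) (c := c) (ζ := fun i => ζ i ^ k)
      (fun i => pow_ne_zero k (hζ i))
    rw [← h1]
    refine congrArg (fun c => YS _ c _) (funext fun i => ?_)
    rw [← pow_mul, mul_comm k]
  · intro a ha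
    have h1 := iw_dels (n := n) _ hM' (l := Fin r) (q := a) ha
      (c := fun i K _ x => x (Sum.inr i)) (fun i => PRF.var _)
      (V := (Fin.cons (fun _ _ _ _ _ => 1) (fun q => Wn (E q)) : Fin (s + 1) → WT n)) (by
        intro q
        refine Fin.cases ?_ (fun q => ?_) q
        · exact iw_one
        · exact hE q)
    obtain ⟨_, _, _, h2⟩ := h1
    have h3 := h2.comp (κ' := Fin 1) (l := Empty) (q := fun i => i.elim)
      (G := ![fun K _ x => x (Sum.inl 0), fun K _ x => 0]) (by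
        intro i
        fin_cases i
        · exact PRF.var _
        · exact PRF.zero) (fun i => i.elim)
    have h4 := h3.map (Φ := fun p _ u => (u - ∏ q : Fin s, p ^ Nat.card (κ q)) / (p - 1)) (by
      intro c hc
      exact DV.div (DFun.sub hc (DV.prod Finset.univ fun q => DV.pr.pow _))
        (DFun.sub DV.pr (DV.const 1)))
    refine h4.congr fun p _ v x => ?_
    rw [ys_card]
    simp only [wn_sum, ZMod.card]
    congr 2
    unfold YS
    refine Finset.sum_congr rfl fun y _ => ?_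
    have e1 : (∏ q, (Fin.cons (fun _ _ _ _ _ => 1) (fun q => Wn (E q)) : Fin (s + 1) → WT n) q
        p v (x 0) (y q)) = ∏ q, (Fin.cons (fun _ => 1) (fun q => Wn (E q) p v (x 0)) :
          Fin (s + 1) → ZMod p → ℕ) q (y q) := by
      rw [Fin.prod_univ_succ, Fin.prod_univ_succ]
      rfl
    show (if _ then (∏ q, (Fin.cons (fun _ _ _ _ _ => 1) (fun q => Wn (E q)) :
      Fin (s + 1) → WT n) q p v (x 0) (y q)) else 0) = _
    rw [e1]
    congr

end Pool.Agent.IsoC
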